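import Pool.Agent.H63.SB.T1

/-!
# Star bodies with homothetic sections: toolkit, part 2 (homotheties of sections)
-/

namespace Pool.Agent.H63.SB

open Set Filter Topology
open scoped RealInnerProductSpace

variable {E : Type*} [NormedAddCommGroup E] [InnerProductSpace ℝ E]
variable {K L : Set E}

/-! ## T2: homotheties of sections -/

theorem Hom.symm {S : Submodule ℝ E} {x : E} {l : ℝ} (h : Hom K L S x l) :
    Hom L K S (-(l⁻¹ • x)) l⁻¹ := by
  obtain ⟨hx, hl, h⟩ := h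
  refine ⟨S.neg_mem (S.smul_mem _ hx), inv_pos.2 hl, fun z hz => ?_⟩
  have hw : -(l⁻¹ • x) + l⁻¹ • z ∈ S :=
    S.add_mem (S.neg_mem (S.smul_mem _ hx)) (S.smul_mem _ hz)
  rw [← h _ hw, smul_add, smul_neg, smul_smul, smul_smul, mul_inv_cancel₀ hl.ne', one_smul,
    one_smul, add_neg_cancel_left]

theorem Hom.mono {S T : Submodule ℝ E} {x : E} {l : ℝ} (h : Hom K L S x l) (hT : T ≤ S)
    (hx : x ∈ T) : Hom K L T x l :=
  ⟨hx, h.2.1, fun z hz => h.2.2 z (hT hz)⟩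

theorem Hom.gHom {S : Submodule ℝ E} {x : E} {l : ℝ} (hK : StarB K) (hL : StarB L)
    (h : Hom K L S x l) :
    GHom K L S (Dir K ∩ (S : Set E)) (Dir L ∩ (S : Set E)) x l := by
  obtain ⟨hx, hl, h⟩ := h
  refine ⟨hx, hl, subset_rfl, subset_rfl, ?_, ?_, ?_⟩
  · rintro z ⟨h1, h2⟩ t ht
    exact ⟨(smul_mem_Dir ht).2 h1, S.smul_mem _ h2⟩
  · rintro z ⟨h1, h2⟩ t ht
    exact ⟨(smul_mem_Dir ht).2 h1, S.smul_mem _ h2⟩
  · intro z hz
    have hw : x + l • z ∈ S := S.add_mem hx (S.smul_mem _ hz)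
    have e1 : (x + l • z = 0 ∨ (x + l • z ∈ K ∧ x + l • z ∈ Dir K ∩ (S : Set E))) ↔
        x + l • z ∈ K := by
      constructor
      · rintro (h0 | h0)
        · rw [h0]; exact hK.zero_mem
        · exact h0.1
      · intro h0
        by_cases h1 : x + l • z = 0
        · exact Or.inl h1
        · exact Or.inr ⟨h0, mem_Dir h0 h1, hw⟩
    have e2 : (z = 0 ∨ (z ∈ L ∧ z ∈ Dir L ∩ (S : Set E))) ↔ z ∈ L := by
      constructor
      · rintro (h0 | h0)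
        · rw [h0]; exact hL.zero_mem
        · exact h0.1
      · intro h0
        by_cases h1 : z = 0
        · exact Or.inl h1
        · exact Or.inr ⟨h0, mem_Dir h0 h1, hz⟩
    rw [e1, e2]
    exact h z hz

theorem GHom.hom {S : Submodule ℝ E} {D₁ D₂ : Set E} {x : E} {l : ℝ} (hK : StarB K) (hL : StarB L)
    (h : GHom K L S D₁ D₂ x l) (h1 : Dir K ∩ (S : Set E) ⊆ D₁) (h2 : Dir L ∩ (S : Set E) ⊆ D₂) :
    Hom K L S x l := by
  refine ⟨h.mem, h.pos, fun z hz => ?_⟩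
  have hw : x + l • z ∈ S := S.add_mem h.mem (S.smul_mem _ hz)
  have hi := h.iff z hz
  constructor
  · intro h3
    have h4 : z = 0 ∨ (z ∈ L ∧ z ∈ D₂) := by
      apply hi.1
      by_cases h5 : x + l • z = 0
      · exact Or.inl h5
      · exact Or.inr ⟨h3, h1 ⟨mem_Dir h3 h5, hw⟩⟩
    rcases h4 with h4 | h4
    · rw [h4]; exact hL.zero_mem
    · exact h4.1
  · intro h3
    have h4 : x + l • z = 0 ∨ (x + l • z ∈ K ∧ x + l • z ∈ D₁) := by
      apply hi.2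
      by_cases h5 : z = 0
      · exact Or.inl h5
      · exact Or.inr ⟨h3, h2 ⟨mem_Dir h3 h5, hz⟩⟩
    rcases h4 with h4 | h4
    · rw [h4]; exact hK.zero_mem
    · exact h4.1

theorem GHom.symm {S : Submodule ℝ E} {D₁ D₂ : Set E} {x : E} {l : ℝ}
    (h : GHom K L S D₁ D₂ x l) : GHom L K S D₂ D₁ (-(l⁻¹ • x)) l⁻¹ := by
  refine ⟨S.neg_mem (S.smul_mem _ h.mem), inv_pos.2 h.pos, h.sub₂, h.sub₁, h.cone₂, h.cone₁,
    fun z hz => ?_⟩
  have hw : -(l⁻¹ • x) + l⁻¹ • z ∈ S :=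
    S.add_mem (S.neg_mem (S.smul_mem _ h.mem)) (S.smul_mem _ hz)
  have e : x + l • (-(l⁻¹ • x) + l⁻¹ • z) = z := by
    rw [smul_add, smul_neg, smul_smul, smul_smul, mul_inv_cancel₀ h.pos.ne', one_smul,
      one_smul, add_neg_cancel_left]
  have hi := h.iff _ hw
  rw [e] at hi
  exact hi.symm

theorem GHom.mono {S T : Submodule ℝ E} {D₁ D₂ : Set E} {x : E} {l : ℝ}
    (h : GHom K L S D₁ D₂ x l) (hT : T ≤ S) (hx : x ∈ T) :
    GHom K L T (D₁ ∩ (T : Set E)) (D₂ ∩ (T : Set E)) x l := by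
  refine ⟨hx, h.pos, fun z hz => ⟨(h.sub₁ hz.1).1, hz.2⟩, fun z hz => ⟨(h.sub₂ hz.1).1, hz.2⟩,
    fun z hz t ht => ⟨h.cone₁ z hz.1 t ht, T.smul_mem _ hz.2⟩,
    fun z hz t ht => ⟨h.cone₂ z hz.1 t ht, T.smul_mem _ hz.2⟩, fun z hz => ?_⟩
  have hw : x + l • z ∈ T := T.add_mem hx (T.smul_mem _ hz)
  have hi := h.iff z (hT hz)
  constructor
  · rintro (h0 | h0)
    · exact (hi.1 (Or.inl h0)).imp id fun h1 => ⟨h1.1, h1.2, hz⟩
    · exact (hi.1 (Or.inr ⟨h0.1, h0.2.1⟩)).imp id fun h1 => ⟨h1.1, h1.2, hz⟩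
  · rintro (h0 | h0)
    · exact (hi.2 (Or.inl h0)).imp id fun h1 => ⟨h1.1, h1.2, hw⟩
    · exact (hi.2 (Or.inr ⟨h0.1, h0.2.1⟩)).imp id fun h1 => ⟨h1.1, h1.2, hw⟩

theorem GHom.x_mem {S : Submodule ℝ E} {D₁ D₂ : Set E} {x : E} {l : ℝ}
    (h : GHom K L S D₁ D₂ x l) (hx : x ≠ 0) : x ∈ K ∧ x ∈ D₁ := by
  have hi := (h.iff 0 S.zero_mem).2 (Or.inl rfl)
  rw [smul_zero, add_zero] at hi
  exact hi.resolve_left hx

theorem GHom.neg_mem {S : Submodule ℝ E} {D₁ D₂ : Set E} {x : E} {l : ℝ}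
    (h : GHom K L S D₁ D₂ x l) (hx : x ≠ 0) : -(l⁻¹ • x) ∈ L ∧ -x ∈ D₂ := by
  have hl := h.pos
  have h1 := h.symm.x_mem (x := -(l⁻¹ • x)) (neg_ne_zero.2 (smul_ne_zero (inv_pos.2 hl).ne' hx))
  refine ⟨h1.1, ?_⟩
  have h2 := h.cone₂ _ h1.2 l hl
  rwa [smul_neg, smul_smul, mul_inv_cancel₀ hl.ne', one_smul] at h2

/-- Cones may be rescaled. -/
theorem GHom.smul_mem₁ {S : Submodule ℝ E} {D₁ D₂ : Set E} {x : E} {l : ℝ}
    (h : GHom K L S D₁ D₂ x l) {z : E} {t : ℝ} (ht : 0 < t) : t • z ∈ D₁ ↔ z ∈ D₁ := by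
  refine ⟨fun h1 => ?_, fun h1 => h.cone₁ z h1 t ht⟩
  have h2 := h.cone₁ _ h1 t⁻¹ (inv_pos.2 ht)
  rwa [smul_smul, inv_mul_cancel₀ ht.ne', one_smul] at h2

/-- Cones may be rescaled. -/
theorem GHom.smul_mem₂ {S : Submodule ℝ E} {D₁ D₂ : Set E} {x : E} {l : ℝ}
    (h : GHom K L S D₁ D₂ x l) {z : E} {t : ℝ} (ht : 0 < t) : t • z ∈ D₂ ↔ z ∈ D₂ := by
  refine ⟨fun h1 => ?_, fun h1 => h.cone₂ z h1 t ht⟩
  have h2 := h.cone₂ _ h1 t⁻¹ (inv_pos.2 ht)
  rwa [smul_smul, inv_mul_cancel₀ ht.ne', one_smul] at h2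

/-- F1 for `K`. -/
theorem GHom.add_mem {S : Submodule ℝ E} {D₁ D₂ : Set E} {x : E} {l : ℝ}
    (hK : StarB K) (hL : StarB L) (h : GHom K L S D₁ D₂ x l)
    {u : E} (hu : u ∈ D₁) {t : ℝ} (ht : 0 ≤ t) (hne : u + t • x ≠ 0) : u + t • x ∈ D₁ := by
  have hl := h.pos
  obtain ⟨⟨hu0, ε, hε, huK⟩, huS⟩ := h.sub₁ hu
  have hz : l⁻¹ • (ε • u - x) ∈ S := S.smul_mem _ (S.sub_mem (S.smul_mem _ huS) h.mem)
  have e1 : x + l • l⁻¹ • (ε • u - x) = ε • u := by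
    rw [smul_smul, mul_inv_cancel₀ hl.ne', one_smul, add_sub_cancel]
  have h1 : l⁻¹ • (ε • u - x) = 0 ∨ (l⁻¹ • (ε • u - x) ∈ L ∧ l⁻¹ • (ε • u - x) ∈ D₂) := by
    apply (h.iff _ hz).1
    rw [e1]
    exact Or.inr ⟨huK, h.cone₁ u hu ε hε⟩
  set s : ℝ := 1 / (1 + t * ε) with hs
  have hs0 : 0 < s := by positivity
  have hs1 : s ≤ 1 := by
    rw [hs, div_le_one (by positivity)]
    nlinarith [mul_nonneg ht hε.le]
  have h2 : s • (l⁻¹ • (ε • u - x)) = 0 ∨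
      (s • (l⁻¹ • (ε • u - x)) ∈ L ∧ s • (l⁻¹ • (ε • u - x)) ∈ D₂) := by
    rcases h1 with h1 | h1
    · left; rw [h1, smul_zero]
    · exact Or.inr ⟨hL.star _ h1.1 s hs0.le hs1, h.cone₂ _ h1.2 s hs0⟩
  have h3 := (h.iff _ (S.smul_mem s hz)).2 h2
  have e2 : x + l • s • l⁻¹ • (ε • u - x) = (s * ε) • (u + t • x) := by
    have e3 : l * (s * l⁻¹) = s := by field_simp
    have e4 : s * ε * t = 1 - s := by
      rw [hs]; field_simp; ring
    rw [smul_smul, smul_smul, mul_assoc, e3, smul_sub, smul_add, smul_smul, smul_smul, e4,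
      sub_smul, one_smul]
    abel
  rw [e2] at h3
  have hse : 0 < s * ε := by positivity
  rcases h3 with h3 | h3
  · exact absurd h3 (smul_ne_zero hse.ne' hne)
  · exact (h.smul_mem₁ hse).1 h3.2

/-- F1 for `L`. -/
theorem GHom.sub_mem {S : Submodule ℝ E} {D₁ D₂ : Set E} {x : E} {l : ℝ}
    (hK : StarB K) (hL : StarB L) (h : GHom K L S D₁ D₂ x l)
    {u : E} (hu : u ∈ D₂) {t : ℝ} (ht : 0 ≤ t) (hne : u - t • x ≠ 0) : u - t • x ∈ D₂ := by
  have hl := h.pos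
  have e : u + (l * t) • (-(l⁻¹ • x)) = u - t • x := by
    rw [smul_neg, smul_smul, mul_comm l t, mul_assoc, mul_inv_cancel₀ hl.ne', mul_one,
      ← sub_eq_add_neg]
  have h1 := h.symm.add_mem hL hK hu (t := l * t) (by positivity) (by rw [e]; exact hne)
  rwa [e] at h1

theorem GHom.ne_zero {S : Submodule ℝ E} {D₁ D₂ : Set E} {x : E} {l : ℝ}
    (hK : StarB K) (hL : StarB L) (h : GHom K L S D₁ D₂ x l) {q : E} (hq : q ∈ D₂) (hq' : q ∉ D₁) :
    x ≠ 0 := by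
  rintro rfl
  have hl := h.pos
  obtain ⟨⟨hq0, ε, hε, hqL⟩, hqS⟩ := h.sub₂ hq
  have h1 := (h.iff _ (S.smul_mem ε hqS)).2 (Or.inr ⟨hqL, h.cone₂ _ hq ε hε⟩)
  rw [zero_add, smul_smul] at h1
  have hle : 0 < l * ε := by positivity
  rcases h1 with h1 | h1
  · exact absurd h1 (smul_ne_zero hle.ne' hq0)
  · exact hq' ((h.smul_mem₁ hle).1 h1.2)

/-- F2. -/
theorem GHom.neg_notMem {S : Submodule ℝ E} {D₁ D₂ : Set E} {x : E} {l : ℝ}
    (hK : StarB K) (hL : StarB L) (h : GHom K L S D₁ D₂ x l) {q : E} (hq : q ∈ D₂) (hq' : q ∉ D₁) :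
    -x ∉ D₁ := by
  intro hneg
  have hl := h.pos
  have hx : x ≠ 0 := h.ne_zero hK hL hq hq'
  have hxD : x ∈ D₁ := (h.x_mem hx).2
  have hnD2 : -x ∈ D₂ := (h.neg_mem hx).2
  have hqS : q ∈ S := (h.sub₂ hq).2
  have hq0 : q ≠ 0 := (h.sub₂ hq).1.1
  -- `q` is not parallel to `x`
  have hpar : ∀ c d : ℝ, c • x + d • q = 0 → d = 0 := by
    intro c d hcd
    by_contra hd
    have hqe : q = (-(c / d)) • x := by
      have h1 : d • q = (-c) • x := by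
        rw [neg_smul]
        exact eq_neg_of_add_eq_zero_right hcd
      have h2 : q = d⁻¹ • (d • q) := by rw [smul_smul, inv_mul_cancel₀ hd, one_smul]
      rw [h2, h1, smul_smul]
      congr 1
      field_simp
    rcases lt_trichotomy (-(c / d)) 0 with hc | hc | hc
    · apply hq'
      rw [hqe]
      have := h.cone₁ _ hneg (-(-(c / d))) (by linarith)
      rwa [smul_neg, neg_smul, neg_neg] at this
    · rw [hc, zero_smul] at hqe
      exact hq0 hqe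
    · apply hq'
      rw [hqe]
      exact h.cone₁ _ hxD _ hc
  obtain ⟨⟨-, ε, hε, hnK⟩, -⟩ := h.sub₁ hneg
  -- `rad L (-x) ≥ (1 + ε) / l`
  have hr : (1 + ε) / l ≤ rad L (-x) := by
    rw [← hL.smul_mem (neg_ne_zero.2 hx) (by positivity)]
    have hz : ((1 + ε) / l) • (-x) ∈ S := S.smul_mem _ (S.neg_mem h.mem)
    have e : x + l • ((1 + ε) / l) • (-x) = ε • (-x) := by
      rw [smul_smul, mul_div_cancel₀ _ hl.ne']
      module
    have h1 := (h.iff _ hz).1 (by rw [e]; exact Or.inr ⟨hnK, h.cone₁ _ hneg ε hε⟩)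
    rcases h1 with h1 | h1
    · exact absurd h1 (smul_ne_zero (by positivity) (neg_ne_zero.2 hx))
    · exact h1.1
  -- the vectors `u_d`
  have hud : ∀ d : ℝ, 0 < d → -x + d • q ∈ D₂ := by
    intro d hd
    have e : -x + d • q = d • (q - d⁻¹ • x) := by
      rw [smul_sub, smul_smul, mul_inv_cancel₀ hd.ne', one_smul]
      abel
    rw [e]
    apply h.cone₂ _ _ d hd
    apply h.sub_mem hK hL hq (by positivity)
    intro h0
    have := hpar (-d⁻¹) 1 (by rw [← h0]; module)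
    exact one_ne_zero this
  have hlim : Tendsto (fun d : ℝ => -x + d • q) (𝓝[>] 0) (𝓝 (-x)) := by
    have h1 : Tendsto (fun d : ℝ => -x + d • q) (𝓝 0) (𝓝 (-x + (0 : ℝ) • q)) :=
      (by fun_prop : Continuous fun d : ℝ => -x + d • q).tendsto 0
    rw [zero_smul, add_zero] at h1
    exact h1.mono_left nhdsWithin_le_nhds
  have hlimr : Tendsto (fun d : ℝ => rad L (-x + d • q)) (𝓝[>] 0) (𝓝 (rad L (-x))) := by
    apply hL.tendsto_rad _ (h.sub₂ hnD2).1 hlim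
    filter_upwards [self_mem_nhdsWithin] with d hd
    exact (h.sub₂ (hud d hd)).1
  have hlt : (1 + ε / 2) / l < rad L (-x) := by
    refine lt_of_lt_of_le ?_ hr
    apply div_lt_div_of_pos_right _ hl
    linarith
  obtain ⟨d, hd1, hd0⟩ := ((hlimr.eventually (lt_mem_nhds hlt)).and self_mem_nhdsWithin).exists
  have hd0 : 0 < d := hd0
  have hmem := hud d hd0
  have hmemS := (h.sub₂ hmem).2
  have hc : 0 < (1 + ε / 2) / l := by positivity
  have h1 := (h.iff _ (S.smul_mem ((1 + ε / 2) / l) hmemS)).2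
    (Or.inr ⟨(hL.smul_mem (h.sub₂ hmem).1.1 hc.le).2 hd1.le, h.cone₂ _ hmem _ hc⟩)
  have e : x + l • ((1 + ε / 2) / l) • (-x + d • q) =
      (-(ε / 2)) • x + ((1 + ε / 2) * d) • q := by
    rw [smul_smul, mul_div_cancel₀ _ hl.ne']
    module
  rw [e] at h1
  have hpos : 0 < (1 + ε / 2) * d := by positivity
  rcases h1 with h1 | h1
  · exact absurd (hpar _ _ h1) hpos.ne'
  · have h2 := h.add_mem hK hL h1.2 (t := ε / 2) (by positivity)
    have e2 : (-(ε / 2)) • x + ((1 + ε / 2) * d) • q + (ε / 2) • x = ((1 + ε / 2) * d) • q := by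
      module
    rw [e2] at h2
    exact hq' ((h.smul_mem₁ hpos).1 (h2 (smul_ne_zero hpos.ne' hq0)))

/-- If `-x` is not a direction of `K₁` then `-x / l` is the top of `L` in this direction. -/
theorem GHom.rad_neg {S : Submodule ℝ E} {D₁ D₂ : Set E} {x : E} {l : ℝ}
    (hK : StarB K) (hL : StarB L) (h : GHom K L S D₁ D₂ x l) (hx : x ≠ 0) (hx' : -x ∉ D₁) :
    rad L (-x) = l⁻¹ := by
  have hl := h.pos
  have h1 := h.neg_mem hx
  apply le_antisymm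
  · by_contra hlt
    push Not at hlt
    set t := rad L (-x) with ht
    have ht0 : 0 < t := lt_trans (inv_pos.2 hl) hlt
    have htL : t • (-x) ∈ L := (hL.smul_mem (neg_ne_zero.2 hx) ht0.le).2 le_rfl
    have h2 := (h.iff _ (S.smul_mem t (S.neg_mem h.mem))).2 (Or.inr ⟨htL, h.cone₂ _ h1.2 t ht0⟩)
    have e : x + l • t • (-x) = (l * t - 1) • (-x) := by
      rw [smul_smul]
      module
    rw [e] at h2
    have hpos : 0 < l * t - 1 := by
      have := mul_lt_mul_of_pos_left hlt hl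
      rw [mul_inv_cancel₀ hl.ne'] at this
      linarith
    rcases h2 with h2 | h2
    · exact absurd h2 (smul_ne_zero hpos.ne' (neg_ne_zero.2 hx))
    · exact hx' ((h.smul_mem₁ hpos).1 h2.2)
  · rw [← hL.smul_mem (neg_ne_zero.2 hx) (inv_pos.2 hl).le, smul_neg]
    exact h1.1

/-- An affine map with ratio at least one preserving a bounded set with two points is the
identity. -/
theorem affine_aux {M : Set E} {R : ℝ} (hM : ∀ z ∈ M, ‖z‖ ≤ R) {v : E} {c : ℝ} (hc : 1 ≤ c)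
    (hg : ∀ z ∈ M, v + c • z ∈ M) {p q : E} (hp : p ∈ M) (hq : q ∈ M) (hpq : p ≠ q) :
    v = 0 ∧ c = 1 := by
  have hc1 : c = 1 := by
    by_contra hne
    have hlt : 1 < c := lt_of_le_of_ne hc (Ne.symm hne)
    have hind : ∀ n : ℕ, ∃ a ∈ M, ∃ b ∈ M, a - b = c ^ n • (p - q) := by
      intro n
      induction n with
      | zero => exact ⟨p, hp, q, hq, by simp⟩
      | succ n ih =>
        obtain ⟨a, ha, b, hb, hab⟩ := ih
        refine ⟨v + c • a, hg a ha, v + c • b, hg b hb, ?_⟩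
        rw [add_sub_add_left_eq_sub, ← smul_sub, hab, smul_smul, pow_succ, mul_comm]
    have hd : 0 < ‖p - q‖ := norm_pos_iff.2 (sub_ne_zero.2 hpq)
    obtain ⟨n, hn⟩ := pow_unbounded_of_one_lt (2 * R / ‖p - q‖) hlt
    obtain ⟨a, ha, b, hb, hab⟩ := hind n
    have h1 : ‖a - b‖ ≤ 2 * R := by
      calc ‖a - b‖ ≤ ‖a‖ + ‖b‖ := norm_sub_le a b
        _ ≤ R + R := add_le_add (hM a ha) (hM b hb)
        _ = 2 * R := by ring
    rw [hab, norm_smul, norm_pow, Real.norm_of_nonneg (by linarith)] at h1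
    rw [div_lt_iff₀ hd] at hn
    linarith
  refine ⟨?_, hc1⟩
  subst hc1
  by_contra hv
  have hind : ∀ n : ℕ, p + (n : ℝ) • v ∈ M := by
    intro n
    induction n with
    | zero => simpa using hp
    | succ n ih =>
      have h1 := hg _ ih
      have e : v + (1 : ℝ) • (p + (n : ℝ) • v) = p + ((n + 1 : ℕ) : ℝ) • v := by
        push_cast
        module
      rwa [e] at h1
  have hv' : 0 < ‖v‖ := norm_pos_iff.2 hv
  obtain ⟨n, hn⟩ := exists_nat_gt (2 * R / ‖v‖)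
  have h1 : ‖(n : ℝ) • v‖ ≤ 2 * R := by
    calc ‖(n : ℝ) • v‖ = ‖(p + (n : ℝ) • v) - p‖ := by rw [add_sub_cancel_left]
      _ ≤ ‖p + (n : ℝ) • v‖ + ‖p‖ := norm_sub_le _ _
      _ ≤ R + R := add_le_add (hM _ (hind n)) (hM p hp)
      _ = 2 * R := by ring
  rw [norm_smul, Real.norm_natCast] at h1
  rw [div_lt_iff₀ hv'] at hn
  linarith

theorem GHom.unique_aux {S : Submodule ℝ E} {D₁ D₂ : Set E} {x x' : E} {l l' : ℝ}
    (hK : StarB K) (hL : StarB L) (h : GHom K L S D₁ D₂ x l) (h' : GHom K L S D₁ D₂ x' l')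
    (hne : D₁.Nonempty ∨ D₂.Nonempty) (hll : l ≤ l') : x = x' ∧ l = l' := by
  have hl := h.pos
  have hl' := h'.pos
  obtain ⟨R, hR, hRL⟩ := hL.bounded
  -- the part of `L`
  set M : Set E := {z | z ∈ S ∧ (z = 0 ∨ (z ∈ L ∧ z ∈ D₂))} with hMdef
  have hM : ∀ z ∈ M, ‖z‖ ≤ R := by
    rintro z ⟨-, hz | hz⟩
    · rw [hz, norm_zero]; exact hR.le
    · exact hRL z hz.1
  have hg : ∀ z ∈ M, l⁻¹ • (x' - x) + (l' / l) • z ∈ M := by
    rintro z ⟨hzS, hz⟩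
    have hwS : l⁻¹ • (x' - x) + (l' / l) • z ∈ S :=
      S.add_mem (S.smul_mem _ (S.sub_mem h'.mem h.mem)) (S.smul_mem _ hzS)
    refine ⟨hwS, ?_⟩
    apply (h.iff _ hwS).1
    have e : x + l • (l⁻¹ • (x' - x) + (l' / l) • z) = x' + l' • z := by
      rw [smul_add, smul_smul, smul_smul, mul_inv_cancel₀ hl.ne', mul_div_cancel₀ _ hl.ne',
        one_smul]
      abel
    rw [e]
    exact (h'.iff z hzS).2 hz
  have h0 : (0 : E) ∈ M := ⟨S.zero_mem, Or.inl rfl⟩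
  -- a second point
  have hsec : ∃ p ∈ M, ∃ q ∈ M, p ≠ q := by
    rcases hne with ⟨u, hu⟩ | ⟨u, hu⟩
    · obtain ⟨⟨hu0, ε, hε, huK⟩, huS⟩ := h.sub₁ hu
      have m1 : ∀ w, (w = 0 ∨ (w ∈ K ∧ w ∈ D₁)) → w ∈ S → l⁻¹ • (w - x) ∈ M := by
        intro w hw hwS
        have hzS : l⁻¹ • (w - x) ∈ S := S.smul_mem _ (S.sub_mem hwS h.mem)
        refine ⟨hzS, (h.iff _ hzS).1 ?_⟩
        rw [smul_smul, mul_inv_cancel₀ hl.ne', one_smul, add_sub_cancel]
        exact hw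
      refine ⟨_, m1 0 (Or.inl rfl) S.zero_mem, _,
        m1 (ε • u) (Or.inr ⟨huK, h.cone₁ u hu ε hε⟩) (S.smul_mem _ huS), ?_⟩
      intro heq
      have h1 := smul_right_injective E (inv_pos.2 hl).ne' heq
      have h2 : (0 : E) = ε • u := sub_left_injective h1
      exact smul_ne_zero hε.ne' hu0 h2.symm
    · obtain ⟨⟨hu0, ε, hε, huL⟩, huS⟩ := h.sub₂ hu
      exact ⟨0, h0, ε • u, ⟨S.smul_mem _ huS, Or.inr ⟨huL, h.cone₂ u hu ε hε⟩⟩,
        (smul_ne_zero hε.ne' hu0).symm⟩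
  obtain ⟨p, hp, q, hq, hpq⟩ := hsec
  obtain ⟨h1, h2⟩ := affine_aux hM ((one_le_div hl).2 hll) hg hp hq hpq
  refine ⟨?_, ?_⟩
  · have h3 := (smul_eq_zero.1 h1).resolve_left (inv_pos.2 hl).ne'
    exact (sub_eq_zero.1 h3).symm
  · rw [div_eq_one_iff_eq hl.ne'] at h2
    exact h2.symm

theorem GHom.unique {S : Submodule ℝ E} {D₁ D₂ : Set E} {x x' : E} {l l' : ℝ}
    (hK : StarB K) (hL : StarB L) (h : GHom K L S D₁ D₂ x l) (h' : GHom K L S D₁ D₂ x' l')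
    (hne : D₁.Nonempty ∨ D₂.Nonempty) : x = x' ∧ l = l' := by
  rcases le_total l l' with hll | hll
  · exact h.unique_aux hK hL h' hne hll
  · have := h'.unique_aux hK hL h hne hll
    exact ⟨this.1.symm, this.2.symm⟩

theorem Hom.unique {S : Submodule ℝ E} {x x' : E} {l l' : ℝ}
    (hK : StarB K) (hL : StarB L) (h : Hom K L S x l) (h' : Hom K L S x' l')
    (hne : (Dir K ∩ (S : Set E)).Nonempty ∨ (Dir L ∩ (S : Set E)).Nonempty) :
    x = x' ∧ l = l' :=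
  (h.gHom hK hL).unique hK hL (h'.gHom hK hL) hne

theorem ctr_spec {S : Submodule ℝ E} (h : ∃ (x : E) (l : ℝ), Hom K L S x l) :
    Hom K L S (ctr K L S) (rat K L S) := by
  have h' : ∃ p : E × ℝ, Hom K L S p.1 p.2 := by
    obtain ⟨x, l, h⟩ := h
    exact ⟨(x, l), h⟩
  unfold ctr rat
  rw [dif_pos h', dif_pos h']
  exact h'.choose_spec

end Pool.Agent.H63.SB
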