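import Pool.Agent.H63.SB.T2

/-!
# Toolkit T3: convergence of subspaces and limits of homotheties
-/

namespace Pool.Agent.H63.SB

open Set Filter Topology
open scoped RealInnerProductSpace

variable {E : Type*} [NormedAddCommGroup E] [InnerProductSpace ℝ E]
variable {K L : Set E}

theorem pconv_const {S : Submodule ℝ E} [FiniteDimensional ℝ E] : PConv (fun _ => S) S := by
  refine ⟨fun v hv => ⟨fun _ => v, fun _ => hv, tendsto_const_nhds⟩, fun v hv => ?_⟩
  have h1 : v ∈ closure (S : Set E) := by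
    rw [Metric.mem_closure_iff]
    intro ε hε
    obtain ⟨n, z, hz, hz'⟩ := (hv ε hε).exists
    exact ⟨z, hz, by rw [dist_comm]; exact hz'⟩
  rwa [(Submodule.closed_of_finiteDimensional S).closure_eq] at h1

theorem PConv.comp {S : ℕ → Submodule ℝ E} {T : Submodule ℝ E} (h : PConv S T) {φ : ℕ → ℕ}
    (hφ : StrictMono φ) : PConv (S ∘ φ) T := by
  refine ⟨fun v hv => ?_, fun v hv => ?_⟩
  · obtain ⟨u, hu, hu'⟩ := h.1 v hv
    exact ⟨u ∘ φ, fun n => hu _, hu'.comp hφ.tendsto_atTop⟩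
  · refine h.2 v fun ε hε => ?_
    exact hφ.tendsto_atTop.frequently (hv ε hε)

/-- Ranges of converging injective linear maps converge. -/
theorem pconv_range {V : Type*} [NormedAddCommGroup V] [NormedSpace ℝ V] [FiniteDimensional ℝ V]
    {Φ : ℕ → V →L[ℝ] E} {Φ₀ : V →L[ℝ] E} (h : Tendsto Φ atTop (𝓝 Φ₀))
    (hi : Function.Injective Φ₀) :
    PConv (fun n => LinearMap.range (Φ n : V →ₗ[ℝ] E)) (LinearMap.range (Φ₀ : V →ₗ[ℝ] E)) := by
  refine ⟨?_, ?_⟩
  · rintro v ⟨c, rfl⟩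
    refine ⟨fun n => Φ n c, fun n => ⟨c, rfl⟩, ?_⟩
    exact ((ContinuousLinearMap.apply ℝ E c).continuous.tendsto Φ₀).comp h
  · intro v hv
    obtain ⟨k, hk0, hk⟩ := (Φ₀ : V →ₗ[ℝ] E).exists_antilipschitzWith
      (LinearMap.ker_eq_bot.2 hi)
    have hlow : ∀ c : V, ‖c‖ ≤ k * ‖Φ₀ c‖ := fun c => by
      have := hk.le_mul_dist c 0
      simpa [dist_eq_norm] using this
    have hkpos : (0 : ℝ) < k := by exact_mod_cast hk0
    have hcl : IsClosed ((LinearMap.range (Φ₀ : V →ₗ[ℝ] E) : Submodule ℝ E) : Set E) :=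
      Submodule.closed_of_finiteDimensional _
    have h1 : v ∈ closure ((LinearMap.range (Φ₀ : V →ₗ[ℝ] E) : Submodule ℝ E) : Set E) := by
      rw [Metric.mem_closure_iff]
      intro ε hε
      set C : ℝ := 2 * (k : ℝ) * (‖v‖ + 1) + 1 with hC
      have hCpos : 0 < C := by positivity
      have e1 : ∀ᶠ n in atTop, ‖Φ n - Φ₀‖ < min (1 / (2 * (k : ℝ))) (ε / (2 * C)) := by
        have := (tendsto_iff_norm_sub_tendsto_zero.1 h)
        exact this.eventually (gt_mem_nhds (lt_min (by positivity) (by positivity)))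
      obtain ⟨n, ⟨z, ⟨c, hc⟩, hz⟩, hn⟩ := ((hv (min 1 (ε / 2))
        (lt_min one_pos (by positivity))).and_eventually e1).exists
      have hzv : ‖z - v‖ < min 1 (ε / 2) := by rwa [← dist_eq_norm]
      have hn1 : ‖Φ n - Φ₀‖ < 1 / (2 * (k : ℝ)) := lt_of_lt_of_le hn (min_le_left _ _)
      have hn2 : ‖Φ n - Φ₀‖ < ε / (2 * C) := lt_of_lt_of_le hn (min_le_right _ _)
      have hc' : Φ n c = z := hc
      have hd : ‖Φ n c - Φ₀ c‖ ≤ ‖Φ n - Φ₀‖ * ‖c‖ := by
        rw [← ContinuousLinearMap.sub_apply]; exact ContinuousLinearMap.le_opNorm _ _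
      have hcn : ‖c‖ ≤ C := by
        have h2 : ‖Φ₀ c‖ ≤ ‖z‖ + ‖Φ n - Φ₀‖ * ‖c‖ := by
          have : ‖Φ₀ c‖ ≤ ‖Φ n c‖ + ‖Φ n c - Φ₀ c‖ := by
            have := norm_sub_le (Φ n c) (Φ n c - Φ₀ c)
            simpa using this
          rw [hc'] at this hd
          linarith
        have h3 : ‖z‖ ≤ ‖v‖ + 1 := by
          have := norm_sub_norm_le z v
          have := lt_of_lt_of_le hzv (min_le_left _ _)
          linarith
        have h4 : ‖c‖ ≤ (k : ℝ) * (‖v‖ + 1 + 1 / (2 * (k : ℝ)) * ‖c‖) := by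
          refine (hlow c).trans (mul_le_mul_of_nonneg_left ?_ hkpos.le)
          have := mul_le_mul_of_nonneg_right hn1.le (norm_nonneg c)
          linarith
        have h5 : (k : ℝ) * (1 / (2 * k) * ‖c‖) = ‖c‖ / 2 := by field_simp
        rw [mul_add, h5] at h4
        rw [hC]; nlinarith
      refine ⟨Φ₀ c, ⟨c, rfl⟩, ?_⟩
      have h6 : ‖Φ n c - Φ₀ c‖ ≤ ε / 2 := by
        refine hd.trans ((mul_le_mul hn2.le hcn (norm_nonneg _) (by positivity)).trans_eq ?_)
        field_simp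
      have h7 : ‖z - v‖ < ε / 2 := lt_of_lt_of_le hzv (min_le_right _ _)
      rw [dist_eq_norm]
      calc ‖v - Φ₀ c‖ = ‖(Φ n c - Φ₀ c) - (z - v)‖ := by rw [hc']; congr 1; abel
        _ ≤ ‖Φ n c - Φ₀ c‖ + ‖z - v‖ := norm_sub_le _ _
        _ < ε := by linarith
    rwa [hcl.closure_eq] at h1

/-- The linear map of a frame. -/
noncomputable def frameMap {j : ℕ} (b : Fin j → E) : (Fin j → ℝ) →L[ℝ] E :=
  ∑ i, (ContinuousLinearMap.proj (R := ℝ) (φ := fun _ : Fin j => ℝ) i).smulRight (b i)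

theorem frameMap_apply {j : ℕ} (b : Fin j → E) (c : Fin j → ℝ) :
    frameMap b c = ∑ i, c i • b i := by
  simp [frameMap, ContinuousLinearMap.sum_apply]

theorem range_frameMap {j : ℕ} (b : Fin j → E) :
    LinearMap.range (frameMap b : (Fin j → ℝ) →ₗ[ℝ] E) = Submodule.span ℝ (range b) := by
  ext v
  rw [Submodule.mem_span_range_iff_exists_fun]
  constructor
  · rintro ⟨c, rfl⟩
    exact ⟨c, (frameMap_apply b c).symm⟩
  · rintro ⟨c, rfl⟩
    exact ⟨c, frameMap_apply b c⟩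

theorem pconv_span {j : ℕ} {b : ℕ → Fin j → E} {b₀ : Fin j → E} (hb : Tendsto b atTop (𝓝 b₀))
    (hli : LinearIndependent ℝ b₀) :
    PConv (fun n => Submodule.span ℝ (range (b n))) (Submodule.span ℝ (range b₀)) := by
  have hc : Continuous (fun b : Fin j → E => frameMap b) := by
    unfold frameMap
    refine continuous_finset_sum _ fun i _ => ?_
    exact (ContinuousLinearMap.smulRightL ℝ (Fin j → ℝ) E
      (ContinuousLinearMap.proj (R := ℝ) (φ := fun _ : Fin j => ℝ) i)).continuous.comp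
      (continuous_apply i)
  have hinj : Function.Injective (frameMap b₀) := by
    rw [injective_iff_map_eq_zero]
    intro c hc
    rw [frameMap_apply] at hc
    exact funext (Fintype.linearIndependent_iff.1 hli c hc)
  have := pconv_range ((hc.tendsto b₀).comp hb) hinj
  simpa only [range_frameMap, Function.comp] using this

theorem range_pair (a b : E) : range ![a, b] = {a, b} := by
  rw [Matrix.range_cons, Matrix.range_cons, Matrix.range_empty, union_empty]; rfl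

theorem pconv_pair {a b : ℕ → E} {a₀ b₀ : E} (ha : Tendsto a atTop (𝓝 a₀))
    (hb : Tendsto b atTop (𝓝 b₀)) (hli : LinearIndependent ℝ ![a₀, b₀]) :
    PConv (fun n => Submodule.span ℝ {a n, b n}) (Submodule.span ℝ {a₀, b₀}) := by
  have h : Tendsto (fun n => ![a n, b n]) atTop (𝓝 ![a₀, b₀]) := by
    rw [tendsto_pi_nhds]
    intro i
    fin_cases i
    · simpa using ha
    · simpa using hb
  have := pconv_span h hli
  simpa only [range_pair] using this

theorem pconv_sup [FiniteDimensional ℝ E] {W : Submodule ℝ E} {v : ℕ → E} {v₀ : E}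
    (hv : Tendsto v atTop (𝓝 v₀)) (h0 : v₀ ∉ W) :
    PConv (fun n => W ⊔ Submodule.span ℝ {v n}) (W ⊔ Submodule.span ℝ {v₀}) := by
  set Φ : E → (W × ℝ) →L[ℝ] E := fun v =>
    W.subtypeL.coprod (ContinuousLinearMap.toSpanSingleton ℝ v) with hΦ
  have hr : ∀ v, LinearMap.range (Φ v : (W × ℝ) →ₗ[ℝ] E) = W ⊔ Submodule.span ℝ {v} := by
    intro v
    ext z
    rw [Submodule.mem_sup]
    constructor
    · rintro ⟨⟨w, t⟩, rfl⟩
      exact ⟨w, w.2, t • v, Submodule.smul_mem _ _ (Submodule.mem_span_singleton_self v), by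
        simp [hΦ]⟩
    · rintro ⟨w, hw, y, hy, rfl⟩
      obtain ⟨t, rfl⟩ := Submodule.mem_span_singleton.1 hy
      exact ⟨(⟨w, hw⟩, t), by simp [hΦ]⟩
  have hc : Continuous Φ := by
    have : Φ = fun v => W.subtypeL.comp (ContinuousLinearMap.fst ℝ W ℝ) +
        (ContinuousLinearMap.smulRightL ℝ (W × ℝ) E (ContinuousLinearMap.snd ℝ W ℝ)) v := by
      funext v
      ext z <;> simp [hΦ]
    rw [this]
    fun_prop
  have hinj : Function.Injective (Φ v₀) := by
    rw [injective_iff_map_eq_zero]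
    rintro ⟨w, t⟩ h
    have h1 : (w : E) + t • v₀ = 0 := by simpa [hΦ] using h
    have ht : t = 0 := by
      by_contra ht
      apply h0
      have : v₀ = -(t⁻¹ • (w : E)) := by
        have h2 : t • v₀ = -(w : E) := by rw [eq_neg_iff_add_eq_zero, add_comm]; exact h1
        rw [← smul_neg, ← h2, smul_smul, inv_mul_cancel₀ ht, one_smul]
      rw [this]
      exact W.neg_mem (W.smul_mem _ w.2)
    subst ht
    have : (w : E) = 0 := by simpa using h1
    ext <;> simp [this]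
  have := pconv_range ((hc.tendsto v₀).comp hv) hinj
  simpa only [hr, Function.comp] using this

theorem pconv_orth [FiniteDimensional ℝ E] {ν : ℕ → E} {ν₀ : E}
    (hν : Tendsto ν atTop (𝓝 ν₀)) (h0 : ν₀ ≠ 0) :
    PConv (fun n => (Submodule.span ℝ {ν n})ᗮ) (Submodule.span ℝ {ν₀})ᗮ := by
  refine ⟨?_, ?_⟩
  · intro v hv
    rw [Submodule.mem_orthogonal_singleton_iff_inner_right] at hv
    refine ⟨fun n => v - (⟪ν n, v⟫ / ⟪ν n, ν n⟫) • ν n, ?_, ?_⟩
    · intro n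
      rw [Submodule.mem_orthogonal_singleton_iff_inner_right, inner_sub_right, inner_smul_right]
      rcases eq_or_ne (ν n) 0 with h | h
      · simp [h]
      · rw [div_mul_cancel₀ _ (by simpa using h), sub_self]
    · have h1 : Tendsto (fun n => ⟪ν n, v⟫ / ⟪ν n, ν n⟫) atTop (𝓝 (⟪ν₀, v⟫ / ⟪ν₀, ν₀⟫)) :=
        (hν.inner tendsto_const_nhds).div (hν.inner hν) (by simpa using h0)
      rw [hv, zero_div] at h1
      have h2 := (h1.smul hν)
      rw [zero_smul] at h2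
      simpa using (tendsto_const_nhds (x := v)).sub h2
  · intro v hv
    rw [Submodule.mem_orthogonal_singleton_iff_inner_right]
    by_contra hne
    have hpos : 0 < |⟪ν₀, v⟫| := abs_pos.2 hne
    -- bound of the norms
    have e1 : ∀ᶠ n in atTop, ‖ν n‖ < ‖ν₀‖ + 1 :=
      (hν.norm).eventually (gt_mem_nhds (lt_add_one _))
    have e2 : ∀ᶠ n in atTop, |⟪ν₀, v⟫| / 2 < |⟪ν n, v⟫| :=
      ((hν.inner tendsto_const_nhds).abs).eventually (lt_mem_nhds (by linarith))
    set ε := |⟪ν₀, v⟫| / (2 * (‖ν₀‖ + 1)) with hε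
    have hεpos : 0 < ε := by positivity
    obtain ⟨n, ⟨z, hz, hz'⟩, h1, h2⟩ := ((hv ε hεpos).and_eventually (e1.and e2)).exists
    have hz0 : ⟪ν n, z⟫ = 0 := (Submodule.mem_orthogonal_singleton_iff_inner_right).1 hz
    have h3 : ⟪ν n, v⟫ = ⟪ν n, v - z⟫ := by rw [inner_sub_right, hz0, sub_zero]
    have h4 : |⟪ν n, v - z⟫| ≤ ‖ν n‖ * ‖v - z‖ := abs_real_inner_le_norm _ _
    have h5 : ‖v - z‖ < ε := by rw [← dist_eq_norm, dist_comm]; exact hz'
    have h6 : ‖ν n‖ * ‖v - z‖ ≤ (‖ν₀‖ + 1) * ε :=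
      mul_le_mul h1.le h5.le (norm_nonneg _) (by positivity)
    have h7 : (‖ν₀‖ + 1) * ε = |⟪ν₀, v⟫| / 2 := by rw [hε]; field_simp
    rw [h3] at h2
    linarith

/-- Every non-zero vector of a plane extends to a basis. -/
theorem exists_span_pair {S : Submodule ℝ E} (hS : Module.finrank ℝ S = 2) {q : E} (hq : q ∈ S)
    (h0 : q ≠ 0) : ∃ v ∈ S, LinearIndependent ℝ ![q, v] ∧ S = Submodule.span ℝ {q, v} := by
  have hfd : FiniteDimensional ℝ S := Module.finite_of_finrank_pos (by omega)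
  have hlt : Submodule.span ℝ {q} < S := by
    refine lt_of_le_of_ne ((Submodule.span_singleton_le_iff_mem _ _).2 hq) ?_
    intro h
    have := finrank_span_singleton (K := ℝ) h0
    rw [h, hS] at this
    omega
  obtain ⟨v, hvS, hv⟩ := SetLike.exists_of_lt hlt
  have hli : LinearIndependent ℝ ![q, v] := by
    rw [LinearIndependent.pair_iff' h0]
    intro a ha
    exact hv (ha ▸ Submodule.smul_mem _ _ (Submodule.mem_span_singleton_self q))
  refine ⟨v, hvS, hli, ?_⟩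
  have hle : Submodule.span ℝ {q, v} ≤ S := by
    rw [Submodule.span_le]
    rintro z (rfl | rfl)
    · exact hq
    · exact hvS
  refine (Submodule.eq_of_le_of_finrank_eq hle ?_).symm
  have := finrank_span_eq_card hli
  rw [range_pair] at this
  rw [this, hS]; rfl

theorem finrank_span_pair {a b : E} (hli : LinearIndependent ℝ ![a, b]) :
    Module.finrank ℝ (Submodule.span ℝ {a, b}) = 2 := by
  have := finrank_span_eq_card hli
  rw [range_pair] at this
  rw [this]; rfl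

theorem mem_Lim_of_tendsto {S : ℕ → Submodule ℝ E} {T : Submodule ℝ E} {v : E} (hv : v ∈ Dir K)
    (hT : v ∈ T) {u : ℕ → E} (hu : ∀ᶠ n in atTop, u n ∈ Dir K ∧ u n ∈ S n)
    (h : Tendsto u atTop (𝓝 v)) : v ∈ Lim K S T := by
  refine ⟨hv, hT, fun ε hε => ?_⟩
  filter_upwards [hu, h.eventually (Metric.ball_mem_nhds v hε)] with n h1 h2
  exact ⟨u n, ⟨h1.1, h1.2⟩, h2⟩

theorem exists_seq_of_mem_Lim {S : ℕ → Submodule ℝ E} {T : Submodule ℝ E} {v : E}
    (hv : v ∈ Lim K S T) : ∃ u : ℕ → E, (∀ᶠ n in atTop, u n ∈ Dir K ∧ u n ∈ S n) ∧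
      Tendsto u atTop (𝓝 v) := by
  classical
  set A : ℕ → Set E := fun n => Dir K ∩ (S n : Set E) with hA
  have hex : ∀ n, (A n).Nonempty → ∃ u ∈ A n, dist v u < Metric.infDist v (A n) + 1 / ((n : ℝ) + 1) :=
    fun n hn => (Metric.infDist_lt_iff hn).1 (lt_add_of_pos_right _ (by positivity))
  refine ⟨fun n => if h : (A n).Nonempty then (hex n h).choose else v, ?_, ?_⟩
  · filter_upwards [hv.2.2 1 one_pos] with n hn
    have hn' : (A n).Nonempty := hn.mono inter_subset_left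
    rw [dif_pos hn']
    exact (hex n hn').choose_spec.1
  · rw [Metric.tendsto_atTop']
    intro ε hε
    have e1 := hv.2.2 (ε / 2) (by positivity)
    have e2 : ∀ᶠ n : ℕ in atTop, 1 / ((n : ℝ) + 1) < ε / 2 :=
      (tendsto_one_div_add_atTop_nhds_zero_nat (𝕜 := ℝ)).eventually (gt_mem_nhds (by positivity))
    obtain ⟨N, hN⟩ := eventually_atTop.1 (e1.and e2)
    refine ⟨N, fun n hn => ?_⟩
    obtain ⟨⟨z, hz, hz'⟩, h2⟩ := hN n hn.le
    have hn' : (A n).Nonempty := ⟨z, hz⟩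
    have h3 := (hex n hn').choose_spec.2
    have h4 : Metric.infDist v (A n) ≤ dist v z := Metric.infDist_le_dist_of_mem hz
    have h5 : dist v z < ε / 2 := by rw [dist_comm]; exact hz'
    simp only [dif_pos hn']
    rw [dist_comm]
    linarith

theorem Lim_smul {S : ℕ → Submodule ℝ E} {T : Submodule ℝ E} {v : E}
    (hv : v ∈ Lim K S T) {t : ℝ} (ht : 0 < t) : t • v ∈ Lim K S T := by
  obtain ⟨u, hu, hu'⟩ := exists_seq_of_mem_Lim hv
  refine mem_Lim_of_tendsto ((smul_mem_Dir ht).2 hv.1) (T.smul_mem _ hv.2.1)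
    (u := fun n => t • u n) ?_ (hu'.const_smul t)
  filter_upwards [hu] with n hn
  exact ⟨(smul_mem_Dir ht).2 hn.1, (S n).smul_mem _ hn.2⟩

theorem Lim_sub {S : ℕ → Submodule ℝ E} {T : Submodule ℝ E} : Lim K S T ⊆ Dir K ∩ (T : Set E) :=
  fun _ hv => ⟨hv.1, hv.2.1⟩

theorem Lim_closed {S : ℕ → Submodule ℝ E} {T : Submodule ℝ E} {v : E} (hv : v ∈ Dir K)
    (hT : v ∈ T) (h : v ∈ closure (Lim K S T)) : v ∈ Lim K S T := by
  refine ⟨hv, hT, fun ε hε => ?_⟩
  obtain ⟨w, hw, hwv⟩ := Metric.mem_closure_iff.1 h (ε / 2) (by positivity)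
  filter_upwards [hw.2.2 (ε / 2) (by positivity)] with n hn
  obtain ⟨z, hz, hz'⟩ := hn
  refine ⟨z, hz, ?_⟩
  rw [Metric.mem_ball] at hz' ⊢
  calc dist z v ≤ dist z w + dist w v := dist_triangle _ _ _
    _ < ε := by rw [dist_comm w v]; linarith

theorem interior_sub_Lim {S : ℕ → Submodule ℝ E} {T : Submodule ℝ E} (h : PConv S T) :
    interior (Dir K) ∩ (T : Set E) ⊆ Lim K S T := by
  rintro v ⟨hv, hT⟩
  obtain ⟨u, hu, hu'⟩ := h.1 v hT
  refine mem_Lim_of_tendsto (interior_subset hv) hT ?_ hu'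
  filter_upwards [hu'.eventually (isOpen_interior.mem_nhds hv)] with n hn
  exact ⟨interior_subset hn, hu n⟩

theorem Lim_of_reg {S : ℕ → Submodule ℝ E} {T : Submodule ℝ E} (h : PConv S T) (hr : Reg K T) :
    Dir K ∩ (T : Set E) ⊆ Lim K S T := by
  intro v hv
  exact Lim_closed hv.1 hv.2 (closure_mono (interior_sub_Lim h) (hr hv))

theorem Lim_comp {S : ℕ → Submodule ℝ E} {T : Submodule ℝ E} {φ : ℕ → ℕ}
    (hφ : StrictMono φ) : Lim K S T ⊆ Lim K (S ∘ φ) T := by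
  intro v hv
  exact ⟨hv.1, hv.2.1, fun ε hε => hφ.tendsto_atTop.eventually (hv.2.2 ε hε)⟩

theorem lim_forward (hK : StarB K) (hL : StarB L) {S : ℕ → Submodule ℝ E}
    {T : Submodule ℝ E} {x : ℕ → E} {l : ℕ → ℝ} {x' : E} {l' : ℝ}
    (h : ∀ᶠ n in atTop, Hom K L (S n) (x n) (l n)) (hx : Tendsto x atTop (𝓝 x'))
    (hl : Tendsto l atTop (𝓝 l')) (hx' : x' ∈ T) {z : E} (hz : z ∈ T)
    (hzL : z = 0 ∨ (z ∈ L ∧ z ∈ Lim L S T)) :
    x' + l' • z = 0 ∨ (x' + l' • z ∈ K ∧ x' + l' • z ∈ Lim K S T) := by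
  obtain ⟨v, hv1, hv2, hv3⟩ : ∃ v : ℕ → E, (∀ᶠ n in atTop, v n ∈ L ∧ v n ∈ S n) ∧
      Tendsto v atTop (𝓝 z) ∧ True := by
    rcases hzL with rfl | ⟨hzL, hzLim⟩
    · exact ⟨fun _ => 0, Eventually.of_forall fun n => ⟨hL.zero_mem, (S n).zero_mem⟩,
        tendsto_const_nhds, trivial⟩
    · obtain ⟨u, hu, hu'⟩ := exists_seq_of_mem_Lim hzLim
      have hr := hL.tendsto_rad (hu.mono fun n hn => hn.1) hzLim.1 hu'
      have h1 : 1 ≤ rad L z := (hL.mem_iff hzLim.1.1).1 hzL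
      have hm : Tendsto (fun n => min 1 (rad L (u n))) atTop (𝓝 1) := by
        have := (tendsto_const_nhds (x := (1 : ℝ)) (f := (atTop : Filter ℕ))).min hr
        rwa [min_eq_left h1] at this
      refine ⟨fun n => min 1 (rad L (u n)) • u n, ?_, ?_, trivial⟩
      · filter_upwards [hu] with n hn
        refine ⟨(hL.smul_mem hn.1.1 (le_min zero_le_one rad_nonneg)).2 (min_le_right _ _),
          (S n).smul_mem _ hn.2⟩
      · have := hm.smul hu'
        rwa [one_smul] at this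
  have hw : Tendsto (fun n => x n + l n • v n) atTop (𝓝 (x' + l' • z)) := hx.add (hl.smul hv2)
  have hwK : ∀ᶠ n in atTop, x n + l n • v n ∈ K ∧ x n + l n • v n ∈ S n := by
    filter_upwards [h, hv1] with n h1 h2
    exact ⟨(h1.2.2 _ h2.2).2 h2.1, (S n).add_mem h1.1 ((S n).smul_mem _ h2.2)⟩
  by_cases h0 : x' + l' • z = 0
  · exact Or.inl h0
  · have hKm : x' + l' • z ∈ K :=
      hK.compact.isClosed.mem_of_tendsto hw (hwK.mono fun n hn => hn.1)
    refine Or.inr ⟨hKm, mem_Lim_of_tendsto (mem_Dir hKm h0) (T.add_mem hx' (T.smul_mem _ hz))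
      ?_ hw⟩
    filter_upwards [hwK, hw.eventually (isOpen_ne.mem_nhds h0)] with n h1 h2
    exact ⟨mem_Dir h1.1 h2, h1.2⟩

/-- Passage to the limit when the homotheties converge. -/
theorem gHom_of_tendsto (hK : StarB K) (hL : StarB L) {S : ℕ → Submodule ℝ E}
    {T : Submodule ℝ E} (hS : PConv S T) {x : ℕ → E} {l : ℕ → ℝ} {x' : E} {l' : ℝ}
    (h : ∀ᶠ n in atTop, Hom K L (S n) (x n) (l n)) (hx : Tendsto x atTop (𝓝 x'))
    (hl : Tendsto l atTop (𝓝 l')) (hl' : 0 < l') :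
    GHom K L T (Lim K S T) (Lim L S T) x' l' := by
  have hx' : x' ∈ T := by
    refine hS.2 x' fun ε hε => ?_
    refine Eventually.frequently ?_
    filter_upwards [h, hx.eventually (Metric.ball_mem_nhds x' hε)] with n h1 h2
    exact ⟨x n, h1.1, h2⟩
  refine ⟨hx', hl', Lim_sub, Lim_sub, fun z hz t ht => Lim_smul hz ht,
    fun z hz t ht => Lim_smul hz ht, fun z hz => ⟨fun hzK => ?_, fun hzL => ?_⟩⟩
  · have hli : Tendsto (fun n => (l n)⁻¹) atTop (𝓝 l'⁻¹) := hl.inv₀ hl'.ne'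
    have key := lim_forward hL hK (T := T) (S := S) (x := fun n => -((l n)⁻¹ • x n))
      (l := fun n => (l n)⁻¹) (x' := -(l'⁻¹ • x')) (l' := l'⁻¹)
      (h.mono fun n hn => hn.symm) (hli.smul hx).neg hli
      (T.neg_mem (T.smul_mem _ hx')) (T.add_mem hx' (T.smul_mem _ hz)) hzK
    have e : -(l'⁻¹ • x') + l'⁻¹ • (x' + l' • z) = z := by
      rw [smul_add, smul_smul, inv_mul_cancel₀ hl'.ne', one_smul]; abel
    rwa [e] at key
  · exact lim_forward hK hL h hx hl hx' hz hzL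

/-- Compactness: a convergent subsequence of the homotheties. -/
theorem exists_limit [FiniteDimensional ℝ E] (hK : StarB K) (hL : StarB L)
    {S : ℕ → Submodule ℝ E} {T : Submodule ℝ E} (hS : PConv S T) {x : ℕ → E} {l : ℕ → ℝ}
    (h : ∀ᶠ n in atTop, Hom K L (S n) (x n) (l n))
    (h1 : (Lim K S T).Nonempty) (h2 : (Lim L S T).Nonempty) :
    ∃ (φ : ℕ → ℕ) (x' : E) (l' : ℝ), StrictMono φ ∧ Tendsto (x ∘ φ) atTop (𝓝 x') ∧
      Tendsto (l ∘ φ) atTop (𝓝 l') ∧ 0 < l' ∧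
      GHom K L T (Lim K (S ∘ φ) T) (Lim L (S ∘ φ) T) x' l' := by
  obtain ⟨RK, hRK, hRK'⟩ := hK.bounded
  obtain ⟨RL, hRL, hRL'⟩ := hL.bounded
  -- points of size bounded below
  have size : ∀ {M : Set E}, StarB M → (Lim M S T).Nonempty → ∃ c : ℝ, 0 < c ∧
      ∀ᶠ n in atTop, ∃ p ∈ M, p ∈ S n ∧ c ≤ ‖p‖ := by
    intro M hM ⟨v, hv⟩
    obtain ⟨u, hu, hu'⟩ := exists_seq_of_mem_Lim hv
    have hr := hM.tendsto_rad (hu.mono fun n hn => hn.1) hv.1 hu'
    have hp : Tendsto (fun n => rad M (u n) • u n) atTop (𝓝 (rad M v • v)) := hr.smul hu'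
    have hpos : 0 < ‖rad M v • v‖ :=
      norm_pos_iff.2 (smul_ne_zero (hM.rad_pos hv.1).ne' hv.1.1)
    refine ⟨‖rad M v • v‖ / 2, by positivity, ?_⟩
    filter_upwards [hu, hp.norm.eventually (lt_mem_nhds (half_lt_self hpos))] with n h1 h2
    exact ⟨_, (hM.smul_mem h1.1.1 rad_nonneg).2 le_rfl, (S n).smul_mem _ h1.2, h2.le⟩
  obtain ⟨c₁, hc₁, e₁⟩ := size hK h1
  obtain ⟨c₂, hc₂, e₂⟩ := size hL h2
  have hmem : ∀ᶠ n in atTop, (x n, l n) ∈ K ×ˢ Icc (c₁ / (2 * RL)) (2 * RK / c₂) := by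
    filter_upwards [h, e₁, e₂] with n hn ⟨p, hpK, hpS, hp⟩ ⟨q, hqL, hqS, hq⟩
    have hxK : x n ∈ K := by
      have := (hn.2.2 0 (S n).zero_mem).2 hL.zero_mem
      simpa using this
    refine ⟨hxK, ?_, ?_⟩
    · -- lower bound
      have hs := hn.symm
      have hy : -((l n)⁻¹ • x n) ∈ L := by
        have := (hs.2.2 0 (S n).zero_mem).2 hK.zero_mem
        simpa using this
      have hz : -((l n)⁻¹ • x n) + (l n)⁻¹ • p ∈ L := (hs.2.2 p hpS).2 hpK
      have e : (-((l n)⁻¹ • x n) + (l n)⁻¹ • p) - -((l n)⁻¹ • x n) = (l n)⁻¹ • p := by abel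
      have h5 : ‖(l n)⁻¹ • p‖ ≤ 2 * RL := by
        rw [← e]
        refine (norm_sub_le _ _).trans ?_
        linarith [hRL' _ hz, hRL' _ hy]
      rw [norm_smul, norm_inv, Real.norm_of_nonneg hn.2.1.le] at h5
      have h6 : ‖p‖ ≤ l n * (2 * RL) := by
        have := mul_le_mul_of_nonneg_left h5 hn.2.1.le
        rwa [← mul_assoc, mul_inv_cancel₀ hn.2.1.ne', one_mul] at this
      show c₁ / (2 * RL) ≤ l n
      rw [div_le_iff₀ (by positivity)]
      exact hp.trans h6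
    · have hz : x n + l n • q ∈ K := (hn.2.2 q hqS).2 hqL
      have e : (x n + l n • q) - x n = l n • q := by abel
      have h5 : ‖l n • q‖ ≤ 2 * RK := by
        rw [← e]
        refine (norm_sub_le _ _).trans ?_
        linarith [hRK' _ hz, hRK' _ hxK]
      rw [norm_smul, Real.norm_of_nonneg hn.2.1.le] at h5
      show l n ≤ 2 * RK / c₂
      rw [le_div_iff₀ hc₂]
      exact (mul_le_mul_of_nonneg_left hq hn.2.1.le).trans h5
  obtain ⟨⟨x', l'⟩, hx'l', φ, hφ, hlim⟩ :=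
    (hK.compact.prod isCompact_Icc).tendsto_subseq' hmem.frequently
  have hx : Tendsto (x ∘ φ) atTop (𝓝 x') := (continuous_fst.tendsto _).comp hlim
  have hl : Tendsto (l ∘ φ) atTop (𝓝 l') := (continuous_snd.tendsto _).comp hlim
  have hl' : 0 < l' := lt_of_lt_of_le (by positivity) hx'l'.2.1
  exact ⟨φ, x', l', hφ, hx, hl, hl',
    gHom_of_tendsto hK hL (hS.comp hφ) (hφ.tendsto_atTop.eventually h) hx hl hl'⟩

/-- The limit of homothetic sections is homothetic if all directions are limit directions. -/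
theorem hom_of_limit [FiniteDimensional ℝ E] (hK : StarB K) (hL : StarB L)
    {S : ℕ → Submodule ℝ E} {T : Submodule ℝ E} (hS : PConv S T)
    (h : ∀ᶠ n in atTop, ∃ (x : E) (l : ℝ), Hom K L (S n) x l)
    (h1 : Dir K ∩ (T : Set E) ⊆ Lim K S T) (h2 : Dir L ∩ (T : Set E) ⊆ Lim L S T)
    (h3 : (Dir K ∩ (T : Set E)).Nonempty) (h4 : (Dir L ∩ (T : Set E)).Nonempty) :
    ∃ (x : E) (l : ℝ), Hom K L T x l := by
  have h' : ∀ᶠ n in atTop, Hom K L (S n) (ctr K L (S n)) (rat K L (S n)) :=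
    h.mono fun n hn => ctr_spec hn
  obtain ⟨φ, x', l', hφ, -, -, -, hG⟩ := exists_limit hK hL hS h' (h3.mono h1) (h4.mono h2)
  exact ⟨x', l', hG.hom hK hL (h1.trans (Lim_comp hφ)) (h2.trans (Lim_comp hφ))⟩

/-- Continuity of the homothety at regular subspaces. -/
theorem tendsto_hom [FiniteDimensional ℝ E] (hK : StarB K) (hL : StarB L)
    {S : ℕ → Submodule ℝ E} {T : Submodule ℝ E} (hS : PConv S T) {x : ℕ → E} {l : ℕ → ℝ}
    (h : ∀ᶠ n in atTop, Hom K L (S n) (x n) (l n)) (hKT : Reg K T) (hLT : Reg L T)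
    (h3 : (Dir K ∩ (T : Set E)).Nonempty) (h4 : (Dir L ∩ (T : Set E)).Nonempty)
    {x₀ : E} {l₀ : ℝ} (h0 : Hom K L T x₀ l₀) :
    Tendsto x atTop (𝓝 x₀) ∧ Tendsto l atTop (𝓝 l₀) := by
  have key : Tendsto (fun n => (x n, l n)) atTop (𝓝 (x₀, l₀)) := by
    refine tendsto_of_subseq_tendsto fun ns hns => ?_
    obtain ⟨ms, hms, hms'⟩ := strictMono_subseq_of_tendsto_atTop hns
    have hS' : PConv (S ∘ (ns ∘ ms)) T := hS.comp hms'
    have hh : ∀ᶠ n in atTop, Hom K L ((S ∘ (ns ∘ ms)) n) ((x ∘ (ns ∘ ms)) n) ((l ∘ (ns ∘ ms)) n) :=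
      hms'.tendsto_atTop.eventually h
    obtain ⟨φ, x', l', hφ, hx, hl, hl', hG⟩ := exists_limit hK hL hS' hh
      (h3.mono (Lim_of_reg hS' hKT)) (h4.mono (Lim_of_reg hS' hLT))
    have hHom : Hom K L T x' l' := hG.hom hK hL
      ((Lim_of_reg hS' hKT).trans (Lim_comp hφ)) ((Lim_of_reg hS' hLT).trans (Lim_comp hφ))
    obtain ⟨rfl, rfl⟩ := hHom.unique hK hL h0 (Or.inl h3)
    exact ⟨ms ∘ φ, hx.prodMk_nhds hl⟩
  exact ⟨(continuous_fst.tendsto _).comp key, (continuous_snd.tendsto _).comp key⟩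

/-- Continuity of the homothety along the planes spanned by `a`, `v`. -/
theorem tendsto_ctr_pair [FiniteDimensional ℝ E] (hK : StarB K) (hL : StarB L)
    {F : Filter E} [F.IsCountablyGenerated] {a v₀ : E} (hF : Tendsto id F (𝓝 v₀))
    (hli : LinearIndependent ℝ ![a, v₀])
    (h : ∀ᶠ v in F, ∃ (x : E) (l : ℝ), Hom K L (Submodule.span ℝ {a, v}) x l)
    (h0 : ∃ (x : E) (l : ℝ), Hom K L (Submodule.span ℝ {a, v₀}) x l)
    (hKT : Reg K (Submodule.span ℝ {a, v₀})) (hLT : Reg L (Submodule.span ℝ {a, v₀}))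
    (h3 : (Dir K ∩ (Submodule.span ℝ {a, v₀} : Set E)).Nonempty)
    (h4 : (Dir L ∩ (Submodule.span ℝ {a, v₀} : Set E)).Nonempty) :
    Tendsto (fun v => ctr K L (Submodule.span ℝ {a, v})) F
        (𝓝 (ctr K L (Submodule.span ℝ {a, v₀}))) ∧
      Tendsto (fun v => rat K L (Submodule.span ℝ {a, v})) F
        (𝓝 (rat K L (Submodule.span ℝ {a, v₀}))) := by
  have key : ∀ v : ℕ → E, Tendsto v atTop F →
      Tendsto (fun n => ctr K L (Submodule.span ℝ {a, v n})) atTop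
        (𝓝 (ctr K L (Submodule.span ℝ {a, v₀}))) ∧
      Tendsto (fun n => rat K L (Submodule.span ℝ {a, v n})) atTop
        (𝓝 (rat K L (Submodule.span ℝ {a, v₀}))) := by
    intro v hv
    have hv' : Tendsto v atTop (𝓝 v₀) := hF.comp hv
    refine tendsto_hom hK hL (pconv_pair (a := fun _ => a) tendsto_const_nhds hv' hli) ?_
      hKT hLT h3 h4 (ctr_spec h0)
    filter_upwards [hv.eventually h] with n hn using ctr_spec hn
  exact ⟨tendsto_of_seq_tendsto fun v hv => (key v hv).1,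
    tendsto_of_seq_tendsto fun v hv => (key v hv).2⟩

end Pool.Agent.H63.SB
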