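import Pool.Agent.H63.SB.Iface

/-!
# Star bodies with homothetic sections: Baire category toolkit (T4), by helper11
-/

namespace Pool.Agent.H63.SB

open Set Filter Topology
open scoped RealInnerProductSpace

variable {E : Type*} [NormedAddCommGroup E] [InnerProductSpace ℝ E]
variable {K L : Set E}

/-! ## T4: Baire category -/

/-- Abstract Baire lemma. -/
theorem residual_aux {X Y : Type*} [TopologicalSpace X] [TopologicalSpace Y]
    [SecondCountableTopology Y] (R : X → Set Y) (O : Set Y)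
    (hopen : ∀ B : Set Y, IsOpen B → IsOpen {x : X | (R x ∩ O ∩ B).Nonempty}) :
    ∀ᶠ x in residual X, ∀ p : Y,
      (∀ B : Set Y, IsOpen B → p ∈ B → x ∈ closure {x' : X | (R x' ∩ O ∩ B).Nonempty}) →
      p ∈ closure (R x ∩ O) := by
  have h1 : ∀ᶠ x in residual X, ∀ B ∈ TopologicalSpace.countableBasis Y,
      x ∉ frontier {x' : X | (R x' ∩ O ∩ B).Nonempty} := by
    refine (eventually_countable_ball (TopologicalSpace.countable_countableBasis Y)).2 ?_
    intro B hB
    have hBo : IsOpen B := TopologicalSpace.isOpen_of_mem_countableBasis hB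
    have hG := hopen B hBo
    have hd : Dense (frontier {x' : X | (R x' ∩ O ∩ B).Nonempty})ᶜ := by
      rw [← interior_eq_empty_iff_dense_compl, ← frontier_compl]
      exact interior_frontier hG.isClosed_compl
    exact residual_of_dense_open isClosed_frontier.isOpen_compl hd
  filter_upwards [h1] with x hx p hp
  rw [mem_closure_iff_nhds_basis (TopologicalSpace.isBasis_countableBasis Y).nhds_hasBasis]
  rintro B ⟨hB, hpB⟩
  have hBo : IsOpen B := TopologicalSpace.isOpen_of_mem_countableBasis hB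
  have h2 := hp B hBo hpB
  have h3 := hx B hB
  have h4 : x ∈ {x' : X | (R x' ∩ O ∩ B).Nonempty} := by
    by_contra h5
    apply h3
    rw [(hopen B hBo).frontier_eq]
    exact ⟨h2, h5⟩
  obtain ⟨y, hy, hyB⟩ := h4
  exact ⟨y, hy, hyB⟩

set_option linter.unusedVariables false in
/-- Regular frames inside a regular subspace form a residual set. -/
theorem residual_reg [FiniteDimensional ℝ E] (hK : StarB K) {V : Submodule ℝ E} (hV : Reg K V)
    (j : ℕ) : ∀ᶠ b : Fin j → V in residual (Fin j → V),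
      Reg K (Submodule.span ℝ (range fun i => (b i : E))) := by
  have h1 := residual_aux (X := Fin j → V) (Y := E)
    (fun b => (Submodule.span ℝ (range fun i => (b i : E)) : Set E)) (interior (Dir K)) ?_
  · filter_upwards [h1] with b hb p hp
    have h2 := hb p ?_
    · rwa [inter_comm] at h2
    intro B hB hpB
    obtain ⟨hpD, hps⟩ := hp
    obtain ⟨c, hc⟩ := (Submodule.mem_span_range_iff_exists_fun ℝ).1 hps
    have hp0 : p ≠ 0 := hpD.1
    obtain ⟨i₀, hi₀⟩ : ∃ i, c i ≠ 0 := by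
      by_contra h3
      push Not at h3
      apply hp0
      rw [← hc]
      simp [h3]
    have hpV : p ∈ V := by
      rw [← hc]
      exact V.sum_mem fun i _ => V.smul_mem _ (b i).2
    have h4 : (⟨p, hpV⟩ : V) ∈ closure {q : V | (q : E) ∈ B ∧ (q : E) ∈ interior (Dir K)} := by
      have h5 : (⟨p, hpV⟩ : V) ∈ closure {q : V | (q : E) ∈ interior (Dir K)} := by
        rw [closure_subtype]
        have h6 : ((↑) '' {q : V | (q : E) ∈ interior (Dir K)} : Set E) =
            interior (Dir K) ∩ (V : Set E) := by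
          ext z
          constructor
          · rintro ⟨q, hq, rfl⟩
            exact ⟨hq, q.2⟩
          · rintro ⟨h7, h8⟩
            exact ⟨⟨z, h8⟩, h7, rfl⟩
        rw [h6]
        exact hV ⟨hpD, hpV⟩
      have hBV : IsOpen {q : V | (q : E) ∈ B} := hB.preimage continuous_subtype_val
      exact hBV.inter_closure ⟨hpB, h5⟩
    have h5 : Continuous fun q : V => Function.update b i₀ (b i₀ + (c i₀)⁻¹ • (q - ⟨p, hpV⟩)) := by
      refine continuous_const.update i₀ ?_
      fun_prop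
    have h6 : b = (fun q : V => Function.update b i₀ (b i₀ + (c i₀)⁻¹ • (q - ⟨p, hpV⟩)))
        ⟨p, hpV⟩ := by
      simp
    rw [h6]
    refine map_mem_closure (f := fun q : V => Function.update b i₀
      (b i₀ + (c i₀)⁻¹ • (q - ⟨p, hpV⟩))) h5 h4 ?_
    intro q hq
    refine ⟨(q : E), ⟨?_, hq.2⟩, hq.1⟩
    simp only [SetLike.mem_coe]
    refine (Submodule.mem_span_range_iff_exists_fun ℝ).2 ⟨c, ?_⟩
    have h7 : ∀ i, c i • (Function.update b i₀ (b i₀ + (c i₀)⁻¹ • (q - ⟨p, hpV⟩)) i : E) =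
        c i • (b i : E) + (if i = i₀ then ((q : E) - p) else 0) := by
      intro i
      by_cases hi : i = i₀
      · subst hi
        simp only [Function.update_self, Submodule.coe_add, Submodule.coe_smul, Submodule.coe_sub,
          smul_add, if_true]
        rw [smul_smul, mul_inv_cancel₀ hi₀, one_smul]
      · rw [Function.update_of_ne hi, if_neg hi, add_zero]
    rw [Finset.sum_congr rfl fun i _ => h7 i, Finset.sum_add_distrib, hc]
    simp
  · intro B hB
    have h2 : {b : Fin j → V | ((Submodule.span ℝ (range fun i => (b i : E)) : Set E) ∩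
        interior (Dir K) ∩ B).Nonempty} =
        ⋃ c : Fin j → ℝ, {b : Fin j → V | ∑ i, c i • (b i : E) ∈ interior (Dir K) ∩ B} := by
      ext b
      simp only [mem_ofPred_eq, mem_iUnion]
      constructor
      · rintro ⟨z, ⟨h3, h4⟩, h5⟩
        obtain ⟨c, hc⟩ := (Submodule.mem_span_range_iff_exists_fun ℝ).1 h3
        exact ⟨c, by rw [hc]; exact ⟨h4, h5⟩⟩
      · rintro ⟨c, hc⟩
        exact ⟨_, ⟨(Submodule.mem_span_range_iff_exists_fun ℝ).2 ⟨c, rfl⟩, hc.1⟩, hc.2⟩
    rw [h2]
    refine isOpen_iUnion fun c => ?_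
    have h3 : Continuous fun b : Fin j → V => ∑ i, c i • (b i : E) := by fun_prop
    exact (isOpen_interior.inter hB).preimage h3

theorem reg_top (hK : StarB K) : Reg K (⊤ : Submodule ℝ E) := by
  intro p hp
  have := hK.reg hp.1
  simpa using this

/-- Regular frames exist in every non-empty open set of frames. -/
theorem exists_reg [FiniteDimensional ℝ E] (hK : StarB K) (hL : StarB L) {V : Submodule ℝ E}
    (hKV : Reg K V) (hLV : Reg L V) (j : ℕ) {O : Set (Fin j → V)} (hO : IsOpen O)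
    (hne : O.Nonempty) : ∃ b ∈ O, Reg K (Submodule.span ℝ (range fun i => (b i : E))) ∧
      Reg L (Submodule.span ℝ (range fun i => (b i : E))) := by
  have : CompleteSpace V := FiniteDimensional.complete ℝ V
  have h1 := (residual_reg hK hKV j).and (residual_reg hL hLV j)
  have h2 : Dense {b : Fin j → V | Reg K (Submodule.span ℝ (range fun i => (b i : E))) ∧
      Reg L (Submodule.span ℝ (range fun i => (b i : E)))} := dense_of_mem_residual h1
  obtain ⟨b, hb, hbO⟩ := h2.exists_mem_open hO hne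
  exact ⟨b, hbO, hb⟩

/-- The same for pairs of vectors in the whole space. -/
theorem exists_reg_pair [FiniteDimensional ℝ E] (hK : StarB K) (hL : StarB L)
    {O₁ O₂ : Set E} (h1 : IsOpen O₁) (h2 : IsOpen O₂) (hn1 : O₁.Nonempty) (hn2 : O₂.Nonempty) :
    ∃ a ∈ O₁, ∃ b ∈ O₂, Reg K (Submodule.span ℝ {a, b}) ∧ Reg L (Submodule.span ℝ {a, b}) := by
  have hO : IsOpen {b : Fin 2 → (⊤ : Submodule ℝ E) | (b 0 : E) ∈ O₁ ∧ (b 1 : E) ∈ O₂} := by
    have h3 : Continuous fun b : Fin 2 → (⊤ : Submodule ℝ E) => (b 0 : E) := by fun_prop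
    have h4 : Continuous fun b : Fin 2 → (⊤ : Submodule ℝ E) => (b 1 : E) := by fun_prop
    exact (h1.preimage h3).inter (h2.preimage h4)
  have hne : {b : Fin 2 → (⊤ : Submodule ℝ E) | (b 0 : E) ∈ O₁ ∧ (b 1 : E) ∈ O₂}.Nonempty := by
    obtain ⟨a, ha⟩ := hn1
    obtain ⟨b, hb⟩ := hn2
    exact ⟨![⟨a, trivial⟩, ⟨b, trivial⟩], ha, hb⟩
  obtain ⟨b, ⟨hb1, hb2⟩, hr⟩ := exists_reg hK hL (reg_top hK) (reg_top hL) 2 hO hne
  refine ⟨b 0, hb1, b 1, hb2, ?_⟩
  have h3 : (range fun i => (b i : E)) = {(b 0 : E), (b 1 : E)} := by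
    ext z
    simp only [mem_range, mem_insert_iff, mem_singleton_iff]
    constructor
    · rintro ⟨i, rfl⟩
      fin_cases i
      · exact Or.inl rfl
      · exact Or.inr rfl
    · rintro (rfl | rfl)
      · exact ⟨0, rfl⟩
      · exact ⟨1, rfl⟩
  rwa [h3] at hr

/-- Regular hyperplanes are residual. -/
theorem residual_orth [FiniteDimensional ℝ E] (hK : StarB K) :
    ∀ᶠ ν : E in residual E, Reg K (Submodule.span ℝ {ν})ᗮ := by
  classical
  rcases subsingleton_or_nontrivial E with hE | hE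
  · refine Eventually.of_forall fun ν p hp => ?_
    exact absurd (Subsingleton.elim p 0) hp.1.1
  have h0 : ∀ᶠ ν : E in residual E, ν ≠ 0 := by
    refine residual_of_dense_open (s := {ν : E | ν ≠ 0}) isOpen_ne ?_
    exact dense_compl_singleton 0
  have h1 := residual_aux (X := E) (Y := E)
    (fun ν => {p : E | ν ≠ 0 ∧ ⟪ν, p⟫ = 0}) (interior (Dir K)) ?_
  · filter_upwards [h0, h1] with ν hν hν1 p hp
    obtain ⟨hpD, hps⟩ := hp
    have hps' : ⟪ν, p⟫ = 0 := Submodule.mem_orthogonal_singleton_iff_inner_right.1 hps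
    have hp0 : p ≠ 0 := hpD.1
    have h2 := hν1 p ?_
    · have h3 : {p : E | ν ≠ 0 ∧ ⟪ν, p⟫ = 0} ∩ interior (Dir K) ⊆
          interior (Dir K) ∩ ((Submodule.span ℝ {ν})ᗮ : Submodule ℝ E) := by
        rintro z ⟨⟨-, h4⟩, h5⟩
        exact ⟨h5, Submodule.mem_orthogonal_singleton_iff_inner_right.2 h4⟩
      exact closure_mono h3 h2
    intro B hB hpB
    -- the map `p' ↦ ν - (⟪ν, p'⟫ / ‖p'‖²) p'`
    have h3 : ContinuousAt (fun q : E => ν - (⟪ν, q⟫ / ‖q‖ ^ 2) • q) p := by
      refine continuousAt_const.sub (ContinuousAt.smul (ContinuousAt.div ?_ ?_ ?_) continuousAt_id)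
      · exact (continuous_const.inner continuous_id).continuousAt
      · exact (continuous_norm.pow 2).continuousAt
      · positivity
    have h4 : (fun q : E => ν - (⟪ν, q⟫ / ‖q‖ ^ 2) • q) p = ν := by simp [hps']
    have h5 : p ∈ closure (interior (Dir K) ∩ B) := by
      rw [inter_comm]
      exact hB.inter_closure ⟨hpB, hK.reg hpD⟩
    rw [mem_closure_iff_nhds]
    intro t ht
    have h6 : ∀ᶠ q in 𝓝 p, ν - (⟪ν, q⟫ / ‖q‖ ^ 2) • q ∈ t ∩ {ν' : E | ν' ≠ 0} ∧ q ≠ 0 := by
      refine (h3.eventually_mem ?_).and (isOpen_ne.mem_nhds hp0)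
      simp only [hps', zero_div, zero_smul, sub_zero]
      exact inter_mem ht (isOpen_ne.mem_nhds hν)
    obtain ⟨q, ⟨hq1, hq2⟩, ⟨hq3, hq3'⟩, hq4⟩ := ((mem_closure_iff_frequently.1 h5).and_eventually h6).exists
    refine ⟨_, hq3, ⟨q, ⟨⟨hq3', ?_⟩, hq1⟩, hq2⟩⟩
    have hqn : ‖q‖ ^ 2 ≠ 0 := by positivity
    rw [inner_sub_left, real_inner_smul_left, real_inner_self_eq_norm_sq,
      div_mul_cancel₀ _ hqn, sub_self]
  · intro B hB
    rw [isOpen_iff_mem_nhds]
    rintro ν ⟨p, ⟨⟨hν, hp0⟩, hpi⟩, hpB⟩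
    have h3 : ContinuousAt (fun μ : E => p - (⟪μ, p⟫ / ‖μ‖ ^ 2) • μ) ν := by
      refine continuousAt_const.sub (ContinuousAt.smul (ContinuousAt.div ?_ ?_ ?_) continuousAt_id)
      · exact (continuous_id.inner continuous_const).continuousAt
      · exact (continuous_norm.pow 2).continuousAt
      · positivity
    have h4 : ∀ᶠ μ in 𝓝 ν, p - (⟪μ, p⟫ / ‖μ‖ ^ 2) • μ ∈ interior (Dir K) ∩ B ∧ μ ≠ 0 := by
      refine (h3.eventually_mem ?_).and (isOpen_ne.mem_nhds hν)
      simp only [hp0, zero_div, zero_smul, sub_zero]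
      exact (isOpen_interior.inter hB).mem_nhds ⟨hpi, hpB⟩
    filter_upwards [h4] with μ hμ
    obtain ⟨⟨h5, h6⟩, h7⟩ := hμ
    refine ⟨_, ⟨⟨h7, ?_⟩, h5⟩, h6⟩
    have hqn : ‖μ‖ ^ 2 ≠ 0 := by positivity
    rw [inner_sub_right, real_inner_smul_right, real_inner_self_eq_norm_sq,
      div_mul_cancel₀ _ hqn, sub_self]

/-- Regularity relative to a subspace `W`. -/
theorem residual_sup [FiniteDimensional ℝ E] (hK : StarB K) (W : Submodule ℝ E) :
    ∀ᶠ v : E in residual E, ∀ p ∈ Dir K, p ∈ W ⊔ Submodule.span ℝ {v} → p ∉ W →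
      p ∈ closure (interior (Dir K) ∩ (W ⊔ Submodule.span ℝ {v} : Submodule ℝ E)) := by
  have h1 := residual_aux (X := E) (Y := E)
    (fun v => ((W ⊔ Submodule.span ℝ {v} : Submodule ℝ E) : Set E)) (interior (Dir K)) ?_
  · filter_upwards [h1] with v hv p hpD hp hpW
    have h2 := hv p ?_
    · rwa [inter_comm] at h2
    intro B hB hpB
    obtain ⟨w, hw, u, hu, hwu⟩ := Submodule.mem_sup.1 hp
    obtain ⟨t, rfl⟩ := Submodule.mem_span_singleton.1 hu
    have ht : t ≠ 0 := by
      intro h0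
      apply hpW
      rw [← hwu, h0, zero_smul, add_zero]
      exact hw
    have h5 : p ∈ closure (B ∩ interior (Dir K)) := hB.inter_closure ⟨hpB, hK.reg hpD⟩
    have h6 : Continuous fun q : E => v + t⁻¹ • (q - p) := by fun_prop
    have h7 : v = (fun q : E => v + t⁻¹ • (q - p)) p := by simp
    rw [h7]
    refine map_mem_closure (f := fun q : E => v + t⁻¹ • (q - p)) h6 h5 ?_
    rintro q ⟨hq1, hq2⟩
    refine ⟨q, ⟨?_, hq2⟩, hq1⟩
    simp only [SetLike.mem_coe]
    refine Submodule.mem_sup.2 ⟨w, hw, t • (v + t⁻¹ • (q - p)),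
      Submodule.smul_mem _ _ (Submodule.mem_span_singleton_self _), ?_⟩
    rw [smul_add, smul_smul, mul_inv_cancel₀ ht, one_smul, ← add_assoc, hwu]
    abel
  · intro B hB
    have h2 : {v : E | (((W ⊔ Submodule.span ℝ {v} : Submodule ℝ E) : Set E) ∩
        interior (Dir K) ∩ B).Nonempty} =
        ⋃ c : W × ℝ, {v : E | (c.1 : E) + c.2 • v ∈ interior (Dir K) ∩ B} := by
      ext v
      simp only [mem_ofPred_eq, mem_iUnion]
      constructor
      · rintro ⟨z, ⟨h3, h4⟩, h5⟩
        obtain ⟨w, hw, u, hu, hwu⟩ := Submodule.mem_sup.1 h3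
        obtain ⟨t, rfl⟩ := Submodule.mem_span_singleton.1 hu
        exact ⟨(⟨w, hw⟩, t), by simp only [hwu]; exact ⟨h4, h5⟩⟩
      · rintro ⟨⟨w, t⟩, hc⟩
        exact ⟨_, ⟨Submodule.mem_sup.2 ⟨w, w.2, t • v,
          Submodule.smul_mem _ _ (Submodule.mem_span_singleton_self _), rfl⟩, hc.1⟩, hc.2⟩
    rw [h2]
    refine isOpen_iUnion fun c => ?_
    have h3 : Continuous fun v : E => (c.1 : E) + c.2 • v := by fun_prop
    exact (isOpen_interior.inter hB).preimage h3

end Pool.Agent.H63.SB
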