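import Pool.Agent.H63.SB.T1
import Pool.Agent.H63.SB.T2
import Pool.Agent.H63.SB.T3
import Pool.Agent.H63.SB.T4

/-!
# Star bodies with homothetic sections: the toolkit
-/
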