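import Pool.Agent.H63.SB.Iface

/-!
# Star bodies with homothetic sections: targets

The mathematics of every target is in `H63_SB_blueprint.md` (team store).
-/

namespace Pool.Agent.H63.SB

open Set Filter Topology
open scoped RealInnerProductSpace

/-! ## Equal interior directions -/

/-- **P1.** Pencil lemma: no jumps, hence a homothetic section by `W`. -/
def PencilStmt : Prop :=
  ∀ (E : Type) [NormedAddCommGroup E] [InnerProductSpace ℝ E] [FiniteDimensional ℝ E]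
    (K L : Set E), StarB K → StarB L →
    ∀ (W : Submodule ℝ E) (e f : E),
    (∀ s t : ℝ, s • e + t • f ∈ W → s = 0 ∧ t = 0) →
    (Dir K ∩ (W : Set E)).Nonempty → (Dir L ∩ (W : Set E)).Nonempty →
    (∀ θ : ℝ, ∃ (x : E) (l : ℝ),
      Hom K L (W ⊔ Submodule.span ℝ {Real.cos θ • e + Real.sin θ • f}) x l) →
    Dense {θ : ℝ | ∀ p, p ∈ W ⊔ Submodule.span ℝ {Real.cos θ • e + Real.sin θ • f} → p ∉ W →
      (p ∈ Dir K ∨ p ∈ Dir L) → p ∈ closure (Dir K ∩ Dir L ∩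
        (W ⊔ Submodule.span ℝ {Real.cos θ • e + Real.sin θ • f} : Submodule ℝ E))} →
    ∃ (x : E) (l : ℝ), Hom K L W x l

/-- **P2.** Descent when the two bodies have the same directions. -/
def DescSameStmt : Prop :=
  ∀ (E : Type) [NormedAddCommGroup E] [InnerProductSpace ℝ E] [FiniteDimensional ℝ E]
    (K L : Set E), StarB K → StarB L → Dir K = Dir L → ∀ j : ℕ, j + 2 ≤ Module.finrank ℝ E →
    AllHom K L (j + 1) → AllHom K L j

/-- **P3.** Descent when the two bodies have the same interior directions. -/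
def DescIntStmt : Prop :=
  ∀ (E : Type) [NormedAddCommGroup E] [InnerProductSpace ℝ E] [FiniteDimensional ℝ E]
    (K L : Set E), StarB K → StarB L → interior (Dir K) = interior (Dir L) → ∀ j : ℕ,
    j + 2 ≤ Module.finrank ℝ E →
    (∀ S : Submodule ℝ E, Module.finrank ℝ S = j + 1 →
      (interior (Dir K) ∩ (S : Set E)).Nonempty → ∃ (x : E) (l : ℝ), Hom K L S x l) →
    ∀ S : Submodule ℝ E, Module.finrank ℝ S = j →
      (interior (Dir K) ∩ (S : Set E)).Nonempty → ∃ (x : E) (l : ℝ), Hom K L S x l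

/-- **C1.** Both bodies have the origin in the interior. -/
def CaseFullStmt : Prop :=
  ∀ (E : Type) [NormedAddCommGroup E] [InnerProductSpace ℝ E] [FiniteDimensional ℝ E]
    (K L : Set E) (k : ℕ), StarB K → StarB L → (∀ z : E, z ≠ 0 → z ∈ Dir K) →
    (∀ z : E, z ≠ 0 → z ∈ Dir L) → 2 ≤ k → k + 1 ≤ Module.finrank ℝ E → AllHom K L k →
    ∃ (x : E) (l : ℝ), Hom K L ⊤ x l

/-- **C2.** The same directions, but not all. -/
def CaseSameStmt : Prop :=
  ∀ (E : Type) [NormedAddCommGroup E] [InnerProductSpace ℝ E] [FiniteDimensional ℝ E]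
    (K L : Set E), StarB K → StarB L → Dir K = Dir L → (Dir K).Nonempty →
    (∃ n : E, n ≠ 0 ∧ n ∉ Dir K) → 3 ≤ Module.finrank ℝ E → AllHom K L 2 →
    ∃ (x : E) (l : ℝ), Hom K L ⊤ x l

/-- **C3.** The same interior directions, but different directions. -/
def CaseIntStmt : Prop :=
  ∀ (E : Type) [NormedAddCommGroup E] [InnerProductSpace ℝ E] [FiniteDimensional ℝ E]
    (K L : Set E), StarB K → StarB L → interior (Dir K) = interior (Dir L) →
    (∃ q ∈ Dir L, q ∉ Dir K) → 3 ≤ Module.finrank ℝ E →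
    (∀ S : Submodule ℝ E, Module.finrank ℝ S = 2 →
      (interior (Dir K) ∩ (S : Set E)).Nonempty → ∃ (x : E) (l : ℝ), Hom K L S x l) →
    ∃ (x : E) (l : ℝ), Hom K L ⊤ x l

/-! ## Descent of regular homothetic sections -/

/-- Normals of the bad hyperplanes in the ball `ball c r`. -/
def Bad {E : Type} [NormedAddCommGroup E] [InnerProductSpace ℝ E] (D : Set E) (c : E) (r : ℝ) :
    Set E :=
  {ν | ν ≠ 0 ∧ (∀ v ∈ Metric.ball c r, ⟪ν, v⟫ = 0 → v ∈ D) ∧
    (∃ v ∈ Metric.closedBall c (r / 8), ⟪ν, v⟫ = 0) ∧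
    ν ∈ closure {ν' : E | ∀ v ∈ Metric.ball c r, ⟪ν', v⟫ = 0 → v ∉ D}}

/-- **D1.** Bad hyperplanes form a one-parameter family. -/
def BadDenseStmt : Prop :=
  ∀ (E : Type) [NormedAddCommGroup E] [InnerProductSpace ℝ E] [FiniteDimensional ℝ E]
    (D : Set E) (c : E) (r : ℝ), 0 < r →
    Dense {p : E × E | ∀ ν ∈ Bad D c r, ¬ (⟪ν, p.1⟫ = 0 ∧ ⟪ν, p.2⟫ = 0)}

/-- **D2.** The frames orthogonal to some bad normal form a closed set. -/
def BadClosedStmt : Prop :=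
  ∀ (E : Type) [NormedAddCommGroup E] [InnerProductSpace ℝ E] [FiniteDimensional ℝ E]
    (D : Set E) (c : E) (r : ℝ) (j : ℕ), 0 < r → (∀ v ∈ Metric.ball c r, v ∈ closure D → v ∈ D) →
    IsClosed {b : Fin j → E | ∃ ν ∈ Bad D c r, ∀ i, ⟪ν, b i⟫ = 0}

/-- **D3.** Uniqueness of the limit homothety at hyperplanes which are not bad. -/
def UniqStmt : Prop :=
  ∀ (E : Type) [NormedAddCommGroup E] [InnerProductSpace ℝ E] [FiniteDimensional ℝ E]
    (K L : Set E), StarB K → StarB L →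
    ∀ (ν ν' : ℕ → E) (ν₀ : E) (x x' : ℕ → E) (l l' : ℕ → ℝ) (x₀ x₀' : E) (l₀ l₀' : ℝ),
    ν₀ ≠ 0 → Tendsto ν atTop (𝓝 ν₀) → Tendsto ν' atTop (𝓝 ν₀) →
    (interior (Dir K) ∩ ((Submodule.span ℝ {ν₀})ᗮ : Set E)).Nonempty →
    (interior (Dir L) ∩ ((Submodule.span ℝ {ν₀})ᗮ : Set E)).Nonempty →
    (∀ n, Hom K L (Submodule.span ℝ {ν n})ᗮ (x n) (l n)) →
    (∀ n, Hom K L (Submodule.span ℝ {ν' n})ᗮ (x' n) (l' n)) →
    Tendsto x atTop (𝓝 x₀) → Tendsto l atTop (𝓝 l₀) → 0 < l₀ →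
    Tendsto x' atTop (𝓝 x₀') → Tendsto l' atTop (𝓝 l₀') → 0 < l₀' →
    (∀ i m : ℕ, (∀ v ∈ Metric.ball (TopologicalSpace.denseSeq E i) (1 / ((m : ℝ) + 1)), v ∈ closure (Dir K) →
      v ∈ Dir K) → ν₀ ∉ Bad (Dir K) (TopologicalSpace.denseSeq E i) (1 / ((m : ℝ) + 1))) →
    (∀ i m : ℕ, (∀ v ∈ Metric.ball (TopologicalSpace.denseSeq E i) (1 / ((m : ℝ) + 1)), v ∈ closure (Dir L) →
      v ∈ Dir L) → ν₀ ∉ Bad (Dir L) (TopologicalSpace.denseSeq E i) (1 / ((m : ℝ) + 1))) →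
    x₀ = x₀' ∧ l₀ = l₀'

/-- **D4.** Descent in codimension one. -/
def Desc1Stmt : Prop :=
  ∀ (E : Type) [NormedAddCommGroup E] [InnerProductSpace ℝ E] [FiniteDimensional ℝ E]
    (K L : Set E), StarB K → StarB L → ∀ j : ℕ, 2 ≤ j → Module.finrank ℝ E = j + 2 →
    RegHom K L (j + 1) → RegHom K L j

/-- **D5.** Descent. -/
def DescStmt : Prop :=
  ∀ (E : Type) [NormedAddCommGroup E] [InnerProductSpace ℝ E] [FiniteDimensional ℝ E]
    (K L : Set E), StarB K → StarB L → ∀ j : ℕ, 2 ≤ j → j + 2 ≤ Module.finrank ℝ E →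
    RegHom K L (j + 1) → RegHom K L j

/-! ## Walls in planes -/

/-- The boundary of `K` contains a non-radial segment parallel to `u` in the plane of `u`, `e`. -/
def Seg {E : Type} [NormedAddCommGroup E] [InnerProductSpace ℝ E] (K : Set E) (u e : E) : Prop :=
  ∃ (y : E) (c ρ : ℝ), y ∈ Submodule.span ℝ {u, e} ∧ (∀ s : ℝ, y ≠ s • u) ∧ 0 < c ∧ 0 < ρ ∧
    ∀ t : ℝ, 0 < t → t < c → y + t • u ∈ Dir K ∧ rad K (y + t • u) = ρ

/-- **W1.** -/
def SegCountStmt : Prop :=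
  ∀ (E : Type) [NormedAddCommGroup E] [InnerProductSpace ℝ E] [FiniteDimensional ℝ E]
    (K : Set E) (a d : E), LinearIndependent ℝ ![a, d] →
    {τ : ℝ | Seg K (a + τ • d) d}.Countable

/-- **W2.** Cut lemma for `K`. -/
def CutKStmt : Prop :=
  ∀ (E : Type) [NormedAddCommGroup E] [InnerProductSpace ℝ E] [FiniteDimensional ℝ E]
    (K L : Set E), StarB K → StarB L → RegHom K L 2 →
    ∀ (u e q : E) (δ₀ α β : ℝ), LinearIndependent ℝ ![u, e] → 0 < δ₀ →
    (∀ δ : ℝ, |δ| < δ₀ → u + δ • e ∈ Dir K ∧ u + δ • e ∉ interior (Dir K)) →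
    q ∈ interior (Dir L) → q ∉ Dir K → q = α • u + β • e → 0 < β → Seg L u e

/-- **W3.** Cut lemma for `L`. -/
def CutLStmt : Prop :=
  ∀ (E : Type) [NormedAddCommGroup E] [InnerProductSpace ℝ E] [FiniteDimensional ℝ E]
    (K L : Set E), StarB K → StarB L → RegHom K L 2 →
    ∀ (u e q : E) (δ₀ α β : ℝ), LinearIndependent ℝ ![u, e] → 0 < δ₀ →
    (∀ δ : ℝ, |δ| < δ₀ → u + δ • e ∈ Dir L ∧ u + δ • e ∉ interior (Dir L)) →
    (interior (Dir K) ∩ (Submodule.span ℝ {u, e} : Set E)).Nonempty →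
    (u ∈ Dir K → u ∈ interior (Dir K)) →
    q ∈ interior (Dir L) → q ∉ Dir K → q = α • u + β • e → 0 < β → Seg K u e

/-- **W4.** Planes through a point of `interior (Dir L) \ Dir K` are regular. -/
def RegPlaneStmt : Prop :=
  ∀ (E : Type) [NormedAddCommGroup E] [InnerProductSpace ℝ E] [FiniteDimensional ℝ E]
    (K L : Set E), StarB K → StarB L → RegHom K L 2 →
    ∀ q ∈ interior (Dir L), q ∉ Dir K → ∀ S : Submodule ℝ E, Module.finrank ℝ S = 2 → q ∈ S →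
    (Dir K ∩ (S : Set E)).Nonempty →
    Reg K S ∧ Reg L S ∧ (interior (Dir K) ∩ (S : Set E)).Nonempty

/-- **W5.** The opposite point is a direction of `K`. -/
def OppStmt : Prop :=
  ∀ (E : Type) [NormedAddCommGroup E] [InnerProductSpace ℝ E] [FiniteDimensional ℝ E]
    (K L : Set E) (k : ℕ), StarB K → StarB L → 2 ≤ k → k + 1 ≤ Module.finrank ℝ E →
    AllHom K L k → (∀ j : ℕ, 2 ≤ j → j ≤ k → RegHom K L j) →
    ∀ q ∈ interior (Dir L), q ∉ Dir K → -q ∈ Dir K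

/-! ## The main case `interior (Dir L) ⊄ Dir K` -/

/-- The situation after the analysis of the walls. -/
structure CA {E : Type} [NormedAddCommGroup E] [InnerProductSpace ℝ E] (K L : Set E) : Prop where
  hK : StarB K
  hL : StarB L
  dim : 3 ≤ Module.finrank ℝ E
  neg : ∀ q ∈ interior (Dir L), q ∉ Dir K → -q ∈ Dir K
  good : ∀ q ∈ interior (Dir L), q ∉ Dir K → ∀ S : Submodule ℝ E, Module.finrank ℝ S = 2 →
    q ∈ S → Reg K S ∧ Reg L S ∧ ∃ (x : E) (l : ℝ), Hom K L S x l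

/-- **A1.** Convexity. -/
def ConvStmt : Prop :=
  ∀ (E : Type) [NormedAddCommGroup E] [InnerProductSpace ℝ E] [FiniteDimensional ℝ E]
    (K L : Set E), CA K L → ∀ q ∈ interior (Dir L), q ∉ Dir K → ∀ q' ∈ Dir L, q' ∉ Dir K →
    ∀ s t : ℝ, 0 < s → 0 < t → s • q + t • q' ∈ Dir L ∧ s • q + t • q' ∉ Dir K

/-- **A2.** Thin case. -/
def ThinStmt : Prop :=
  ∀ (E : Type) [NormedAddCommGroup E] [InnerProductSpace ℝ E] [FiniteDimensional ℝ E]
    (K L : Set E), CA K L → (∃ q ∈ interior (Dir L), q ∉ Dir K) →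
    interior (Dir L \ Dir K) = ∅ → ∃ (x : E) (l : ℝ), Hom K L ⊤ x l

/-- The situation with the open convex cone `U = interior (Dir L \ Dir K)`. -/
structure UC {E : Type} [NormedAddCommGroup E] [InnerProductSpace ℝ E] (K L : Set E) : Prop
    extends CA K L where
  nonempty : (interior (Dir L \ Dir K)).Nonempty
  add : ∀ q ∈ interior (Dir L \ Dir K), ∀ q' ∈ Dir L, q' ∉ Dir K → ∀ t : ℝ, 0 < t →
    q' + t • q ∈ interior (Dir L \ Dir K)
  neg_mem : ∀ q ∈ interior (Dir L \ Dir K), -q ∈ interior (Dir K)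
  down : ∀ p ∈ Dir K, ∀ q ∈ interior (Dir L \ Dir K), ∀ t : ℝ, 0 < t →
    p - t • q ∈ interior (Dir K)

/-- **A3.** -/
def UCStmt : Prop :=
  ∀ (E : Type) [NormedAddCommGroup E] [InnerProductSpace ℝ E] [FiniteDimensional ℝ E]
    (K L : Set E), CA K L → (interior (Dir L \ Dir K)).Nonempty → UC K L

/-- **A4.** Walls of `K`. -/
def WallStmt : Prop :=
  ∀ (E : Type) [NormedAddCommGroup E] [InnerProductSpace ℝ E] [FiniteDimensional ℝ E]
    (K L : Set E), UC K L → ∀ a ∈ Dir K, a ∉ interior (Dir K) → ∀ m : E, m ≠ 0 → ⟪m, a⟫ = 0 →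
    (∀ u ∈ interior (Dir L \ Dir K), 0 < ⟪m, u⟫) →
    (∀ v : E, ⟪m, v⟫ ≠ 0 → ∃ q ∈ interior (Dir L \ Dir K), q ∈ Submodule.span ℝ {a, v}) →
    ∃ (x : E) (l : ℝ), Hom K L ⊤ x l

/-- **A5.** Centred supporting plane. -/
def CentredStmt : Prop :=
  ∀ (E : Type) [NormedAddCommGroup E] [InnerProductSpace ℝ E] [FiniteDimensional ℝ E]
    (K L : Set E), UC K L → ∀ b ∈ interior (Dir L), b ∉ Dir K → b ∉ interior (Dir L \ Dir K) →
    -b ∈ interior (Dir K) → ∀ V : Submodule ℝ E, Module.finrank ℝ V = 3 → b ∈ V →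
    (interior (Dir L \ Dir K) ∩ (V : Set E)).Nonempty →
    ∃ S : Submodule ℝ E, S ≤ V ∧ Module.finrank ℝ S = 2 ∧ b ∈ S ∧
      (∀ q ∈ interior (Dir L \ Dir K), q ∉ S) ∧ (∃ c l : ℝ, Hom K L S (c • b) l) ∧
      ∀ e ∈ interior (Dir K), e ∈ S → b - e ∉ interior (Dir K)

/-- **A6.** The boundary of `U` does not meet `interior (Dir L)`. -/
def BdryStmt : Prop :=
  ∀ (E : Type) [NormedAddCommGroup E] [InnerProductSpace ℝ E] [FiniteDimensional ℝ E]
    (K L : Set E), UC K L → (∃ (x : E) (l : ℝ), Hom K L ⊤ x l) ∨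
      ∀ b ∈ interior (Dir L), b ∈ closure (interior (Dir L \ Dir K)) →
        b ∈ interior (Dir L \ Dir K)

/-- **A7.** Last step. -/
def LastStmt : Prop :=
  ∀ (E : Type) [NormedAddCommGroup E] [InnerProductSpace ℝ E] [FiniteDimensional ℝ E]
    (K L : Set E), UC K L →
    (∀ b ∈ interior (Dir L), b ∈ closure (interior (Dir L \ Dir K)) →
        b ∈ interior (Dir L \ Dir K)) →
    (0 : E) ∉ interior (convexHull ℝ L)

end Pool.Agent.H63.SB
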