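import Pool.Agent.H63.SB.Tk
import Pool.Agent.H63.SB.Targets
import Pool.Agent.H63.Star.GaugeThm

/-!
# Star bodies with homothetic sections: the origin in the interior of both bodies
-/

namespace Pool.Agent.H63.SB

open Set Filter Topology
open scoped RealInnerProductSpace

variable {E : Type*} [NormedAddCommGroup E] [InnerProductSpace ℝ E]
variable {K L : Set E}

theorem rad_zero (h0 : (0 : E) ∈ K) : rad K (0 : E) = 0 := by
  have h : {t : ℝ | 0 ≤ t ∧ t • (0 : E) ∈ K} = Ici 0 := by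
    ext t
    simp [h0]
  rw [rad, h]
  exact Real.sSup_of_not_bddAbove (not_bddAbove_Ici 0)

theorem gauge_le_one (hK : StarB K) (hall : ∀ z : E, z ≠ 0 → z ∈ Dir K) (z : E) :
    (rad K z)⁻¹ ≤ 1 ↔ z ∈ K := by
  by_cases hz : z = 0
  · subst hz
    rw [rad_zero hK.zero_mem]
    simp [hK.zero_mem]
  · rw [hK.mem_iff hz]
    exact inv_le_one₀ (hK.rad_pos (hall z hz))

theorem isGauge_inv_rad [FiniteDimensional ℝ E] (hK : StarB K)
    (hall : ∀ z : E, z ≠ 0 → z ∈ Dir K) :
    Pool.Agent.H63.Star.IsGauge fun z : E => (rad K z)⁻¹ := by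
  have hhom : ∀ (t : ℝ) (x : E), 0 ≤ t → (rad K (t • x))⁻¹ = t * (rad K x)⁻¹ := by
    intro t x ht
    rcases ht.eq_or_lt with rfl | ht
    · rw [zero_smul, rad_zero hK.zero_mem, inv_zero, zero_mul]
    · rw [rad_smul ht, inv_div, div_eq_mul_inv]
  have hDir : Dir K = {0}ᶜ := by
    ext z
    exact ⟨fun h => h.1, fun h => hall z h⟩
  have hct : ContinuousOn (fun z : E => (rad K z)⁻¹) {0}ᶜ := by
    have h1 := hK.cont
    rw [hDir] at h1
    exact h1.inv₀ fun z hz => (hK.rad_pos (hall z hz)).ne'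
  refine ⟨?_, hhom, fun x hx => inv_pos.2 (hK.rad_pos (hall x hx))⟩
  rw [continuous_iff_continuousAt]
  intro z
  by_cases hz : z = 0
  · subst hz
    obtain ⟨C, hC⟩ := (isCompact_sphere (0 : E) 1).exists_bound_of_continuousOn
      (hct.mono fun z hz => by
        rintro rfl
        simp at hz)
    have hb : ∀ z : E, ‖(rad K z)⁻¹‖ ≤ C * ‖z‖ := by
      intro z
      by_cases hz : z = 0
      · subst hz
        rw [rad_zero hK.zero_mem]
        simp
      · have h1 := hC (‖z‖⁻¹ • z) (by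
          rw [mem_sphere_zero_iff_norm, norm_smul, norm_inv, norm_norm,
            inv_mul_cancel₀ (norm_ne_zero_iff.2 hz)])
        rw [hhom _ _ (inv_nonneg.2 (norm_nonneg z)), norm_mul, norm_inv, norm_norm] at h1
        rw [inv_mul_le_iff₀ (norm_pos_iff.2 hz)] at h1
        linarith
    rw [ContinuousAt, rad_zero hK.zero_mem, inv_zero]
    refine squeeze_zero_norm hb ?_
    have : Tendsto (fun z : E => C * ‖z‖) (𝓝 0) (𝓝 (C * ‖(0 : E)‖)) :=
      (continuous_const.mul continuous_norm).tendsto 0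
    simpa using this
  · exact hct.continuousAt (isOpen_compl_singleton.mem_nhds hz)

theorem caseFull : CaseFullStmt := by
  intro E _ _ _ K L k hK hL hKa hLa hk hkn hA
  have key : ∀ (S : Submodule ℝ E) (x : E) (l : ℝ),
      Pool.Agent.H63.Star.Rel (fun z : E => (rad K z)⁻¹) (fun z : E => (rad L z)⁻¹) S x l ↔
        Hom K L S x l := by
    intro S x l
    unfold Pool.Agent.H63.Star.Rel Hom
    simp only [gauge_le_one hK hKa, gauge_le_one hL hLa]
  obtain ⟨x, l, h⟩ := Pool.Agent.H63.Star.gaugeThm E _ _ k (isGauge_inv_rad hK hKa)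
    (isGauge_inv_rad hL hLa) hk hkn (fun S hS => by
      obtain ⟨x, l, h⟩ := hA S hS
      exact ⟨x, l, (key S x l).2 h⟩)
  exact ⟨x, l, (key ⊤ x l).1 h⟩

end Pool.Agent.H63.SB
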