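import Pool.Agent.H63.SB.Tk
import Pool.Agent.H63.SB.Targets

/-!
# Star bodies with homothetic sections: uniqueness of the limit homothety (D3)
-/

namespace Pool.Agent.H63.SB

open Set Filter Topology
open scoped RealInnerProductSpace

section RI

variable {E : Type*} [NormedAddCommGroup E] [InnerProductSpace ℝ E]
variable {K L : Set E}

/-- Relative interior in the subspace `S`. -/
def RI (S : Submodule ℝ E) (A : Set E) : Set E :=
  {z | z ∈ S ∧ ∃ ε : ℝ, 0 < ε ∧ ∀ v ∈ S, dist v z < ε → v ∈ A}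

/-- The part of `K` in the directions `D`, with the origin. -/
def KP (K D : Set E) : Set E := {z | z = 0 ∨ (z ∈ K ∧ z ∈ D)}

theorem RI_sub {S : Submodule ℝ E} {A : Set E} : RI S A ⊆ A := by
  rintro z ⟨hz, ε, hε, h⟩
  exact h z hz (by simpa using hε)

theorem RI_mono {S : Submodule ℝ E} {A B : Set E} (h : RI S A ⊆ B) : RI S A ⊆ RI S B := by
  rintro z ⟨hz, ε, hε, h1⟩
  refine ⟨hz, ε, hε, fun v hv hd => h ⟨hv, ε - dist v z, by linarith, fun w hw hwd => ?_⟩⟩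
  exact h1 w hw (by linarith [dist_triangle w v z])

theorem RI_KP {S : Submodule ℝ E} {D D' : Set E} (h : RI S D ⊆ D') :
    RI S (KP K D) ⊆ RI S (KP K D') := by
  refine RI_mono ?_
  rintro v ⟨hv, ε, hε, h1⟩
  by_cases hv0 : v = 0
  · exact Or.inl hv0
  · refine Or.inr ?_
    rcases h1 v hv (by simpa using hε) with h2 | h2
    · exact absurd h2 hv0
    · refine ⟨h2.1, h ⟨hv, min ε ‖v‖, lt_min hε (norm_pos_iff.2 hv0), fun w hw hwd => ?_⟩⟩
      rcases h1 w hw (lt_of_lt_of_le hwd (min_le_left _ _)) with h3 | h3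
      · exfalso
        have := lt_of_lt_of_le hwd (min_le_right _ _)
        rw [h3, dist_eq_norm, zero_sub, norm_neg] at this
        exact lt_irrefl _ this
      · exact h3.2

theorem GHom.ri {S : Submodule ℝ E} {D₁ D₂ : Set E} {x : E} {l : ℝ}
    (h : GHom K L S D₁ D₂ x l) {z : E} (hz : z ∈ S) :
    x + l • z ∈ RI S (KP K D₁) ↔ z ∈ RI S (KP L D₂) := by
  have hl := h.pos
  constructor
  · rintro ⟨-, ε, hε, h1⟩
    refine ⟨hz, ε / l, by positivity, fun v hv hd => ?_⟩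
    refine (h.iff v hv).1 (h1 _ (S.add_mem h.mem (S.smul_mem _ hv)) ?_)
    rw [dist_eq_norm, add_sub_add_left_eq_sub, ← smul_sub, norm_smul, Real.norm_of_nonneg hl.le,
      ← dist_eq_norm]
    rw [lt_div_iff₀ hl] at hd
    linarith
  · rintro ⟨-, ε, hε, h1⟩
    refine ⟨S.add_mem h.mem (S.smul_mem _ hz), l * ε, by positivity, fun w hw hd => ?_⟩
    have hv : l⁻¹ • (w - x) ∈ S := S.smul_mem _ (S.sub_mem hw h.mem)
    have hw' : x + l • (l⁻¹ • (w - x)) = w := by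
      rw [smul_smul, mul_inv_cancel₀ hl.ne', one_smul, add_sub_cancel]
    have hd' : dist (l⁻¹ • (w - x)) z < ε := by
      have e : l⁻¹ • (w - x) - z = l⁻¹ • (w - (x + l • z)) := by
        rw [smul_sub l⁻¹ w (x + l • z), smul_add, smul_smul, inv_mul_cancel₀ hl.ne', one_smul,
          smul_sub]
        abel
      rw [dist_eq_norm, e, norm_smul, norm_inv, Real.norm_of_nonneg hl.le, ← dist_eq_norm,
        inv_mul_lt_iff₀ hl]
      exact hd
    have h2 := (h.iff _ hv).2 (h1 _ hv hd')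
    rwa [hw'] at h2

theorem GHom.unique_ri_aux {S : Submodule ℝ E} {D₁ D₂ D₁' D₂' : Set E} {x x' : E} {l l' : ℝ}
    (hL : StarB L) (h : GHom K L S D₁ D₂ x l)
    (h' : GHom K L S D₁' D₂' x' l') (hll : l ≤ l')
    (e1 : RI S (KP K D₁') ⊆ RI S (KP K D₁)) (e2 : RI S (KP L D₂) ⊆ RI S (KP L D₂'))
    {p q : E} (hp : p ∈ RI S (KP L D₂)) (hq : q ∈ RI S (KP L D₂)) (hpq : p ≠ q) :
    x = x' ∧ l = l' := by
  have hl := h.pos
  obtain ⟨R, hR, hRL⟩ := hL.bounded
  have hM : ∀ z ∈ RI S (KP L D₂), ‖z‖ ≤ R := by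
    intro z hz
    rcases RI_sub hz with hz | hz
    · rw [hz, norm_zero]; exact hR.le
    · exact hRL z hz.1
  have hg : ∀ z ∈ RI S (KP L D₂), l⁻¹ • (x' - x) + (l' / l) • z ∈ RI S (KP L D₂) := by
    intro z hz
    have hzS : z ∈ S := hz.1
    have hwS : l⁻¹ • (x' - x) + (l' / l) • z ∈ S :=
      S.add_mem (S.smul_mem _ (S.sub_mem h'.mem h.mem)) (S.smul_mem _ hzS)
    apply (h.ri hwS).1
    have e : x + l • (l⁻¹ • (x' - x) + (l' / l) • z) = x' + l' • z := by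
      rw [smul_add, smul_smul, smul_smul, mul_inv_cancel₀ hl.ne', mul_div_cancel₀ _ hl.ne',
        one_smul]
      abel
    rw [e]
    exact e1 ((h'.ri hzS).2 (e2 hz))
  obtain ⟨h1, h2⟩ := affine_aux hM ((one_le_div hl).2 hll) hg hp hq hpq
  refine ⟨?_, ?_⟩
  · have h3 := (smul_eq_zero.1 h1).resolve_left (inv_pos.2 hl).ne'
    exact (sub_eq_zero.1 h3).symm
  · rw [div_eq_one_iff_eq hl.ne'] at h2
    exact h2.symm

theorem GHom.unique_ri {S : Submodule ℝ E} {D₁ D₂ D₁' D₂' : Set E} {x x' : E} {l l' : ℝ}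
    (hL : StarB L) (h : GHom K L S D₁ D₂ x l)
    (h' : GHom K L S D₁' D₂' x' l')
    (e1 : RI S (KP K D₁) = RI S (KP K D₁')) (e2 : RI S (KP L D₂) = RI S (KP L D₂'))
    {p q : E} (hp : p ∈ RI S (KP L D₂)) (hq : q ∈ RI S (KP L D₂)) (hpq : p ≠ q) :
    x = x' ∧ l = l' := by
  rcases le_total l l' with hll | hll
  · exact h.unique_ri_aux hL h' hll e1.symm.subset e2.subset hp hq hpq
  · have := h'.unique_ri_aux hL h hll e1.subset e2.symm.subset (e2 ▸ hp) (e2 ▸ hq) hpq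
    exact ⟨this.1.symm, this.2.symm⟩

/-- Interior directions give points of the relative interior. -/
theorem StarB.two_points (hL : StarB L) {S : Submodule ℝ E} {D : Set E}
    (hD : interior (Dir L) ∩ (S : Set E) ⊆ D)
    (hne : (interior (Dir L) ∩ (S : Set E)).Nonempty) :
    ∃ p q, p ∈ RI S (KP L D) ∧ q ∈ RI S (KP L D) ∧ p ≠ q := by
  obtain ⟨z, hz, hzS⟩ := hne
  have hz' : z ∈ Dir L := interior_subset hz
  have hr := hL.rad_pos hz'
  have key : ∀ c : ℝ, 0 < c → c < rad L z → c • z ∈ RI S (KP L D) := by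
    intro c hc hc'
    have h1 : c • z ∈ interior (Dir L) := (smul_mem_interior_Dir hc).2 hz
    have h2 : c • z ∈ interior L := by
      refine hL.mem_interior h1 ?_
      rw [rad_smul hc, lt_div_iff₀ hc]
      linarith
    have h3 : c • z ∈ interior (Dir L) ∩ interior L := ⟨h1, h2⟩
    obtain ⟨ε, hε, h4⟩ := Metric.isOpen_iff.1 (isOpen_interior.inter isOpen_interior) _ h3
    refine ⟨S.smul_mem _ hzS, ε, hε, fun v hv hd => Or.inr ?_⟩
    have h5 := h4 (Metric.mem_ball.2 hd)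
    exact ⟨interior_subset h5.2, hD ⟨h5.1, hv⟩⟩
  refine ⟨_, _, key (rad L z / 2) (by linarith) (by linarith),
    key (rad L z / 4) (by linarith) (by linarith), fun h => ?_⟩
  have h1 : (rad L z / 2 - rad L z / 4) • z = 0 := by rw [sub_smul, h, sub_self]
  rcases smul_eq_zero.1 h1 with h1 | h1
  · linarith
  · exact hz'.1 h1

end RI

theorem ri_sub_lim {E : Type} [NormedAddCommGroup E] [InnerProductSpace ℝ E]
    [FiniteDimensional ℝ E] {K : Set E} (hK : StarB K) {ν' : ℕ → E} {ν₀ : E} (h0 : ν₀ ≠ 0)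
    (hν' : Tendsto ν' atTop (𝓝 ν₀))
    (hbad : ∀ i m : ℕ, (∀ v ∈ Metric.ball (TopologicalSpace.denseSeq E i) (1 / ((m : ℝ) + 1)),
      v ∈ closure (Dir K) → v ∈ Dir K) →
      ν₀ ∉ Bad (Dir K) (TopologicalSpace.denseSeq E i) (1 / ((m : ℝ) + 1)))
    {D : Set E} (hD : D ⊆ Dir K) :
    RI (Submodule.span ℝ {ν₀})ᗮ D ⊆
      Lim K (fun n => (Submodule.span ℝ {ν' n})ᗮ) (Submodule.span ℝ {ν₀})ᗮ := by
  have hmem : ∀ ν v : E, v ∈ (Submodule.span ℝ {ν})ᗮ ↔ ⟪ν, v⟫ = 0 := fun ν v =>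
    Submodule.mem_orthogonal_singleton_iff_inner_right
  rintro u ⟨huS, ε, hε, hu⟩
  by_contra hcon
  have huD : u ∈ Dir K := hD (hu u huS (by simpa using hε))
  -- the holes
  have hholes : ∃ ε₁ : ℝ, 0 < ε₁ ∧ ∃ᶠ n in atTop,
      ¬ (Dir K ∩ ((Submodule.span ℝ {ν' n})ᗮ : Set E) ∩ Metric.ball u ε₁).Nonempty := by
    by_contra hno
    push Not at hno
    exact hcon ⟨huD, huS, fun ε₁ hε₁ => hno ε₁ hε₁⟩
  obtain ⟨ε₁, hε₁, hfr⟩ := hholes
  obtain ⟨ε₂, hε₂, hcl⟩ := hK.loc_closed huD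
  set δ : ℝ := min ε (min ε₁ ε₂) with hδ
  have hδpos : 0 < δ := lt_min hε (lt_min hε₁ hε₂)
  obtain ⟨m, hm⟩ := exists_nat_gt (2 / δ)
  set r : ℝ := 1 / ((m : ℝ) + 1) with hr
  have hrpos : 0 < r := by positivity
  have hrδ : 2 * r < δ := by
    have h1 : 2 / δ < (m : ℝ) + 1 := by linarith
    rw [div_lt_iff₀ hδpos] at h1
    rw [hr, mul_one_div, div_lt_iff₀ (by positivity)]
    linarith
  obtain ⟨i, hi⟩ : ∃ i, dist u (TopologicalSpace.denseSeq E i) < r / 8 := by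
    obtain ⟨y, hy, ⟨i, rfl⟩⟩ := Metric.dense_iff.1 (TopologicalSpace.denseRange_denseSeq E) u (r / 8)
      (by positivity)
    exact ⟨i, by rw [dist_comm]; exact hy⟩
  set c := TopologicalSpace.denseSeq E i with hc
  have hball : ∀ v ∈ Metric.ball c r, dist v u < δ := by
    intro v hv
    have h1 := Metric.mem_ball.1 hv
    have h2 := dist_triangle v c u
    rw [dist_comm c u] at h2
    linarith
  have h1 : ∀ v ∈ Metric.ball c r, v ∈ closure (Dir K) → v ∈ Dir K := fun v hv hv' =>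
    hcl v (Metric.mem_ball.2 (lt_of_lt_of_le (hball v hv)
      ((min_le_right _ _).trans (min_le_right _ _)))) hv'
  refine hbad i m h1 ⟨h0, fun v hv hv' => hD (hu v ((hmem _ _).2 hv')
    (lt_of_lt_of_le (hball v hv) (min_le_left _ _))), ⟨u, ?_, (hmem _ _).1 huS⟩, ?_⟩
  · rw [Metric.mem_closedBall]
    exact hi.le
  · refine mem_closure_of_frequently_of_tendsto ?_ hν'
    refine hfr.mono fun n hn v hv hv' hvD => hn ⟨v, ⟨hvD, (hmem _ _).2 hv'⟩, ?_⟩
    exact Metric.mem_ball.2 (lt_of_lt_of_le (hball v hv)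
      ((min_le_right _ _).trans (min_le_left _ _)))

theorem uniq : UniqStmt := by
  intro E _ _ _ K L hK hL ν ν' ν₀ x x' l l' x₀ x₀' l₀ l₀' h0 hν hν' hne1 hne2 hh hh' hx hl hl0
    hx' hl' hl0' hb1 hb2
  have g := gHom_of_tendsto hK hL (pconv_orth hν h0) (Eventually.of_forall hh) hx hl hl0
  have g' := gHom_of_tendsto hK hL (pconv_orth hν' h0) (Eventually.of_forall hh') hx' hl' hl0'
  have a1 := ri_sub_lim hK h0 hν' hb1 (D := Lim K (fun n => (Submodule.span ℝ {ν n})ᗮ)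
    (Submodule.span ℝ {ν₀})ᗮ) fun v hv => hv.1
  have a2 := ri_sub_lim hK h0 hν hb1 (D := Lim K (fun n => (Submodule.span ℝ {ν' n})ᗮ)
    (Submodule.span ℝ {ν₀})ᗮ) fun v hv => hv.1
  have b1 := ri_sub_lim hL h0 hν' hb2 (D := Lim L (fun n => (Submodule.span ℝ {ν n})ᗮ)
    (Submodule.span ℝ {ν₀})ᗮ) fun v hv => hv.1
  have b2 := ri_sub_lim hL h0 hν hb2 (D := Lim L (fun n => (Submodule.span ℝ {ν' n})ᗮ)
    (Submodule.span ℝ {ν₀})ᗮ) fun v hv => hv.1
  obtain ⟨p, q, hp, hq, hpq⟩ := hL.two_points (interior_sub_Lim (pconv_orth hν h0)) hne2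
  exact g.unique_ri hL g' (subset_antisymm (RI_KP a1) (RI_KP a2))
    (subset_antisymm (RI_KP b1) (RI_KP b2)) hp hq hpq

end Pool.Agent.H63.SB
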