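import Pool.Agent.H63.SB.Tk
import Pool.Agent.H63.SB.Targets

/-!
# Star bodies with homothetic sections: descent in codimension one (D4)
-/

namespace Pool.Agent.H63.SB

open Set Filter Topology
open scoped RealInnerProductSpace

section AccSec

variable {E : Type} [NormedAddCommGroup E] [InnerProductSpace ℝ E]
variable {K L : Set E}

/-- Accumulation homotheties at the hyperplane orthogonal to `ν`. -/
def Acc (K L : Set E) (ν x : E) (l : ℝ) : Prop :=
  0 < l ∧ ∃ (νs xs : ℕ → E) (ls : ℕ → ℝ), Tendsto νs atTop (𝓝 ν) ∧ Tendsto xs atTop (𝓝 x) ∧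
    Tendsto ls atTop (𝓝 l) ∧ ∀ n, Hom K L (Submodule.span ℝ {νs n})ᗮ (xs n) (ls n)

theorem Acc.neg {ν x : E} {l : ℝ} (h : Acc K L ν x l) : Acc K L (-ν) x l := by
  obtain ⟨hl, νs, xs, ls, h1, h2, h3, h4⟩ := h
  refine ⟨hl, fun n => -νs n, xs, ls, h1.neg, h2, h3, fun n => ?_⟩
  have e : Submodule.span ℝ {-νs n} = Submodule.span ℝ {νs n} := by
    rw [← Set.neg_singleton, Submodule.span_neg]
  rw [e]
  exact h4 n

theorem acc_hom [FiniteDimensional ℝ E] (hK : StarB K) (hL : StarB L) {ν x : E} {l : ℝ}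
    (h : Acc K L ν x l) (h0 : ν ≠ 0) {W : Submodule ℝ E} (hW : W ≤ (Submodule.span ℝ {ν})ᗮ)
    (hx : x ∈ W) (hKW : Reg K W) (hLW : Reg L W) : Hom K L W x l := by
  obtain ⟨hl, νs, xs, ls, h1, h2, h3, h4⟩ := h
  have hp := pconv_orth h1 h0
  have g := gHom_of_tendsto hK hL hp (Eventually.of_forall h4) h2 h3 hl
  have g' := g.mono hW hx
  refine g'.hom hK hL ?_ ?_
  · rintro z ⟨hz, hzW⟩
    refine ⟨Lim_closed hz (hW hzW) ?_, hzW⟩
    refine closure_mono ?_ (hKW ⟨hz, hzW⟩)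
    exact (inter_subset_inter_right _ hW).trans (interior_sub_Lim hp)
  · rintro z ⟨hz, hzW⟩
    refine ⟨Lim_closed hz (hW hzW) ?_, hzW⟩
    refine closure_mono ?_ (hLW ⟨hz, hzW⟩)
    exact (inter_subset_inter_right _ hW).trans (interior_sub_Lim hp)

theorem finrank_orth_singleton [FiniteDimensional ℝ E] {ν : E} (h0 : ν ≠ 0) {m : ℕ}
    (hm : Module.finrank ℝ E = m + 1) :
    Module.finrank ℝ (Submodule.span ℝ {ν})ᗮ = m := by
  have h1 := (Submodule.span ℝ {ν}).finrank_add_finrank_orthogonal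
  rw [finrank_span_singleton h0, hm] at h1
  omega

theorem exists_interior_of_pconv {S : ℕ → Submodule ℝ E} {T : Submodule ℝ E} (h : PConv S T)
    (hne : (interior (Dir K) ∩ (T : Set E)).Nonempty) :
    ∀ᶠ n in atTop, (interior (Dir K) ∩ (S n : Set E)).Nonempty := by
  obtain ⟨v, hv, hvT⟩ := hne
  obtain ⟨ε, hε, hb⟩ := Metric.isOpen_iff.1 isOpen_interior v hv
  have h1 := (interior_sub_Lim h ⟨hv, hvT⟩ : v ∈ Lim K S T).2.2 ε hε
  filter_upwards [h1] with n hn
  obtain ⟨w, ⟨_, hw2⟩, hw3⟩ := hn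
  exact ⟨w, hb hw3, hw2⟩

theorem acc_compact [FiniteDimensional ℝ E] (hK : StarB K) (hL : StarB L) {ν : ℕ → E} {ν₀ : E}
    {x : ℕ → E} {l : ℕ → ℝ} (hν : Tendsto ν atTop (𝓝 ν₀)) (h0 : ν₀ ≠ 0)
    (hne1 : (interior (Dir K) ∩ ((Submodule.span ℝ {ν₀})ᗮ : Set E)).Nonempty)
    (hne2 : (interior (Dir L) ∩ ((Submodule.span ℝ {ν₀})ᗮ : Set E)).Nonempty)
    (h : ∀ n, Acc K L (ν n) (x n) (l n)) :
    ∃ (φ : ℕ → ℕ) (x' : E) (l' : ℝ), StrictMono φ ∧ Tendsto (x ∘ φ) atTop (𝓝 x') ∧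
      Acc K L ν₀ x' l' := by
  have h1 : ∀ n : ℕ, ∃ (μ y : E) (k : ℝ), dist μ (ν n) < 1 / ((n : ℝ) + 1) ∧
      dist y (x n) < 1 / ((n : ℝ) + 1) ∧ Hom K L (Submodule.span ℝ {μ})ᗮ y k := by
    intro n
    obtain ⟨hl, νs, xs, ls, a1, a2, a3, a4⟩ := h n
    have hpos : (0 : ℝ) < 1 / ((n : ℝ) + 1) := by positivity
    obtain ⟨i, hi1, hi2⟩ := ((a1.eventually (Metric.ball_mem_nhds _ hpos)).and
      (a2.eventually (Metric.ball_mem_nhds _ hpos))).exists
    exact ⟨νs i, xs i, ls i, hi1, hi2, a4 i⟩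
  choose μ y k hμ hy hh using h1
  have ht : Tendsto (fun n : ℕ => 1 / ((n : ℝ) + 1)) atTop (𝓝 0) :=
    tendsto_one_div_add_atTop_nhds_zero_nat
  have hμ0 : Tendsto μ atTop (𝓝 ν₀) := by
    rw [tendsto_iff_dist_tendsto_zero] at hν ⊢
    refine squeeze_zero (fun n => dist_nonneg) (fun n => dist_triangle (μ n) (ν n) ν₀) ?_
    have h2 : Tendsto (fun n => dist (μ n) (ν n)) atTop (𝓝 0) :=
      squeeze_zero (fun n => dist_nonneg) (fun n => (hμ n).le) ht
    simpa using h2.add hν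
  have hp := pconv_orth hμ0 h0
  obtain ⟨φ, x', l', hφ, hx', hl', hl0, -⟩ := exists_limit hK hL hp (Eventually.of_forall hh)
    (hne1.mono (interior_sub_Lim hp)) (hne2.mono (interior_sub_Lim hp))
  refine ⟨φ, x', l', hφ, ?_, hl0, μ ∘ φ, y ∘ φ, k ∘ φ, hμ0.comp hφ.tendsto_atTop, hx', hl',
    fun n => hh _⟩
  rw [tendsto_iff_dist_tendsto_zero] at hx' ⊢
  refine squeeze_zero (fun n => dist_nonneg) (fun n => dist_triangle_left _ _ (y (φ n))) ?_
  have h3 : Tendsto (fun n => dist (y n) (x n)) atTop (𝓝 0) :=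
    squeeze_zero (fun n => dist_nonneg) (fun n => (hy n).le) ht
  have h4 := (h3.comp hφ.tendsto_atTop).add hx'
  simpa using h4

theorem acc_exists [FiniteDimensional ℝ E] (hK : StarB K) (hL : StarB L) {j : ℕ}
    (hdim : Module.finrank ℝ E = j + 2) (hRH : RegHom K L (j + 1)) {ν₀ : E} (h0 : ν₀ ≠ 0)
    (hne1 : (interior (Dir K) ∩ ((Submodule.span ℝ {ν₀})ᗮ : Set E)).Nonempty)
    (hne2 : (interior (Dir L) ∩ ((Submodule.span ℝ {ν₀})ᗮ : Set E)).Nonempty) :
    ∃ (x : E) (l : ℝ), Acc K L ν₀ x l := by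
  have hres := (residual_orth hK).and (residual_orth hL)
  have hd : Dense {ν : E | Reg K (Submodule.span ℝ {ν})ᗮ ∧ Reg L (Submodule.span ℝ {ν})ᗮ} :=
    dense_of_mem_residual hres
  have h1 : ∀ n : ℕ, ∃ μ : E, dist μ ν₀ < 1 / ((n : ℝ) + 1) ∧
      Reg K (Submodule.span ℝ {μ})ᗮ ∧ Reg L (Submodule.span ℝ {μ})ᗮ := by
    intro n
    obtain ⟨μ, hμ, h2⟩ := Metric.dense_iff.1 hd ν₀ (1 / ((n : ℝ) + 1)) (by positivity)
    exact ⟨μ, hμ, h2⟩
  choose μ hμ hrK hrL using h1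
  have ht : Tendsto (fun n : ℕ => 1 / ((n : ℝ) + 1)) atTop (𝓝 0) :=
    tendsto_one_div_add_atTop_nhds_zero_nat
  have hμ0 : Tendsto μ atTop (𝓝 ν₀) := by
    rw [tendsto_iff_dist_tendsto_zero]
    exact squeeze_zero (fun n => dist_nonneg) (fun n => (hμ n).le) ht
  have hp := pconv_orth hμ0 h0
  have hev : ∀ᶠ n in atTop, ∃ (x : E) (l : ℝ), Hom K L (Submodule.span ℝ {μ n})ᗮ x l := by
    filter_upwards [exists_interior_of_pconv (K := K) hp hne1,
      exists_interior_of_pconv (K := L) hp hne2, hμ0.eventually_ne h0] with n a1 a2 a3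
    exact hRH _ (finrank_orth_singleton a3 hdim) (hrK n) (hrL n)
      (a1.mono (inter_subset_inter_left _ interior_subset))
      (a2.mono (inter_subset_inter_left _ interior_subset))
  obtain ⟨N, hN⟩ := eventually_atTop.1 hev
  have hN' : ∀ n, ∃ (x : E) (l : ℝ), Hom K L (Submodule.span ℝ {μ (n + N)})ᗮ x l := fun n =>
    hN (n + N) (Nat.le_add_left N n)
  choose x l hh using hN'
  have hμ1 : Tendsto (fun n => μ (n + N)) atTop (𝓝 ν₀) := hμ0.comp (tendsto_add_atTop_nat N)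
  have hp1 := pconv_orth hμ1 h0
  obtain ⟨φ, x', l', hφ, hx', hl', hl0, -⟩ := exists_limit hK hL hp1 (Eventually.of_forall hh)
    (hne1.mono (interior_sub_Lim hp1)) (hne2.mono (interior_sub_Lim hp1))
  exact ⟨x', l', hl0, (fun n => μ (n + N)) ∘ φ, x ∘ φ, l ∘ φ, hμ1.comp hφ.tendsto_atTop, hx', hl',
    fun n => hh _⟩

end AccSec

/-- Good frames span homothetic sections. -/
theorem good_W (hU : UniqStmt) {E : Type} [NormedAddCommGroup E] [InnerProductSpace ℝ E]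
    [FiniteDimensional ℝ E] {K L : Set E} (hK : StarB K) (hL : StarB L) {j : ℕ}
    (hdim : Module.finrank ℝ E = j + 2) (hRH : RegHom K L (j + 1)) {W : Submodule ℝ E}
    (hW : Module.finrank ℝ W = j) (hKW : Reg K W) (hLW : Reg L W)
    (hne1 : (interior (Dir K) ∩ (W : Set E)).Nonempty)
    (hne2 : (interior (Dir L) ∩ (W : Set E)).Nonempty)
    (hb1 : ∀ i m : ℕ, (∀ v ∈ Metric.ball (TopologicalSpace.denseSeq E i) (1 / ((m : ℝ) + 1)),
      v ∈ closure (Dir K) → v ∈ Dir K) →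
      ∀ ν ∈ Bad (Dir K) (TopologicalSpace.denseSeq E i) (1 / ((m : ℝ) + 1)), ν ∉ Wᗮ)
    (hb2 : ∀ i m : ℕ, (∀ v ∈ Metric.ball (TopologicalSpace.denseSeq E i) (1 / ((m : ℝ) + 1)),
      v ∈ closure (Dir L) → v ∈ Dir L) →
      ∀ ν ∈ Bad (Dir L) (TopologicalSpace.denseSeq E i) (1 / ((m : ℝ) + 1)), ν ∉ Wᗮ) :
    ∃ (x : E) (l : ℝ), Hom K L W x l := by
  have hW2 : Module.finrank ℝ Wᗮ = 2 := by
    have h1 := W.finrank_add_finrank_orthogonal
    rw [hW, hdim] at h1
    omega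
  let B : OrthonormalBasis (Fin 2) ℝ Wᗮ := (stdOrthonormalBasis ℝ Wᗮ).reindex (finCongr hW2)
  set e₁ : E := (B 0 : E) with he1
  set e₂ : E := (B 1 : E) with he2
  have n1 : ⟪e₁, e₁⟫ = 1 := by
    have := B.orthonormal.1 0
    rw [real_inner_self_eq_norm_sq]
    have h2 : ‖e₁‖ = 1 := this
    rw [h2]; norm_num
  have n2 : ⟪e₂, e₂⟫ = 1 := by
    have := B.orthonormal.1 1
    rw [real_inner_self_eq_norm_sq]
    have h2 : ‖e₂‖ = 1 := this
    rw [h2]; norm_num
  have n3 : ⟪e₁, e₂⟫ = 0 := B.orthonormal.2 (by decide : (0 : Fin 2) ≠ 1)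
  have n4 : ⟪e₂, e₁⟫ = 0 := by rw [real_inner_comm]; exact n3
  have hm1 : e₁ ∈ Wᗮ := (B 0).2
  have hm2 : e₂ ∈ Wᗮ := (B 1).2
  have hspan : ∀ y ∈ Wᗮ, ∃ s t : ℝ, y = s • e₁ + t • e₂ := by
    intro y hy
    have h1 := B.sum_repr ⟨y, hy⟩
    rw [Fin.sum_univ_two] at h1
    refine ⟨B.repr ⟨y, hy⟩ 0, B.repr ⟨y, hy⟩ 1, ?_⟩
    have h2 := congrArg (fun z : Wᗮ => (z : E)) h1
    simpa using h2.symm
  let ν : ℝ → E := fun θ => Real.cos θ • e₁ + Real.sin θ • e₂
  let nn : ℝ → E := fun θ => -Real.sin θ • e₁ + Real.cos θ • e₂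
  have hνm : ∀ θ, ν θ ∈ Wᗮ := fun θ =>
    Wᗮ.add_mem (Wᗮ.smul_mem _ hm1) (Wᗮ.smul_mem _ hm2)
  have hν0 : ∀ θ, ν θ ≠ 0 := by
    intro θ h
    have h1 : ⟪ν θ, e₁⟫ = Real.cos θ := by
      simp only [ν, inner_add_left, inner_smul_left, n1, n4]
      simp
    have h2 : ⟪ν θ, e₂⟫ = Real.sin θ := by
      simp only [ν, inner_add_left, inner_smul_left, n2, n3]
      simp
    rw [h, inner_zero_left] at h1 h2
    have h3 := Real.sin_sq_add_cos_sq θ
    rw [← h1, ← h2] at h3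
    norm_num at h3
  have hWν : ∀ θ, W ≤ (Submodule.span ℝ {ν θ})ᗮ := by
    intro θ w hw
    rw [Submodule.mem_orthogonal_singleton_iff_inner_right]
    rw [real_inner_comm]
    exact (Submodule.mem_orthogonal W _).1 (hνm θ) w hw
  have hi1 : ∀ θ, (interior (Dir K) ∩ ((Submodule.span ℝ {ν θ})ᗮ : Set E)).Nonempty := fun θ =>
    hne1.mono (inter_subset_inter_right _ (hWν θ))
  have hi2 : ∀ θ, (interior (Dir L) ∩ ((Submodule.span ℝ {ν θ})ᗮ : Set E)).Nonempty := fun θ =>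
    hne2.mono (inter_subset_inter_right _ (hWν θ))
  have hex : ∀ θ, ∃ (x : E) (l : ℝ), Acc K L (ν θ) x l := fun θ =>
    acc_exists hK hL hdim hRH (hν0 θ) (hi1 θ) (hi2 θ)
  choose x l hacc using hex
  have huniq : ∀ (θ : ℝ) (y : E) (k : ℝ), Acc K L (ν θ) y k → y = x θ := by
    intro θ y k hy
    obtain ⟨hk, μ, ys, ks, a1, a2, a3, a4⟩ := hy
    obtain ⟨hl, μ', ys', ks', b1, b2, b3, b4⟩ := hacc θ
    exact (hU E K L hK hL μ μ' (ν θ) ys ys' ks ks' y (x θ) k (l θ) (hν0 θ) a1 b1 (hi1 θ) (hi2 θ)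
      a4 b4 a2 a3 hk b2 b3 hl (fun i m h hb => hb1 i m h _ hb (hνm θ))
      (fun i m h hb => hb2 i m h _ hb (hνm θ))).1
  have hνc : Continuous ν := by
    simp only [ν]
    fun_prop
  have hnc : Continuous nn := by
    simp only [nn]
    fun_prop
  have hxc : Continuous x := by
    rw [continuous_iff_continuousAt]
    intro θ
    refine tendsto_of_subseq_tendsto fun ns hns => ?_
    obtain ⟨φ, x', l', hφ, hx', hA⟩ := acc_compact hK hL (ν := fun n => ν (ns n))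
      (x := fun n => x (ns n)) (l := fun n => l (ns n)) ((hνc.tendsto θ).comp hns) (hν0 θ)
      (hi1 θ) (hi2 θ) (fun n => hacc (ns n))
    rw [huniq θ x' l' hA] at hx'
    exact ⟨φ, hx'⟩
  have hxπ : x Real.pi = x 0 := by
    refine huniq 0 (x Real.pi) (l Real.pi) ?_
    have h1 : -ν Real.pi = ν 0 := by
      simp [ν]
    rw [← h1]
    exact (hacc Real.pi).neg
  have hnπ : nn Real.pi = -nn 0 := by
    simp [nn]
  let g : ℝ → ℝ := fun θ => ⟪x θ, nn θ⟫
  have hgc : Continuous g := hxc.inner hnc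
  have hgπ : g Real.pi = -g 0 := by
    simp only [g, hxπ, hnπ, inner_neg_right]
  obtain ⟨θ, hθ⟩ : ∃ θ, g θ = 0 := by
    rcases le_total (g 0) 0 with h | h
    · obtain ⟨θ, -, hθ⟩ := intermediate_value_Icc Real.pi_pos.le hgc.continuousOn
        (⟨h, by rw [hgπ]; linarith⟩ : (0 : ℝ) ∈ Icc (g 0) (g Real.pi))
      exact ⟨θ, hθ⟩
    · obtain ⟨θ, -, hθ⟩ := intermediate_value_Icc' Real.pi_pos.le hgc.continuousOn
        (⟨by rw [hgπ]; linarith, h⟩ : (0 : ℝ) ∈ Icc (g Real.pi) (g 0))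
      exact ⟨θ, hθ⟩
  have hxS : x θ ∈ (Submodule.span ℝ {ν θ})ᗮ := by
    obtain ⟨hl, μ', ys', ks', b1, b2, b3, b4⟩ := hacc θ
    exact (gHom_of_tendsto hK hL (pconv_orth b1 (hν0 θ)) (Eventually.of_forall b4) b2 b3 hl).mem
  have hxν : ⟪x θ, ν θ⟫ = 0 := by
    rw [real_inner_comm]
    exact Submodule.mem_orthogonal_singleton_iff_inner_right.1 hxS
  have hxW : x θ ∈ W := by
    rw [← Submodule.orthogonal_orthogonal W, Submodule.mem_orthogonal]
    intro y hy
    obtain ⟨s, t, rfl⟩ := hspan y hy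
    have h1 : ⟪x θ, e₁⟫ = 0 := by
      have e : e₁ = Real.cos θ • ν θ - Real.sin θ • nn θ := by
        have h3 := Real.sin_sq_add_cos_sq θ
        have : Real.cos θ • ν θ - Real.sin θ • nn θ =
            (Real.sin θ ^ 2 + Real.cos θ ^ 2) • e₁ := by
          simp only [ν, nn]
          module
        rw [this, h3, one_smul]
      rw [e, inner_sub_right, inner_smul_right, inner_smul_right, hxν]
      have : ⟪x θ, nn θ⟫ = 0 := hθ
      rw [this]; simp
    have h2 : ⟪x θ, e₂⟫ = 0 := by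
      have e : e₂ = Real.sin θ • ν θ + Real.cos θ • nn θ := by
        have h3 := Real.sin_sq_add_cos_sq θ
        have : Real.sin θ • ν θ + Real.cos θ • nn θ =
            (Real.sin θ ^ 2 + Real.cos θ ^ 2) • e₂ := by
          simp only [ν, nn]
          module
        rw [this, h3, one_smul]
      rw [e, inner_add_right, inner_smul_right, inner_smul_right, hxν]
      have : ⟪x θ, nn θ⟫ = 0 := hθ
      rw [this]; simp
    rw [real_inner_comm, inner_add_right, inner_smul_right, inner_smul_right, h1, h2]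
    simp
  exact ⟨x θ, l θ, acc_hom hK hL (hacc θ) (hν0 θ) (hWν θ) hxW hKW hLW⟩

theorem top_homeo (E : Type) [NormedAddCommGroup E] [InnerProductSpace ℝ E]
    [FiniteDimensional ℝ E] (j : ℕ) :
    IsOpenMap (fun (b : Fin j → (⊤ : Submodule ℝ E)) (i : Fin j) => (b i : E)) := by
  let h : (⊤ : Submodule ℝ E) ≃ₜ E :=
    (LinearEquiv.toContinuousLinearEquiv (Submodule.topEquiv : (⊤ : Submodule ℝ E) ≃ₗ[ℝ] E)).toHomeomorph
  exact (Homeomorph.piCongrRight (fun _ : Fin j => h)).isOpenMap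

theorem bad_residual (h1 : BadDenseStmt) (h2 : BadClosedStmt) {E : Type} [NormedAddCommGroup E]
    [InnerProductSpace ℝ E] [FiniteDimensional ℝ E] {D : Set E} {c : E} {r : ℝ} (hr : 0 < r)
    (hcl : ∀ v ∈ Metric.ball c r, v ∈ closure D → v ∈ D) {j : ℕ} (hj : 2 ≤ j) :
    ∀ᶠ b : Fin j → (⊤ : Submodule ℝ E) in residual (Fin j → (⊤ : Submodule ℝ E)),
      ∀ ν ∈ Bad D c r, ν ∉ (Submodule.span ℝ (range fun i => (b i : E)))ᗮ := by
  have hopen : IsOpen {b : Fin j → E | ∃ ν ∈ Bad D c r, ∀ i, ⟪ν, b i⟫ = 0}ᶜ :=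
    (h2 E D c r j hr hcl).isOpen_compl
  have hdense : Dense {b : Fin j → E | ∃ ν ∈ Bad D c r, ∀ i, ⟪ν, b i⟫ = 0}ᶜ := by
    rw [Metric.dense_iff]
    intro b ε hε
    let i₀ : Fin j := ⟨0, by omega⟩
    let i₁ : Fin j := ⟨1, by omega⟩
    have hi : i₀ ≠ i₁ := by
      intro h
      have := congrArg Fin.val h
      simp [i₀, i₁] at this
    obtain ⟨p, hp, hp'⟩ := Metric.dense_iff.1 (h1 E D c r hr) (b i₀, b i₁) ε hε
    rw [Metric.mem_ball, Prod.dist_eq, max_lt_iff] at hp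
    refine ⟨Function.update (Function.update b i₀ p.1) i₁ p.2, ?_, ?_⟩
    · rw [Metric.mem_ball, dist_pi_lt_iff hε]
      intro i
      by_cases h3 : i = i₁
      · subst h3
        rw [Function.update_self]
        exact hp.2
      · rw [Function.update_of_ne h3]
        by_cases h4 : i = i₀
        · subst h4
          rw [Function.update_self]
          exact hp.1
        · rw [Function.update_of_ne h4, dist_self]
          exact hε
    · rintro ⟨ν, hν, h3⟩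
      refine hp' ν hν ⟨?_, ?_⟩
      · have := h3 i₀
        rwa [Function.update_of_ne hi, Function.update_self] at this
      · have := h3 i₁
        rwa [Function.update_self] at this
  have hcont : Continuous (fun (b : Fin j → (⊤ : Submodule ℝ E)) (i : Fin j) => (b i : E)) := by
    fun_prop
  have h3 := residual_of_dense_open (hopen.preimage hcont) (hdense.preimage (top_homeo E j))
  filter_upwards [h3] with b hb ν hν hcon
  refine hb ⟨ν, hν, fun i => ?_⟩
  rw [real_inner_comm]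
  exact (Submodule.mem_orthogonal _ _).1 hcon _ (Submodule.subset_span ⟨i, rfl⟩)

theorem span_basis {E : Type} [NormedAddCommGroup E] [InnerProductSpace ℝ E] {j : ℕ}
    {S : Submodule ℝ E} (B : Module.Basis (Fin j) ℝ S) :
    LinearIndependent ℝ (fun i => (B i : E)) ∧ Submodule.span ℝ (range fun i => (B i : E)) = S := by
  constructor
  · exact B.linearIndependent.map' S.subtype (Submodule.ker_subtype S)
  · have h1 : (range fun i => (B i : E)) = S.subtype '' range B := by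
      rw [← range_comp]
      rfl
    rw [h1, ← Submodule.map_span, B.span_eq, Submodule.map_top, Submodule.range_subtype]

theorem desc1 (h1 : BadDenseStmt) (h2 : BadClosedStmt) (hU : UniqStmt) : Desc1Stmt := by
  intro E _ _ _ K L hK hL j hj hdim hRH S hS hKS hLS hne1 hne2
  have hK1 : (interior (Dir K) ∩ (S : Set E)).Nonempty := by
    obtain ⟨z, hz⟩ := hne1
    exact closure_nonempty_iff.1 ⟨z, hKS hz⟩
  have hL1 : (interior (Dir L) ∩ (S : Set E)).Nonempty := by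
    obtain ⟨z, hz⟩ := hne2
    exact closure_nonempty_iff.1 ⟨z, hLS hz⟩
  have hr : ∀ m : ℕ, (0 : ℝ) < 1 / ((m : ℝ) + 1) := fun m => by positivity
  have r3 : ∀ᶠ b : Fin j → (⊤ : Submodule ℝ E) in residual (Fin j → (⊤ : Submodule ℝ E)),
      ∀ i m : ℕ, (∀ v ∈ Metric.ball (TopologicalSpace.denseSeq E i) (1 / ((m : ℝ) + 1)),
      v ∈ closure (Dir K) → v ∈ Dir K) →
      ∀ ν ∈ Bad (Dir K) (TopologicalSpace.denseSeq E i) (1 / ((m : ℝ) + 1)),
        ν ∉ (Submodule.span ℝ (range fun i => (b i : E)))ᗮ := by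
    rw [eventually_countable_forall]
    intro i
    rw [eventually_countable_forall]
    intro m
    rw [Filter.eventually_imp_distrib_left]
    intro hcl
    exact bad_residual h1 h2 (hr m) hcl hj
  have r4 : ∀ᶠ b : Fin j → (⊤ : Submodule ℝ E) in residual (Fin j → (⊤ : Submodule ℝ E)),
      ∀ i m : ℕ, (∀ v ∈ Metric.ball (TopologicalSpace.denseSeq E i) (1 / ((m : ℝ) + 1)),
      v ∈ closure (Dir L) → v ∈ Dir L) →
      ∀ ν ∈ Bad (Dir L) (TopologicalSpace.denseSeq E i) (1 / ((m : ℝ) + 1)),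
        ν ∉ (Submodule.span ℝ (range fun i => (b i : E)))ᗮ := by
    rw [eventually_countable_forall]
    intro i
    rw [eventually_countable_forall]
    intro m
    rw [Filter.eventually_imp_distrib_left]
    intro hcl
    exact bad_residual h1 h2 (hr m) hcl hj
  have hres := ((residual_reg hK (reg_top hK) j).and (residual_reg hL (reg_top hL) j)).and
    (r3.and r4)
  have hd := dense_of_mem_residual hres
  let B := Module.finBasisOfFinrankEq ℝ S hS
  obtain ⟨hBli, hBs⟩ := span_basis B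
  let b₀ : Fin j → (⊤ : Submodule ℝ E) := fun i => ⟨(B i : E), Submodule.mem_top⟩
  have hch : ∀ n : ℕ, ∃ b : Fin j → (⊤ : Submodule ℝ E), dist b b₀ < 1 / ((n : ℝ) + 1) ∧
      (Reg K (Submodule.span ℝ (range fun i => (b i : E))) ∧
        Reg L (Submodule.span ℝ (range fun i => (b i : E)))) ∧
      ((∀ i m : ℕ, (∀ v ∈ Metric.ball (TopologicalSpace.denseSeq E i) (1 / ((m : ℝ) + 1)),
      v ∈ closure (Dir K) → v ∈ Dir K) →
      ∀ ν ∈ Bad (Dir K) (TopologicalSpace.denseSeq E i) (1 / ((m : ℝ) + 1)),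
        ν ∉ (Submodule.span ℝ (range fun i => (b i : E)))ᗮ) ∧
      (∀ i m : ℕ, (∀ v ∈ Metric.ball (TopologicalSpace.denseSeq E i) (1 / ((m : ℝ) + 1)),
      v ∈ closure (Dir L) → v ∈ Dir L) →
      ∀ ν ∈ Bad (Dir L) (TopologicalSpace.denseSeq E i) (1 / ((m : ℝ) + 1)),
        ν ∉ (Submodule.span ℝ (range fun i => (b i : E)))ᗮ)) := by
    intro n
    obtain ⟨b, hb, hb'⟩ := Metric.dense_iff.1 hd b₀ (1 / ((n : ℝ) + 1)) (hr n)
    exact ⟨b, hb, hb'⟩
  choose b hb0 hbr hbb using hch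
  have ht : Tendsto (fun n : ℕ => 1 / ((n : ℝ) + 1)) atTop (𝓝 0) :=
    tendsto_one_div_add_atTop_nhds_zero_nat
  have hbt : Tendsto b atTop (𝓝 b₀) := by
    rw [tendsto_iff_dist_tendsto_zero]
    exact squeeze_zero (fun n => dist_nonneg) (fun n => (hb0 n).le) ht
  have hcont : Continuous (fun (b : Fin j → (⊤ : Submodule ℝ E)) (i : Fin j) => (b i : E)) := by
    fun_prop
  have hbt' : Tendsto (fun n => (fun i => ((b n) i : E))) atTop (𝓝 fun i => (B i : E)) :=
    (hcont.tendsto b₀).comp hbt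
  have hp : PConv (fun n => Submodule.span ℝ (range fun i => ((b n) i : E))) S := by
    have := pconv_span hbt' hBli
    rwa [hBs] at this
  have hev : ∀ᶠ n in atTop, ∃ (x : E) (l : ℝ),
      Hom K L (Submodule.span ℝ (range fun i => ((b n) i : E))) x l := by
    filter_upwards [exists_interior_of_pconv (K := K) hp hK1,
      exists_interior_of_pconv (K := L) hp hL1, hbt'.eventually hBli.eventually] with n a1 a2 a3
    refine good_W hU hK hL hdim hRH ?_ (hbr n).1 (hbr n).2 a1 a2 (hbb n).1 (hbb n).2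
    rw [finrank_span_eq_card a3, Fintype.card_fin]
  exact hom_of_limit hK hL hp hev (Lim_of_reg hp hKS) (Lim_of_reg hp hLS) hne1 hne2

end Pool.Agent.H63.SB
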