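import Pool.Agent.H63.SB.D4

/-!
# Star bodies with homothetic sections: descent (D5)
-/

namespace Pool.Agent.H63.SB

open Set Filter Topology
open scoped RealInnerProductSpace

section Transfer

variable {E : Type} [NormedAddCommGroup E] [InnerProductSpace ℝ E]
variable {K L : Set E}

/-- The part of `K` in the subspace `V`. -/
def sec (V : Submodule ℝ E) (K : Set E) : Set V := {z : V | (z : E) ∈ K}

theorem mem_Dir_sec {V : Submodule ℝ E} {z : V} : z ∈ Dir (sec V K) ↔ (z : E) ∈ Dir K := by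
  constructor
  · rintro ⟨h0, ε, hε, h⟩
    exact ⟨fun h1 => h0 (Subtype.ext h1), ε, hε, h⟩
  · rintro ⟨h0, ε, hε, h⟩
    exact ⟨fun h1 => h0 (by rw [h1]; rfl), ε, hε, h⟩

theorem rad_sec {V : Submodule ℝ E} (z : V) : rad (sec V K) z = rad K (z : E) := rfl

theorem interior_Dir_sec {V : Submodule ℝ E} {z : V} (h : (z : E) ∈ interior (Dir K)) :
    z ∈ interior (Dir (sec V K)) := by
  rw [mem_interior]
  refine ⟨(fun z : V => (z : E)) ⁻¹' interior (Dir K), fun w hw => ?_,
    isOpen_interior.preimage continuous_subtype_val, h⟩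
  exact mem_Dir_sec.2 (interior_subset (s := Dir K) hw)

theorem reg_sec {V : Submodule ℝ E} {S : Submodule ℝ V} (h : Reg K (S.map V.subtype)) :
    Reg (sec V K) S := by
  rintro z ⟨hz, hzS⟩
  rw [SetLike.mem_coe] at hzS
  rw [closure_subtype]
  have h1 : (z : E) ∈ Dir K ∩ ((S.map V.subtype : Submodule ℝ E) : Set E) :=
    ⟨mem_Dir_sec.1 hz, ⟨z, hzS, rfl⟩⟩
  refine closure_mono ?_ (h h1)
  rintro w ⟨hw, ⟨w', hw', rfl⟩⟩
  exact ⟨w', ⟨interior_Dir_sec hw, hw'⟩, rfl⟩

theorem reg_sec_top {V : Submodule ℝ E} (h : Reg K V) : Dir (sec V K) ⊆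
    closure (interior (Dir (sec V K))) := by
  have h1 : Reg K ((⊤ : Submodule ℝ V).map V.subtype) := by
    rwa [Submodule.map_top, Submodule.range_subtype]
  intro z hz
  exact closure_mono inter_subset_left (reg_sec h1 ⟨hz, Submodule.mem_top⟩)

theorem StarB.sec [FiniteDimensional ℝ E] (hK : StarB K) {V : Submodule ℝ E} (hr : Reg K V) :
    StarB (sec V K) := by
  refine ⟨?_, hK.zero_mem, fun z hz t h0 h1 => hK.star _ hz t h0 h1, ?_, reg_sec_top hr⟩
  · exact (Submodule.closed_of_finiteDimensional V).isClosedEmbedding_subtypeVal.isCompact_preimage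
      hK.compact
  · have h1 : ContinuousOn (fun z : V => rad K (z : E)) (Dir (Pool.Agent.H63.SB.sec V K)) :=
      hK.cont.comp continuous_subtype_val.continuousOn fun z hz => mem_Dir_sec.1 hz
    exact h1

theorem hom_sec {V : Submodule ℝ E} {S : Submodule ℝ V} {x : V} {l : ℝ} :
    Hom (sec V K) (sec V L) S x l ↔ Hom K L (S.map V.subtype) (x : E) l := by
  constructor
  · rintro ⟨h1, h2, h3⟩
    refine ⟨⟨x, h1, rfl⟩, h2, ?_⟩
    rintro _ ⟨z, hz, rfl⟩
    exact h3 z hz
  · rintro ⟨h1, h2, h3⟩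
    refine ⟨?_, h2, fun z hz => h3 (z : E) ⟨z, hz, rfl⟩⟩
    obtain ⟨x', hx', he⟩ := h1
    have : x' = x := Subtype.ext he
    rwa [← this]

theorem map_span_range {V : Submodule ℝ E} {m : ℕ} (b : Fin m → V) :
    (Submodule.span ℝ (range b)).map V.subtype = Submodule.span ℝ (range fun i => (b i : E)) := by
  rw [Submodule.map_span]
  congr 1
  rw [← range_comp]
  rfl

theorem regHom_sec [FiniteDimensional ℝ E] (hK : StarB K) (hL : StarB L) {V : Submodule ℝ E}
    (hKV : Reg K V) (hLV : Reg L V) {m : ℕ} (hRH : RegHom K L m) :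
    RegHom (sec V K) (sec V L) m := by
  intro S hS hKS hLS hne1 hne2
  have hK' := hK.sec hKV
  have hL' := hL.sec hLV
  have hK1 : (interior (Dir (sec V K)) ∩ (S : Set V)).Nonempty := by
    obtain ⟨z, hz⟩ := hne1
    exact closure_nonempty_iff.1 ⟨z, hKS hz⟩
  have hL1 : (interior (Dir (sec V L)) ∩ (S : Set V)).Nonempty := by
    obtain ⟨z, hz⟩ := hne2
    exact closure_nonempty_iff.1 ⟨z, hLS hz⟩
  let B := Module.finBasisOfFinrankEq ℝ S hS
  obtain ⟨hBli, hBs⟩ := span_basis B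
  let b₀ : Fin m → V := fun i => (B i : V)
  have hr : ∀ m : ℕ, (0 : ℝ) < 1 / ((m : ℝ) + 1) := fun m => by positivity
  have hch : ∀ n : ℕ, ∃ b : Fin m → V, dist b b₀ < 1 / ((n : ℝ) + 1) ∧
      Reg K (Submodule.span ℝ (range fun i => (b i : E))) ∧
        Reg L (Submodule.span ℝ (range fun i => (b i : E))) := by
    intro n
    obtain ⟨b, hb, hb'⟩ := exists_reg hK hL hKV hLV m (Metric.isOpen_ball
      (x := b₀) (ε := 1 / ((n : ℝ) + 1))) ⟨b₀, Metric.mem_ball_self (hr n)⟩
    exact ⟨b, hb, hb'⟩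
  choose b hb0 hbK hbL using hch
  have hbt : Tendsto b atTop (𝓝 b₀) := by
    rw [tendsto_iff_dist_tendsto_zero]
    exact squeeze_zero (fun n => dist_nonneg) (fun n => (hb0 n).le)
      tendsto_one_div_add_atTop_nhds_zero_nat
  have hp : PConv (fun n => Submodule.span ℝ (range (b n))) S := by
    have := pconv_span hbt hBli
    rwa [hBs] at this
  have hev : ∀ᶠ n in atTop, ∃ (x : V) (l : ℝ),
      Hom (sec V K) (sec V L) (Submodule.span ℝ (range (b n))) x l := by
    filter_upwards [exists_interior_of_pconv (K := sec V K) hp hK1,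
      exists_interior_of_pconv (K := sec V L) hp hL1, hbt.eventually hBli.eventually]
      with n a1 a2 a3
    have h1 : Module.finrank ℝ ((Submodule.span ℝ (range (b n))).map V.subtype) = m := by
      rw [Submodule.finrank_map_subtype_eq, finrank_span_eq_card a3, Fintype.card_fin]
    obtain ⟨z1, hz1, hz1'⟩ := a1
    obtain ⟨z2, hz2, hz2'⟩ := a2
    obtain ⟨x, l, h⟩ := hRH _ h1 (by rw [map_span_range]; exact hbK n)
      (by rw [map_span_range]; exact hbL n)
      ⟨(z1 : E), mem_Dir_sec.1 (interior_subset hz1), ⟨z1, hz1', rfl⟩⟩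
      ⟨(z2 : E), mem_Dir_sec.1 (interior_subset hz2), ⟨z2, hz2', rfl⟩⟩
    obtain ⟨x', hx', he⟩ := h.1
    refine ⟨x', l, hom_sec.2 ?_⟩
    have he' : (x' : E) = x := he
    rw [he']
    exact h
  exact hom_of_limit hK' hL' hp hev (Lim_of_reg hp hKS) (Lim_of_reg hp hLS) hne1 hne2

end Transfer

theorem desc (h1 : Desc1Stmt) : DescStmt := by
  intro E _ _ _ K L hK hL j hj hdim hRH S hS hKS hLS hne1 hne2
  have hK1 : (interior (Dir K) ∩ (S : Set E)).Nonempty := by
    obtain ⟨z, hz⟩ := hne1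
    exact closure_nonempty_iff.1 ⟨z, hKS hz⟩
  have hL1 : (interior (Dir L) ∩ (S : Set E)).Nonempty := by
    obtain ⟨z, hz⟩ := hne2
    exact closure_nonempty_iff.1 ⟨z, hLS hz⟩
  let B := Module.finBasisOfFinrankEq ℝ S hS
  obtain ⟨hBli, hBs⟩ := span_basis B
  set b₀ : Fin j → E := fun i => (B i : E) with hb₀
  obtain ⟨u₁, hu₁⟩ := exists_linearIndependent_snoc_of_lt_finrank hBli (by omega)
  obtain ⟨u₂, hu₂⟩ := exists_linearIndependent_snoc_of_lt_finrank hu₁ (by omega)
  set c₀ : Fin (j + 1 + 1) → E := Fin.snoc (Fin.snoc b₀ u₁ : Fin (j + 1) → E) u₂ with hc₀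
  have hcb : ∀ i : Fin j, c₀ i.castSucc.castSucc = b₀ i := by
    intro i
    rw [hc₀, Fin.snoc_castSucc, Fin.snoc_castSucc]
  have hr : ∀ m : ℕ, (0 : ℝ) < 1 / ((m : ℝ) + 1) := fun m => by positivity
  let c₀' : Fin (j + 1 + 1) → (⊤ : Submodule ℝ E) := fun i => ⟨c₀ i, Submodule.mem_top⟩
  have hch : ∀ n : ℕ, ∃ c : Fin (j + 1 + 1) → (⊤ : Submodule ℝ E),
      dist c c₀' < 1 / ((n : ℝ) + 1) ∧
      Reg K (Submodule.span ℝ (range fun i => (c i : E))) ∧
        Reg L (Submodule.span ℝ (range fun i => (c i : E))) := by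
    intro n
    obtain ⟨b, hb, hb'⟩ := exists_reg hK hL (reg_top hK) (reg_top hL) (j + 1 + 1)
      (Metric.isOpen_ball (x := c₀') (ε := 1 / ((n : ℝ) + 1))) ⟨c₀', Metric.mem_ball_self (hr n)⟩
    exact ⟨b, hb, hb'⟩
  choose c hc0 hcK hcL using hch
  have hct : Tendsto c atTop (𝓝 c₀') := by
    rw [tendsto_iff_dist_tendsto_zero]
    exact squeeze_zero (fun n => dist_nonneg) (fun n => (hc0 n).le)
      tendsto_one_div_add_atTop_nhds_zero_nat
  have hct' : Tendsto (fun n => (fun i => ((c n) i : E))) atTop (𝓝 c₀) := by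
    have hcont : Continuous
        (fun (b : Fin (j + 1 + 1) → (⊤ : Submodule ℝ E)) (i : Fin (j + 1 + 1)) => (b i : E)) := by
      fun_prop
    exact (hcont.tendsto c₀').comp hct
  let V : ℕ → Submodule ℝ E := fun n => Submodule.span ℝ (range fun i => ((c n) i : E))
  have hcV : ∀ n i, ((c n) i : E) ∈ V n := fun n i => Submodule.subset_span ⟨i, rfl⟩
  have hch2 : ∀ n : ℕ, ∃ b : Fin j → V n,
      (∀ i, dist (b i : E) ((c n) i.castSucc.castSucc : E) < 1 / ((n : ℝ) + 1)) ∧
      Reg K (Submodule.span ℝ (range fun i => (b i : E))) ∧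
        Reg L (Submodule.span ℝ (range fun i => (b i : E))) := by
    intro n
    let d : Fin j → V n := fun i => ⟨((c n) i.castSucc.castSucc : E), hcV n _⟩
    obtain ⟨b, hb, hb'⟩ := exists_reg hK hL (V := V n) (hcK n) (hcL n) j
      (Metric.isOpen_ball (x := d) (ε := 1 / ((n : ℝ) + 1))) ⟨d, Metric.mem_ball_self (hr n)⟩
    refine ⟨b, fun i => ?_, hb'⟩
    have h2 := (dist_pi_lt_iff (hr n)).1 (Metric.mem_ball.1 hb) i
    exact h2
  choose b hb0 hbK hbL using hch2
  have hbt : Tendsto (fun n => (fun i => ((b n) i : E))) atTop (𝓝 b₀) := by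
    rw [tendsto_pi_nhds]
    intro i
    have h2 : Tendsto (fun n => ((c n) i.castSucc.castSucc : E)) atTop (𝓝 (b₀ i)) := by
      rw [← hcb i]
      exact (tendsto_pi_nhds.1 hct') _
    rw [tendsto_iff_dist_tendsto_zero] at h2 ⊢
    refine squeeze_zero (fun n => dist_nonneg)
      (fun n => dist_triangle _ ((c n) i.castSucc.castSucc : E) _) ?_
    have h3 : Tendsto (fun n => dist ((b n) i : E) ((c n) i.castSucc.castSucc : E)) atTop (𝓝 0) :=
      squeeze_zero (fun n => dist_nonneg) (fun n => (hb0 n i).le)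
        tendsto_one_div_add_atTop_nhds_zero_nat
    simpa using h3.add h2
  have hp : PConv (fun n => Submodule.span ℝ (range fun i => ((b n) i : E))) S := by
    have := pconv_span hbt hBli
    rwa [hBs] at this
  have hev : ∀ᶠ n in atTop, ∃ (x : E) (l : ℝ),
      Hom K L (Submodule.span ℝ (range fun i => ((b n) i : E))) x l := by
    filter_upwards [exists_interior_of_pconv (K := K) hp hK1,
      exists_interior_of_pconv (K := L) hp hL1, hbt.eventually hBli.eventually,
      hct'.eventually hu₂.eventually] with n a1 a2 a3 a4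
    have hV : Module.finrank ℝ (V n) = j + 2 := by
      simp only [V]
      rw [finrank_span_eq_card a4, Fintype.card_fin]
    have hbli : LinearIndependent ℝ (b n) := LinearIndependent.of_comp (V n).subtype a3
    have hfr : Module.finrank ℝ (Submodule.span ℝ (range (b n))) = j := by
      rw [finrank_span_eq_card hbli, Fintype.card_fin]
    have h2 := h1 (V n) (sec (V n) K) (sec (V n) L) (hK.sec (hcK n)) (hL.sec (hcL n)) j hj hV
      (regHom_sec hK hL (hcK n) (hcL n) hRH)
    obtain ⟨z1, hz1, hz1'⟩ := a1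
    obtain ⟨z2, hz2, hz2'⟩ := a2
    rw [← map_span_range] at hz1' hz2'
    obtain ⟨w1, hw1, rfl⟩ := hz1'
    obtain ⟨w2, hw2, rfl⟩ := hz2'
    obtain ⟨x, l, h⟩ := h2 (Submodule.span ℝ (range (b n))) hfr
      (reg_sec (by rw [map_span_range]; exact hbK n))
      (reg_sec (by rw [map_span_range]; exact hbL n))
      ⟨w1, mem_Dir_sec.2 (interior_subset hz1), hw1⟩
      ⟨w2, mem_Dir_sec.2 (interior_subset hz2), hw2⟩
    refine ⟨(x : E), l, ?_⟩
    have h3 := hom_sec.1 h
    rwa [map_span_range] at h3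
  exact hom_of_limit hK hL hp hev (Lim_of_reg hp hKS) (Lim_of_reg hp hLS) hne1 hne2

end Pool.Agent.H63.SB
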