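import Pool.Agent.H63.SB.Tk
import Pool.Agent.H63.SB.Targets
import Pool.Agent.H63.Star.HalfSpace

/-!
# Star bodies with homothetic sections: assembly
-/

namespace Pool.Agent.H63.SB

open Set Filter Topology
open scoped RealInnerProductSpace

variable {E : Type} [NormedAddCommGroup E] [InnerProductSpace ℝ E] [FiniteDimensional ℝ E]
variable {K L : Set E}

theorem AllHom.symm {k : ℕ} (h : AllHom K L k) : AllHom L K k := by
  intro S hS
  obtain ⟨x, l, hx⟩ := h S hS
  exact ⟨_, _, hx.symm⟩

theorem AllHom.regHom {k : ℕ} (h : AllHom K L k) : RegHom K L k :=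
  fun S hS _ _ _ _ => h S hS

theorem regHom_all (hD : DescStmt) (hK : StarB K) (hL : StarB L) {k : ℕ}
    (hk : k + 1 ≤ Module.finrank ℝ E) (h : AllHom K L k) :
    ∀ i j : ℕ, i + j = k → 2 ≤ j → RegHom K L j := by
  intro i
  induction i with
  | zero => intro j hj _; obtain rfl : j = k := by omega
            exact h.regHom
  | succ i ih =>
    intro j hj h2
    exact hD E K L hK hL j h2 (by omega) (ih (j + 1) (by omega) (by omega))

/-- Case A. -/
theorem caseA (hD : DescStmt) (hW4 : RegPlaneStmt) (hW5 : OppStmt) (hA2 : ThinStmt)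
    (hA3 : UCStmt) (hA6 : BdryStmt) (hA7 : LastStmt)
    (hK : StarB K) (hL : StarB L) {k : ℕ} (h2 : 2 ≤ k) (hk : k + 1 ≤ Module.finrank ℝ E)
    (h : AllHom K L k) (hq : ∃ q ∈ interior (Dir L), q ∉ Dir K) :
    (∃ (x : E) (l : ℝ), Hom K L ⊤ x l) ∨ (0 : E) ∉ interior (convexHull ℝ L) := by
  have hreg : ∀ j : ℕ, 2 ≤ j → j ≤ k → RegHom K L j := fun j hj hjk =>
    regHom_all hD hK hL hk h (k - j) j (by omega) hj
  have hneg := hW5 E K L k hK hL h2 hk h hreg
  have hR2 := hreg 2 le_rfl h2
  have hCA : CA K L :=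
    { hK := hK
      hL := hL
      dim := by omega
      neg := hneg
      good := by
        intro q hq hqK S hS hqS
        have hne : (Dir K ∩ (S : Set E)).Nonempty := ⟨-q, hneg q hq hqK, S.neg_mem hqS⟩
        have hne' : (Dir L ∩ (S : Set E)).Nonempty := ⟨q, interior_subset hq, hqS⟩
        obtain ⟨r1, r2, -⟩ := hW4 E K L hK hL hR2 q hq hqK S hS hqS hne
        exact ⟨r1, r2, hR2 S hS r1 r2 hne hne'⟩ }
  by_cases hU : (interior (Dir L \ Dir K)).Nonempty
  · have hUC := hA3 E K L hCA hU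
    rcases hA6 E K L hUC with h1 | h1
    · exact Or.inl h1
    · exact Or.inr (hA7 E K L hUC h1)
  · exact Or.inl (hA2 E K L hCA hq (Set.not_nonempty_iff_eq_empty.1 hU))

theorem halfSpace_hom (hKr : closure (interior K) = K) (hLr : closure (interior L) = L)
    (hK : StarB K) (hL : StarB L) {k : ℕ} (h2 : 2 ≤ k) (hk : k + 1 ≤ Module.finrank ℝ E)
    (h : AllHom K L k) (hc : (0 : E) ∉ interior (convexHull ℝ K)) :
    ∃ (x : E) (l : ℝ), Hom K L ⊤ x l := by
  have key := Pool.Agent.H63.Star.halfSpace hK.compact hKr hL.compact hLr hK.zero_mem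
    hL.zero_mem h2 hk (by
      intro S hS
      obtain ⟨x, l, hx⟩ := h.symm S hS
      refine ⟨x, l, hx.2.1, ?_⟩
      ext z
      constructor
      · rintro ⟨hzL, hzS⟩
        refine ⟨l⁻¹ • (z - x), ⟨?_, S.smul_mem _ (S.sub_mem hzS hx.1)⟩, ?_⟩
        · refine (hx.2.2 _ (S.smul_mem _ (S.sub_mem hzS hx.1))).1 ?_
          rw [smul_smul, mul_inv_cancel₀ hx.2.1.ne', one_smul, add_sub_cancel]
          exact hzL
        · simp only [Pool.Agent.H63.Star.hom]
          rw [smul_smul, mul_inv_cancel₀ hx.2.1.ne', one_smul, add_sub_cancel]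
      · rintro ⟨y, ⟨hyK, hyS⟩, rfl⟩
        exact ⟨(hx.2.2 y hyS).2 hyK, S.add_mem hx.1 (S.smul_mem _ hyS)⟩) hc
  obtain ⟨x, c, hc0, hx⟩ := key
  have : Hom L K ⊤ x c := by
    refine ⟨Submodule.mem_top, hc0, fun z _ => ?_⟩
    rw [hx]
    constructor
    · rintro ⟨y, hy, hyz⟩
      simp only [Pool.Agent.H63.Star.hom] at hyz
      have := add_left_cancel hyz
      have := smul_right_injective E hc0.ne' this
      exact this ▸ hy
    · intro hz
      exact ⟨z, hz, rfl⟩
  exact ⟨_, _, this.symm⟩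

/-- **The theorem for star bodies.** -/
theorem mainThm (hP2 : DescSameStmt) (hP3 : DescIntStmt) (hC1 : CaseFullStmt)
    (hC2 : CaseSameStmt) (hC3 : CaseIntStmt) (hD : DescStmt) (hW4 : RegPlaneStmt)
    (hW5 : OppStmt) (hA2 : ThinStmt) (hA3 : UCStmt) (hA6 : BdryStmt) (hA7 : LastStmt)
    (hKr : closure (interior K) = K) (hLr : closure (interior L) = L)
    (hK : StarB K) (hL : StarB L) {k : ℕ} (h2 : 2 ≤ k) (hk : k + 1 ≤ Module.finrank ℝ E)
    (h : AllHom K L k) : ∃ (x : E) (l : ℝ), Hom K L ⊤ x l := by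
  have hne : ∀ {M : Set E}, StarB M → closure (interior M) = M → (Dir M).Nonempty := by
    intro M hM hMr
    have h1 : (interior M).Nonempty := by
      rw [← closure_nonempty_iff, hMr]; exact ⟨0, hM.zero_mem⟩
    obtain ⟨v, hv0⟩ : ∃ v : E, v ≠ 0 := by
      have : Nontrivial E := Module.nontrivial_of_finrank_pos (R := ℝ) (by omega)
      exact exists_ne 0
    by_contra hne
    rw [Set.not_nonempty_iff_eq_empty] at hne
    have h2 : M ⊆ {0} := by
      intro z hz
      by_contra hz0
      exact (hne ▸ mem_Dir hz hz0 : z ∈ (∅ : Set E))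
    have h3 : interior M ⊆ interior ({0} : Set E) := interior_mono h2
    have : Nontrivial E := ⟨v, 0, hv0⟩
    rw [interior_singleton] at h3
    exact h1.ne_empty (Set.subset_empty_iff.1 h3)
  by_cases hA : ∃ q ∈ interior (Dir L), q ∉ Dir K
  · rcases caseA hD hW4 hW5 hA2 hA3 hA6 hA7 hK hL h2 hk h hA with h1 | h1
    · exact h1
    · obtain ⟨x, l, hx⟩ := halfSpace_hom hLr hKr hL hK h2 hk h.symm h1
      exact ⟨_, _, hx.symm⟩
  by_cases hB : ∃ q ∈ interior (Dir K), q ∉ Dir L
  · rcases caseA hD hW4 hW5 hA2 hA3 hA6 hA7 hL hK h2 hk h.symm hB with ⟨x, l, hx⟩ | h1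
    · exact ⟨_, _, hx.symm⟩
    · exact halfSpace_hom hKr hLr hK hL h2 hk h h1
  push Not at hA hB
  have hint : interior (Dir K) = interior (Dir L) :=
    subset_antisymm (interior_maximal hB isOpen_interior) (interior_maximal hA isOpen_interior)
  -- descent for the planes meeting the interior
  have hP : ∀ (K L : Set E), StarB K → StarB L → interior (Dir K) = interior (Dir L) →
      AllHom K L k → ∀ S : Submodule ℝ E, Module.finrank ℝ S = 2 →
      (interior (Dir K) ∩ (S : Set E)).Nonempty → ∃ (x : E) (l : ℝ), Hom K L S x l := by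
    intro K L hK hL hint h
    have : ∀ i j : ℕ, i + j = k → 2 ≤ j → ∀ S : Submodule ℝ E, Module.finrank ℝ S = j →
        (interior (Dir K) ∩ (S : Set E)).Nonempty → ∃ (x : E) (l : ℝ), Hom K L S x l := by
      intro i
      induction i with
      | zero => intro j hj _ S hS _
                obtain rfl : j = k := by omega
                exact h S hS
      | succ i ih =>
        intro j hj hj2
        exact hP3 E K L hK hL hint j (by omega) (ih (j + 1) (by omega) (by omega))
    exact this (k - 2) 2 (by omega) le_rfl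
  by_cases hKL : ∃ q ∈ Dir L, q ∉ Dir K
  · exact hC3 E K L hK hL hint hKL (by omega) (hP K L hK hL hint h)
  by_cases hLK : ∃ q ∈ Dir K, q ∉ Dir L
  · obtain ⟨x, l, hx⟩ := hC3 E L K hL hK hint.symm hLK (by omega) (hP L K hL hK hint.symm h.symm)
    exact ⟨_, _, hx.symm⟩
  push Not at hKL hLK
  have hD' : Dir K = Dir L := subset_antisymm hLK hKL
  by_cases hN : ∃ n : E, n ≠ 0 ∧ n ∉ Dir K
  · refine hC2 E K L hK hL hD' (hne hK hKr) hN (by omega) ?_
    have : ∀ i j : ℕ, i + j = k → 2 ≤ j → AllHom K L j := by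
      intro i
      induction i with
      | zero => intro j hj _
                obtain rfl : j = k := by omega
                exact h
      | succ i ih =>
        intro j hj hj2
        exact hP2 E K L hK hL hD' j (by omega) (ih (j + 1) (by omega) (by omega))
    exact this (k - 2) 2 (by omega) le_rfl
  · push Not at hN
    exact hC1 E K L k hK hL hN (fun z hz => hD' ▸ hN z hz) h2 hk h

end Pool.Agent.H63.SB
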