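import Pool.Agent.H63.SB.Final
import Pool.Agent.H63.SB.C1
import Pool.Agent.H63.SB.D3
import Pool.Agent.H63.SB.D4
import Pool.Agent.H63.SB.D5
import Pool.Agent.H11.SB.D1
import Pool.Agent.H11.SB.D2
import Pool.Agent.H11.SB.W1
import Pool.Agent.H11.SB.W2
import Pool.Agent.H11.SB.W3
import Pool.Agent.H19.SB.A1
import Pool.Agent.H19.SB.A23
import Pool.Agent.H49.SB.A5
import Pool.Agent.H49.SB.A6
import Pool.Agent.H49.SB.C3
import Pool.Agent.H49.SB.P1
import Pool.Agent.H49.SB.P23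
import Pool.Agent.H64.SB.C2
import Pool.Agent.H64.SB.A4
import Pool.Agent.H87.SB.A7
import Pool.Agent.H11.SB.W4
import Pool.Agent.H11.SB.W5

/-!
# Star bodies with homothetic sections: the theorem
-/

namespace Pool.Agent.H63.SB

theorem starBodies {E : Type} [NormedAddCommGroup E] [InnerProductSpace ℝ E]
    [FiniteDimensional ℝ E] {K L : Set E}
    (hKr : closure (interior K) = K) (hLr : closure (interior L) = L)
    (hK : StarB K) (hL : StarB L) {k : ℕ} (h2 : 2 ≤ k) (hk : k + 1 ≤ Module.finrank ℝ E)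
    (h : AllHom K L k) : ∃ (x : E) (l : ℝ), Hom K L ⊤ x l := by
  have hP2 : DescSameStmt := Pool.Agent.H49.SB.descSame
  have hP3 : DescIntStmt := Pool.Agent.H49.SB.descInt
  have hD : DescStmt := desc (desc1 Pool.Agent.H11.SB.badDense Pool.Agent.H11.SB.badClosed uniq)
  have hC3 : CaseIntStmt := Pool.Agent.H49.SB.caseInt
  have hC2 : CaseSameStmt := Pool.Agent.H64.SB.caseSame
  have hA1 : ConvStmt := Pool.Agent.H19.SB.conv
  have hA2 : ThinStmt := Pool.Agent.H19.SB.thin hA1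
  have hA3 : UCStmt := Pool.Agent.H19.SB.uc hA1
  have hW4 : RegPlaneStmt := Pool.Agent.H11.SB.regPlane
  have hW5 : OppStmt := Pool.Agent.H11.SB.opp
  have hA4 : WallStmt := Pool.Agent.H64.SB.wallStmt
  have hA6 : BdryStmt := Pool.Agent.H49.SB.bdry hA4
  have hA7 : LastStmt := Pool.Agent.H87.SB.a7
  exact mainThm hP2 hP3 caseFull hC2 hC3 hD hW4 hW5 hA2 hA3 hA6 hA7 hKr hLr hK hL h2 hk h

end Pool.Agent.H63.SB
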