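import Mathlib

/-!
# Star bodies with homothetic sections: general position of the origin

Definitions for the case where the origin may lie on the boundary and the radial function is only
continuous where it is positive. See the blueprint `H63_SB_blueprint.md` in the team store.
-/

namespace Pool.Agent.H63.SB

open Set Filter Topology
open scoped RealInnerProductSpace

section Defs

variable {E : Type*} [NormedAddCommGroup E] [InnerProductSpace ℝ E]

/-- The directions in which `K` extends from the origin (a cone without the origin). -/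
def Dir (K : Set E) : Set E := {z | z ≠ 0 ∧ ∃ ε : ℝ, 0 < ε ∧ ε • z ∈ K}

/-- The radial function, defined for all vectors. -/
noncomputable def rad (K : Set E) (z : E) : ℝ := sSup {t : ℝ | 0 ≤ t ∧ t • z ∈ K}

/-- Star bodies; the origin may lie on the boundary. -/
structure StarB (K : Set E) : Prop where
  compact : IsCompact K
  zero_mem : (0 : E) ∈ K
  star : ∀ z ∈ K, ∀ t : ℝ, 0 ≤ t → t ≤ 1 → t • z ∈ K
  cont : ContinuousOn (rad K) (Dir K)
  reg : Dir K ⊆ closure (interior (Dir K))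

/-- `K ∩ S = x + l • (L ∩ S)`, with `x ∈ S` and `l > 0`. -/
def Hom (K L : Set E) (S : Submodule ℝ E) (x : E) (l : ℝ) : Prop :=
  x ∈ S ∧ 0 < l ∧ ∀ z ∈ S, (x + l • z ∈ K ↔ z ∈ L)

/-- `K₁ = x + l • L₁`, where `K₁` is the part of `K ∩ S` in the directions `D₁` (with the origin)
and `L₁` the part of `L ∩ S` in the directions `D₂` (with the origin). -/
structure GHom (K L : Set E) (S : Submodule ℝ E) (D₁ D₂ : Set E) (x : E) (l : ℝ) : Prop where
  mem : x ∈ S
  pos : 0 < l
  sub₁ : D₁ ⊆ Dir K ∩ (S : Set E)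
  sub₂ : D₂ ⊆ Dir L ∩ (S : Set E)
  cone₁ : ∀ z ∈ D₁, ∀ t : ℝ, 0 < t → t • z ∈ D₁
  cone₂ : ∀ z ∈ D₂, ∀ t : ℝ, 0 < t → t • z ∈ D₂
  iff : ∀ z ∈ S, ((x + l • z = 0 ∨ (x + l • z ∈ K ∧ x + l • z ∈ D₁)) ↔ (z = 0 ∨ (z ∈ L ∧ z ∈ D₂)))

/-- `S` is regular for `K`: the interior directions are dense in the directions lying in `S`. -/
def Reg (K : Set E) (S : Submodule ℝ E) : Prop :=
  Dir K ∩ (S : Set E) ⊆ closure (interior (Dir K) ∩ (S : Set E))

/-- All `j`-dimensional sections are homothetic. -/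
def AllHom (K L : Set E) (j : ℕ) : Prop :=
  ∀ S : Submodule ℝ E, Module.finrank ℝ S = j → ∃ (x : E) (l : ℝ), Hom K L S x l

/-- All regular non-trivial `j`-dimensional sections are homothetic. -/
def RegHom (K L : Set E) (j : ℕ) : Prop :=
  ∀ S : Submodule ℝ E, Module.finrank ℝ S = j → Reg K S → Reg L S →
    (Dir K ∩ (S : Set E)).Nonempty → (Dir L ∩ (S : Set E)).Nonempty →
    ∃ (x : E) (l : ℝ), Hom K L S x l

/-- Convergence of subspaces. -/
def PConv (S : ℕ → Submodule ℝ E) (T : Submodule ℝ E) : Prop :=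
  (∀ v ∈ T, ∃ u : ℕ → E, (∀ n, u n ∈ S n) ∧ Tendsto u atTop (𝓝 v)) ∧
  (∀ v : E, (∀ ε : ℝ, 0 < ε → ∃ᶠ n in atTop, ((S n : Set E) ∩ Metric.ball v ε).Nonempty) → v ∈ T)

/-- Limit directions of the sections by `S n`, lying in `T`. -/
def Lim (K : Set E) (S : ℕ → Submodule ℝ E) (T : Submodule ℝ E) : Set E :=
  {v | v ∈ Dir K ∧ v ∈ T ∧ ∀ ε : ℝ, 0 < ε →
    ∀ᶠ n in atTop, (Dir K ∩ (S n : Set E) ∩ Metric.ball v ε).Nonempty}

open Classical in
/-- The translation part of the homothety of the sections by `S`. -/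
noncomputable def ctr (K L : Set E) (S : Submodule ℝ E) : E :=
  if h : ∃ p : E × ℝ, Hom K L S p.1 p.2 then h.choose.1 else 0

open Classical in
/-- The ratio of the homothety of the sections by `S`. -/
noncomputable def rat (K L : Set E) (S : Submodule ℝ E) : ℝ :=
  if h : ∃ p : E × ℝ, Hom K L S p.1 p.2 then h.choose.2 else 1

end Defs

end Pool.Agent.H63.SB
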