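import Pool.Agent.H63.SB.Iface

/-!
# Star bodies with homothetic sections: toolkit, part 1 (directions and radial functions)
-/

namespace Pool.Agent.H63.SB

open Set Filter Topology
open scoped RealInnerProductSpace Pointwise

variable {E : Type*} [NormedAddCommGroup E] [InnerProductSpace ℝ E]
variable {K L : Set E}

/-! ## T1: directions and radial functions -/

theorem zero_notMem_Dir : (0 : E) ∉ Dir K := fun h => h.1 rfl

theorem mem_Dir {z : E} (hz : z ∈ K) (h0 : z ≠ 0) : z ∈ Dir K := ⟨h0, 1, one_pos, by simpa using hz⟩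

theorem smul_mem_Dir {z : E} {t : ℝ} (ht : 0 < t) : t • z ∈ Dir K ↔ z ∈ Dir K := by
  constructor
  · rintro ⟨h0, ε, hε, h⟩
    refine ⟨fun hz => h0 (by simp [hz]), ε * t, by positivity, ?_⟩
    rwa [mul_smul]
  · rintro ⟨h0, ε, hε, h⟩
    refine ⟨smul_ne_zero ht.ne' h0, ε / t, by positivity, ?_⟩
    rwa [smul_smul, div_mul_cancel₀ _ ht.ne']

theorem preimage_smul_Dir {t : ℝ} (ht : 0 < t) :
    (Homeomorph.smulOfNeZero t ht.ne' : E ≃ₜ E) ⁻¹' (Dir K) = Dir K := by
  ext z
  exact smul_mem_Dir ht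

theorem smul_mem_interior_Dir {z : E} {t : ℝ} (ht : 0 < t) :
    t • z ∈ interior (Dir K) ↔ z ∈ interior (Dir K) := by
  have h := (Homeomorph.smulOfNeZero t ht.ne' : E ≃ₜ E).preimage_interior (Dir K)
  rw [preimage_smul_Dir ht] at h
  exact Set.ext_iff.1 h z

theorem smul_mem_closure_Dir {z : E} {t : ℝ} (ht : 0 < t) :
    t • z ∈ closure (Dir K) ↔ z ∈ closure (Dir K) := by
  have h := (Homeomorph.smulOfNeZero t ht.ne' : E ≃ₜ E).preimage_closure (Dir K)
  rw [preimage_smul_Dir ht] at h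
  exact Set.ext_iff.1 h z

theorem rad_smul {z : E} {t : ℝ} (ht : 0 < t) : rad K (t • z) = rad K z / t := by
  unfold rad
  have h : {s : ℝ | 0 ≤ s ∧ s • t • z ∈ K} = t⁻¹ • {s : ℝ | 0 ≤ s ∧ s • z ∈ K} := by
    ext s
    rw [mem_inv_smul_set_iff₀ ht.ne']
    simp only [mem_ofPred_eq, smul_eq_mul, smul_smul]
    constructor
    · rintro ⟨h1, h2⟩
      exact ⟨by positivity, by rwa [mul_comm t s]⟩
    · rintro ⟨h1, h2⟩
      exact ⟨nonneg_of_mul_nonneg_right h1 ht, by rwa [mul_comm s t]⟩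
  rw [h, Real.sSup_smul_of_nonneg (by positivity), smul_eq_mul, div_eq_inv_mul]

theorem rad_nonneg {z : E} : 0 ≤ rad K z := Real.sSup_nonneg fun _ h => h.1

theorem StarB.bounded (hK : StarB K) : ∃ R : ℝ, 0 < R ∧ ∀ z ∈ K, ‖z‖ ≤ R :=
  hK.compact.isBounded.exists_pos_norm_le

theorem StarB.bddAbove (hK : StarB K) {z : E} (hz : z ≠ 0) :
    BddAbove {t : ℝ | 0 ≤ t ∧ t • z ∈ K} := by
  obtain ⟨R, hR, h⟩ := hK.bounded
  refine ⟨R / ‖z‖, ?_⟩
  rintro t ⟨ht, htz⟩
  have h1 := h _ htz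
  rw [norm_smul, Real.norm_of_nonneg ht] at h1
  rw [le_div_iff₀ (norm_pos_iff.2 hz)]
  exact h1

theorem StarB.smul_mem (hK : StarB K) {z : E} (hz : z ≠ 0) {t : ℝ} (ht : 0 ≤ t) :
    t • z ∈ K ↔ t ≤ rad K z := by
  constructor
  · intro h
    exact le_csSup (hK.bddAbove hz) ⟨ht, h⟩
  · intro h
    have hcl : IsClosed {t : ℝ | 0 ≤ t ∧ t • z ∈ K} := by
      refine isClosed_Ici.inter ?_
      exact hK.compact.isClosed.preimage (by fun_prop : Continuous fun t : ℝ => t • z)
    have hmem : rad K z ∈ {t : ℝ | 0 ≤ t ∧ t • z ∈ K} :=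
      hcl.csSup_mem ⟨0, le_rfl, by simpa using hK.zero_mem⟩ (hK.bddAbove hz)
    rcases eq_or_lt_of_le (rad_nonneg : 0 ≤ rad K z) with h0 | h0
    · have : t = 0 := le_antisymm (h0 ▸ h) ht
      simpa [this] using hK.zero_mem
    · have h1 := hK.star _ hmem.2 (t / rad K z) (by positivity) ((div_le_one h0).2 h)
      rwa [smul_smul, div_mul_cancel₀ _ h0.ne'] at h1

theorem StarB.rad_pos (hK : StarB K) {z : E} (hz : z ∈ Dir K) : 0 < rad K z := by
  obtain ⟨h0, ε, hε, h⟩ := hz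
  exact lt_of_lt_of_le hε ((hK.smul_mem h0 hε.le).1 h)

theorem StarB.mem_Dir_of_rad (hK : StarB K) {z : E} (h : 0 < rad K z) (hz : z ≠ 0) :
    z ∈ Dir K := ⟨hz, rad K z, h, (hK.smul_mem hz h.le).2 le_rfl⟩

theorem StarB.rad_eq_zero (hK : StarB K) {z : E} (hz : z ≠ 0) (h : z ∉ Dir K) : rad K z = 0 := by
  by_contra h0
  exact h (hK.mem_Dir_of_rad (lt_of_le_of_ne rad_nonneg (Ne.symm h0)) hz)

theorem StarB.mem_iff (hK : StarB K) {z : E} (hz : z ≠ 0) : z ∈ K ↔ 1 ≤ rad K z := by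
  rw [← hK.smul_mem hz zero_le_one, one_smul]

theorem StarB.tendsto_rad {ι : Type*} {F : Filter ι} {u : ι → E} {v : E} (hK : StarB K)
    (hu : ∀ᶠ n in F, u n ∈ Dir K) (hv : v ∈ Dir K) (h : Tendsto u F (𝓝 v)) :
    Tendsto (fun n => rad K (u n)) F (𝓝 (rad K v)) :=
  (hK.cont v hv).tendsto.comp (tendsto_nhdsWithin_iff.2 ⟨h, hu⟩)

/-- Upper semicontinuity: a positive lower bound for the radial function passes to the limit. -/
theorem StarB.mem_Dir_of_tendsto {u : ℕ → E} {v : E} (hK : StarB K) {c : ℝ} (hc : 0 < c)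
    (hu : ∃ᶠ n in atTop, c ≤ rad K (u n)) (h : Tendsto u atTop (𝓝 v)) (hv : v ≠ 0) :
    v ∈ Dir K ∧ c ≤ rad K v := by
  have h0 : ∀ᶠ n in atTop, u n ≠ 0 := h.eventually_ne hv
  have h1 : ∃ᶠ n in atTop, c • u n ∈ K :=
    (hu.and_eventually h0).mono fun n hn => (hK.smul_mem hn.2 hc.le).2 hn.1
  have h2 : c • v ∈ K := by
    refine hK.compact.isClosed.mem_of_frequently_of_tendsto h1 ?_
    exact h.const_smul c
  exact ⟨⟨hv, c, hc, h2⟩, (hK.smul_mem hv hc.le).1 h2⟩

theorem StarB.loc_closed (hK : StarB K) {z : E} (hz : z ∈ Dir K) :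
    ∃ ε : ℝ, 0 < ε ∧ ∀ v ∈ Metric.ball z ε, v ∈ closure (Dir K) → v ∈ Dir K := by
  have hr := hK.rad_pos hz
  have h1 : ∀ᶠ v in 𝓝[Dir K] z, rad K z / 2 < rad K v :=
    (hK.cont z hz).eventually (lt_mem_nhds (by linarith))
  rw [eventually_nhdsWithin_iff, Metric.eventually_nhds_iff_ball] at h1
  obtain ⟨δ, hδ, h2⟩ := h1
  refine ⟨min δ ‖z‖, lt_min hδ (norm_pos_iff.2 hz.1), ?_⟩
  intro v hv hcl
  have hv0 : v ≠ 0 := by
    rintro rfl
    rw [Metric.mem_ball, dist_zero_left] at hv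
    exact absurd hv (not_lt.2 (min_le_right _ _))
  obtain ⟨u, hu, hlim⟩ := mem_closure_iff_seq_limit.1 hcl
  have h3 : ∀ᶠ n in atTop, u n ∈ Metric.ball z δ :=
    hlim.eventually (Metric.isOpen_ball.mem_nhds (Metric.ball_subset_ball (min_le_left _ _) hv))
  have h4 : ∀ᶠ n in atTop, rad K z / 2 ≤ rad K (u n) :=
    h3.mono fun n hn => (h2 (u n) hn (hu n)).le
  exact (hK.mem_Dir_of_tendsto (by positivity) h4.frequently hlim hv0).1

theorem StarB.mem_interior (hK : StarB K) {z : E} (hz : z ∈ interior (Dir K)) (h : 1 < rad K z) :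
    z ∈ interior K := by
  rw [mem_interior_iff_mem_nhds] at hz ⊢
  have hz' : z ∈ Dir K := mem_of_mem_nhds hz
  have hc : ContinuousAt (rad K) z := (hK.cont z hz').continuousAt hz
  filter_upwards [hz, hc.eventually (lt_mem_nhds h)] with v hv h1
  exact (hK.mem_iff hv.1).2 h1.le

theorem mem_interior_Dir_of_mem_interior {z : E} (hz : z ∈ interior K) (h0 : z ≠ 0) :
    z ∈ interior (Dir K) := by
  rw [mem_interior_iff_mem_nhds] at hz ⊢
  filter_upwards [hz, isOpen_ne.mem_nhds h0] with v hv hv0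
  exact mem_Dir hv hv0

theorem StarB.of_mem_interior (hK : StarB K) {z : E} (hz : z ∈ interior K) (h0 : z ≠ 0) :
    z ∈ interior (Dir K) ∧ 1 < rad K z := by
  refine ⟨mem_interior_Dir_of_mem_interior hz h0, ?_⟩
  have hc : ContinuousAt (fun t : ℝ => t • z) 1 := by fun_prop
  have h1 : ∀ᶠ t : ℝ in 𝓝 1, t • z ∈ interior K := by
    apply hc.eventually
    simpa using isOpen_interior.mem_nhds hz
  have h2 : ∃ᶠ t : ℝ in 𝓝 1, 1 < t := by
    have := (frequently_gt_nhds (1 : ℝ))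
    exact this
  obtain ⟨t, ht, h3⟩ := (h2.and_eventually h1).exists
  exact lt_of_lt_of_le ht ((hK.smul_mem h0 (by linarith)).1 (interior_subset h3))

theorem StarB.closure_interior (hK : StarB K) (hne : (Dir K).Nonempty) :
    closure (interior K) = K := by
  apply subset_antisymm
  · exact closure_minimal interior_subset hK.compact.isClosed
  have key : ∀ z ∈ K, z ≠ 0 → z ∈ closure (interior K) := by
    intro z hz hz0
    have hzD : z ∈ Dir K := mem_Dir hz hz0
    obtain ⟨w, hw, hlim⟩ := mem_closure_iff_seq_limit.1 (hK.reg hzD)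
    have hrad : Tendsto (fun n => rad K (w n)) atTop (𝓝 (rad K z)) :=
      hK.tendsto_rad (Eventually.of_forall fun n => interior_subset (hw n)) hzD hlim
    have hr1 : 1 ≤ rad K z := (hK.mem_iff hz0).1 hz
    have h1 : ∀ t : ℝ, 0 < t → t < 1 → t • z ∈ closure (interior K) := by
      intro t ht0 ht1
      have h2 : ∀ᶠ n in atTop, t < rad K (w n) := hrad.eventually (lt_mem_nhds (by linarith))
      have h3 : ∀ᶠ n in atTop, t • w n ∈ interior K := by
        filter_upwards [h2] with n hn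
        apply hK.mem_interior ((smul_mem_interior_Dir ht0).2 (hw n))
        rw [rad_smul ht0, one_lt_div ht0]
        exact hn
      exact mem_closure_of_tendsto (hlim.const_smul t) h3
    have h4 : Tendsto (fun t : ℝ => t • z) (𝓝[<] 1) (𝓝 ((1 : ℝ) • z)) := by
      apply Tendsto.mono_left _ nhdsWithin_le_nhds
      exact (by fun_prop : Continuous fun t : ℝ => t • z).tendsto 1
    rw [one_smul] at h4
    have h5 : ∀ᶠ t : ℝ in 𝓝[<] 1, t • z ∈ closure (interior K) := by
      have h6 : ∀ᶠ t : ℝ in 𝓝[<] 1, 0 < t :=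
        nhdsWithin_le_nhds (lt_mem_nhds one_pos)
      filter_upwards [h6, self_mem_nhdsWithin] with t ht ht'
      exact h1 t ht ht'
    exact isClosed_closure.mem_of_tendsto h4 h5
  intro z hz
  by_cases hz0 : z = 0
  · subst hz0
    obtain ⟨u, hu0, ε, hε, hu⟩ := hne
    have h1 : ∀ t : ℝ, 0 < t → t < 1 → t • (ε • u) ∈ closure (interior K) := by
      intro t ht0 ht1
      exact key _ (hK.star _ hu t ht0.le ht1.le) (smul_ne_zero ht0.ne' (smul_ne_zero hε.ne' hu0))
    have h4 : Tendsto (fun t : ℝ => t • (ε • u)) (𝓝[>] 0) (𝓝 ((0 : ℝ) • (ε • u))) := by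
      apply Tendsto.mono_left _ nhdsWithin_le_nhds
      exact (by fun_prop : Continuous fun t : ℝ => t • (ε • u)).tendsto 0
    rw [zero_smul] at h4
    have h5 : ∀ᶠ t : ℝ in 𝓝[>] 0, t • (ε • u) ∈ closure (interior K) := by
      have h6 : ∀ᶠ t : ℝ in 𝓝[>] 0, t < 1 :=
        nhdsWithin_le_nhds (gt_mem_nhds one_pos)
      filter_upwards [h6, self_mem_nhdsWithin] with t ht ht'
      exact h1 t ht' ht
    exact isClosed_closure.mem_of_tendsto h4 h5
  · exact key z hz hz0

theorem StarB.exists_interior_near (hK : StarB K) {z : E} (hz : z ∈ Dir K) {ε : ℝ} (hε : 0 < ε) :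
    ∃ w ∈ interior (Dir K), dist w z < ε := by
  obtain ⟨w, hw, h⟩ := Metric.mem_closure_iff.1 (hK.reg hz) ε hε
  exact ⟨w, hw, by rwa [dist_comm]⟩

/-- From the definition in the problem. -/
theorem StarB.of_body [FiniteDimensional ℝ E] (hc : IsCompact K) (hr : closure (interior K) = K)
    (h0 : (0 : E) ∈ K)
    (hs : ∀ z ∈ K, ∀ t : ℝ, 0 ≤ t → t ≤ 1 → t • z ∈ K)
    (hcont : ContinuousOn (rad K) {u : E | ‖u‖ = 1 ∧ 0 < rad K u}) : StarB K := by
  have hpos : ∀ z ∈ Dir K, 0 < rad K z := by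
    rintro z ⟨hz0, ε, hε, hz⟩
    refine lt_of_lt_of_le hε (le_csSup ?_ ⟨hε.le, hz⟩)
    obtain ⟨R, hR, h⟩ := hc.isBounded.exists_pos_norm_le
    refine ⟨R / ‖z‖, ?_⟩
    rintro t ⟨ht, htz⟩
    have h1 := h _ htz
    rw [norm_smul, Real.norm_of_nonneg ht] at h1
    rw [le_div_iff₀ (norm_pos_iff.2 hz0)]
    exact h1
  have hunit : ∀ z : E, z ≠ 0 → rad K z = rad K (‖z‖⁻¹ • z) / ‖z‖ := by
    intro z hz
    have hn : 0 < ‖z‖ := norm_pos_iff.2 hz
    rw [rad_smul (inv_pos.2 hn), div_inv_eq_mul, mul_div_assoc, div_self hn.ne', mul_one]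
  refine ⟨hc, h0, hs, ?_, ?_⟩
  · have h1 : ContinuousOn (fun z : E => rad K (‖z‖⁻¹ • z) / ‖z‖) (Dir K) := by
      have h2 : ContinuousOn (fun z : E => ‖z‖⁻¹ • z) (Dir K) := by
        apply ContinuousOn.smul _ continuousOn_id
        exact continuousOn_id.norm.inv₀ fun z hz => (norm_pos_iff.2 hz.1).ne'
      refine ContinuousOn.div (hcont.comp h2 ?_) continuousOn_id.norm
        fun z hz => (norm_pos_iff.2 hz.1).ne'
      intro z hz
      have hn : 0 < ‖z‖ := norm_pos_iff.2 hz.1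
      refine ⟨?_, hpos _ ((smul_mem_Dir (inv_pos.2 hn)).2 hz)⟩
      rw [norm_smul, norm_inv, norm_norm, inv_mul_cancel₀ hn.ne']
    exact h1.congr fun z hz => hunit z hz.1
  · rintro z ⟨hz0, ε, hε, hz⟩
    rw [← hr] at hz
    obtain ⟨w, hw, hlim⟩ := mem_closure_iff_seq_limit.1 hz
    have h1 : ∀ᶠ n in atTop, w n ≠ 0 := hlim.eventually_ne (smul_ne_zero hε.ne' hz0)
    have h2 : ∀ᶠ n in atTop, ε⁻¹ • w n ∈ interior (Dir K) := by
      filter_upwards [h1] with n hn
      exact (smul_mem_interior_Dir (inv_pos.2 hε)).2 (mem_interior_Dir_of_mem_interior (hw n) hn)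
    have h3 := hlim.const_smul ε⁻¹
    rw [smul_smul, inv_mul_cancel₀ hε.ne', one_smul] at h3
    exact mem_closure_of_tendsto h3 h2

/-- If two star bodies agree up to a homothety off a closed set with dense complement they are
homothetic. -/
theorem hom_top_of_dense (hK : StarB K) (hL : StarB L) (hKn : (Dir K).Nonempty)
    (hLn : (Dir L).Nonempty) {x : E} {l : ℝ} (hl : 0 < l)
    {A : Set E} (hA : Dense A)
    (h : ∀ z ∈ A, (x + l • z ∈ K ↔ z ∈ L)) : Hom K L ⊤ x l := by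
  have hcont : Continuous fun z : E => x + l • z := by fun_prop
  have hcl1 : IsClosed ((fun z : E => x + l • z) ⁻¹' K) := hK.compact.isClosed.preimage hcont
  refine ⟨Submodule.mem_top, hl, fun z _ => ⟨?_, ?_⟩⟩
  · -- from `K` to `L`, through the inverse homothety
    have hcont' : Continuous fun w : E => l⁻¹ • (w - x) := by fun_prop
    have hcl2 : IsClosed ((fun w : E => l⁻¹ • (w - x)) ⁻¹' L) :=
      hL.compact.isClosed.preimage hcont'
    have h2 : interior K ⊆ (fun w : E => l⁻¹ • (w - x)) ⁻¹' L := by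
      have h3 : interior ((fun z : E => x + l • z) ⁻¹' K) ⊆ L := by
        have h4 : interior ((fun z : E => x + l • z) ⁻¹' K) ∩ A ⊆ L := by
          rintro v ⟨hv, hvA⟩
          have hv2 : v ∈ (fun z : E => x + l • z) ⁻¹' K := interior_subset hv
          exact (h v hvA).1 hv2
        exact (hA.open_subset_closure_inter isOpen_interior).trans
          (closure_minimal h4 hL.compact.isClosed)
      intro w hw
      apply h3
      have h5 : (fun z : E => x + l • z) ⁻¹' (interior K) ⊆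
          interior ((fun z : E => x + l • z) ⁻¹' K) :=
        interior_maximal (preimage_mono interior_subset) (isOpen_interior.preimage hcont)
      apply h5
      show x + l • l⁻¹ • (w - x) ∈ interior K
      rwa [smul_smul, mul_inv_cancel₀ hl.ne', one_smul, add_sub_cancel]
    have h3 : K ⊆ (fun w : E => l⁻¹ • (w - x)) ⁻¹' L := by
      rw [← hK.closure_interior hKn]
      exact closure_minimal h2 hcl2
    intro hz
    have h4 := h3 hz
    simp only [mem_preimage, add_sub_cancel_left, smul_smul, inv_mul_cancel₀ hl.ne',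
      one_smul] at h4
    exact h4
  · have h2 : interior L ⊆ (fun z : E => x + l • z) ⁻¹' K := by
      have h4 : interior L ∩ A ⊆ (fun z : E => x + l • z) ⁻¹' K := by
        rintro v ⟨hv, hvA⟩
        exact (h v hvA).2 (interior_subset hv)
      exact (hA.open_subset_closure_inter isOpen_interior).trans (closure_minimal h4 hcl1)
    have h3 : L ⊆ (fun z : E => x + l • z) ⁻¹' K := by
      rw [← hL.closure_interior hLn]
      exact closure_minimal h2 hcl1
    intro hz
    exact h3 hz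

end Pool.Agent.H63.SB
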